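import Pool.Agent.Run7.h423.Maj

/-! G9: archimedean bound for the rows. -/

set_option autoImplicit false

namespace Run7.h423

noncomputable section

open PowerSeries Finset

/-- a majorant for `D f` on a smaller circle -/
theorem Maj.deriv {r r' K : ℝ} (hr : 0 ≤ r) (hr' : 0 < r') (hlt : r < r') {f : ℚ⟦X⟧}
    (hf : Maj r' K f) : ∃ K' : ℝ, Maj r K' (D f) := by
  have hx : |r / r'| < 1 := by
    rw [abs_of_nonneg (by positivity), div_lt_one hr']
    exact hlt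
  have ht := tendsto_self_mul_const_pow_of_abs_lt_one hx
  obtain ⟨c, hc⟩ := ht.bddAbove_range
  have hc' : ∀ n : ℕ, (n : ℝ) * (r / r') ^ n ≤ c := fun n => hc ⟨n, rfl⟩
  have hc0 : 0 ≤ c := by simpa using hc' 0
  refine ⟨c * K, fun N => ?_⟩
  calc ∑ n ∈ Finset.range N, |((coeff n (D f) : ℚ) : ℝ)| * r ^ n
      ≤ ∑ n ∈ Finset.range N, c * (|((coeff n f : ℚ) : ℝ)| * r' ^ n) := by
        refine Finset.sum_le_sum fun n _ => ?_
        rw [coeff_D]
        push_cast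
        rw [abs_mul, Nat.abs_cast]
        have h1 : r ^ n = (r / r') ^ n * r' ^ n := by
          rw [← mul_pow, div_mul_cancel₀ _ hr'.ne']
        calc (n : ℝ) * |((coeff n f : ℚ) : ℝ)| * r ^ n
            = ((n : ℝ) * (r / r') ^ n) * (|((coeff n f : ℚ) : ℝ)| * r' ^ n) := by
              rw [h1]; ring
          _ ≤ c * (|((coeff n f : ℚ) : ℝ)| * r' ^ n) :=
              mul_le_mul_of_nonneg_right (hc' n) (mul_nonneg (abs_nonneg _) (by positivity))
    _ = c * ∑ n ∈ Finset.range N, |((coeff n f : ℚ) : ℝ)| * r' ^ n := by rw [Finset.mul_sum]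
    _ ≤ c * K := mul_le_mul_of_nonneg_left (hf N) hc0

theorem maj_phim {r K : ℝ} (h : Maj r K phi) : Maj r K phim := by
  intro N
  refine le_trans (le_of_eq ?_) (h N)
  refine Finset.sum_congr rfl fun n _ => ?_
  rw [phim, PowerSeries.coeff_mk]
  push_cast
  rw [abs_mul, abs_pow, abs_neg, abs_one, one_pow, one_mul]

theorem phi_const : constantCoeff phi = 1 := by
  rw [← PowerSeries.coeff_zero_eq_constantCoeff_apply, phi, PowerSeries.coeff_mk]
  simp

theorem phim_const : constantCoeff phim = 1 := by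
  rw [← PowerSeries.coeff_zero_eq_constantCoeff_apply, phim, PowerSeries.coeff_mk,
    PowerSeries.coeff_zero_eq_constantCoeff_apply, phi_const]
  simp

theorem A_const_aux : constantCoeff A = 1 := by
  rw [A, map_mul, phi_const, phim_const, one_mul]

theorem A_mul_inv_aux : A * A⁻¹ = 1 :=
  PowerSeries.mul_inv_cancel A (by rw [A_const_aux]; exact one_ne_zero)

/-- the rows in terms of holomorphic series -/
theorem row_eq (h W d : ℕ) (F : ℚ⟦X⟧) (i b c : ℕ) (hi : i ≤ d) (hb : b ≤ W) :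
    row h W d F i b c = bb ^ i * A ^ (2 * (d - i) + (4 * (W - b) + (W - h * c - b))) *
      (B * D A) ^ b * F ^ c := by
  have hE : E = B * D A * A⁻¹ ^ 4 := by
    show (S * A⁻¹ ^ 2) • D A = _
    rw [S, smul_eq_mul]
    ring
  have hA : A * A⁻¹ = 1 := A_mul_inv_aux
  obtain ⟨j, rfl⟩ := Nat.exists_eq_add_of_le hi
  obtain ⟨e, rfl⟩ := Nat.exists_eq_add_of_le hb
  have h1 : i + j - i = j := by omega
  have h2 : b + e - b = e := by omega
  rw [row, mon, hE, w, h1, h2]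
  generalize b + e - h * c - b = g
  have h3 : A ^ (2 * (i + j) + 4 * (b + e)) =
      A ^ (2 * j + 4 * e) * A ^ (2 * i) * A ^ (4 * b) := by
    rw [← pow_add, ← pow_add]; congr 1; ring
  have h4 : A⁻¹ ^ (2 * i) * A ^ (2 * i) = 1 := by rw [← mul_pow, mul_comm, hA, one_pow]
  have h5 : A⁻¹ ^ (4 * b) * A ^ (4 * b) = 1 := by rw [← mul_pow, mul_comm, hA, one_pow]
  have h6 : A ^ (2 * j + (4 * e + g)) = A ^ (2 * j) * A ^ (4 * e) * A ^ g := by
    rw [pow_add, pow_add]; ring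
  rw [h3, h6, mul_pow, mul_pow (B * D A), ← pow_mul, ← pow_mul, pow_add A (2 * j)]
  linear_combination (bb ^ i * A ^ (2 * j) * A ^ (4 * e) * A ^ g * (B * D A) ^ b * F ^ c) *
    (A⁻¹ ^ (4 * b) * A ^ (4 * b) * h4 + h5)

theorem arch_rows' {h : ℕ} {a : ℕ → ℤ} {v : Polynomial ℚ} (hs : Sys h a v) (W C m : ℕ)
    (hm : 1000 ≤ m) :
    ∃ K0 : ℝ, 1 ≤ K0 ∧ ∀ d i b c n : ℕ, i < d → b + h * c ≤ W → c ≤ C →
      |((coeff n (row h W d (Fs a) i b c) : ℚ) : ℝ)| * (1 - 1 / m : ℝ) ^ n ≤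
        K0 * (10 * m : ℝ) ^ (2 * d) := by
  have hm0 : (0 : ℝ) < m := by
    have : 0 < m := by omega
    exact_mod_cast this
  have hm1 : (1000 : ℝ) ≤ m := by exact_mod_cast hm
  have hinv : (1 : ℝ) / m ≤ 1 / 1000 := by
    apply one_div_le_one_div_of_le <;> linarith
  have hinv0 : (0 : ℝ) < 1 / m := by positivity
  set r : ℝ := 1 - 1 / m with hrdef
  have hr0 : 0 < r := by linarith
  have hr1 : r < 1 := by linarith
  -- majorants at `r`
  obtain ⟨K, hK1, hK2, hphi⟩ := maj_phi' m hm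
  have hphim : Maj r K phim := maj_phim hphi
  set M : ℝ := 10 * m with hM
  have hM1 : 1 ≤ M := by rw [hM]; linarith
  have hK0 : 0 ≤ K := le_trans zero_le_one hK1
  have hA : Maj r M A := (Maj.mul' hr0.le hphi hphim).mono (by rw [← sq]; exact hK2)
  have hK4 : K ^ 4 ≤ M ^ 2 := by
    calc K ^ 4 = (K ^ 2) ^ 2 := by ring
      _ ≤ M ^ 2 := pow_le_pow_left₀ (by positivity) hK2 2
  have h4 : Maj r (M ^ 2) (phi ^ 4) := (Maj.pow' hr0.le hK1 hphi 4).mono hK4
  have h4m : Maj r (M ^ 2) (phim ^ 4) := (Maj.pow' hr0.le hK1 hphim 4).mono hK4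
  have hM2 : 0 ≤ M ^ 2 := by positivity
  have hB : Maj r (M ^ 2) B := by
    refine (Maj.const_mul (Maj.add hr0.le h4 h4m) (1 / 2 : ℚ)).mono ?_
    rw [abs_of_nonneg (by norm_num)]
    push_cast
    linarith
  have hbb : Maj r (M ^ 2) bb := by
    refine (Maj.const_mul (Maj.sub hr0.le h4 h4m) (1 / 16 : ℚ)).mono ?_
    rw [abs_of_nonneg (by norm_num)]
    push_cast
    linarith
  -- the derivative of `A`
  have hDA : ∃ K1 : ℝ, Maj r K1 (D A) := by
    obtain ⟨K', hK'1, hK'2, hphi'⟩ := maj_phi' (2 * m) (by omega)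
    have hr' : (0 : ℝ) < 1 - 1 / ((2 * m : ℕ) : ℝ) := by
      have : (1 : ℝ) / ((2 * m : ℕ) : ℝ) = (1 / m) / 2 := by
        push_cast
        field_simp
      rw [this]
      linarith
    have hlt : r < 1 - 1 / ((2 * m : ℕ) : ℝ) := by
      have : (1 : ℝ) / ((2 * m : ℕ) : ℝ) = (1 / m) / 2 := by
        push_cast
        field_simp
      rw [this, hrdef]
      linarith
    exact Maj.deriv hr0.le hr' hlt (Maj.mul' hr'.le hphi' (maj_phim hphi'))
  obtain ⟨K1, hK1'⟩ := hDA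
  have hBD : Maj r (max 1 (M ^ 2 * K1)) (B * D A) :=
    (Maj.mul' hr0.le hB hK1').mono (le_max_right _ _)
  obtain ⟨K2, hK2'⟩ := hs.maj r hr0 hr1
  have hF : Maj r (max 1 K2) (Fs a) := hK2'.mono (le_max_right _ _)
  set L1 : ℝ := max 1 (M ^ 2 * K1) with hL1
  set L2 : ℝ := max 1 K2 with hL2
  have hL1' : 1 ≤ L1 := le_max_left _ _
  have hL2' : 1 ≤ L2 := le_max_left _ _
  refine ⟨M ^ (5 * W) * L1 ^ W * L2 ^ C, ?_, ?_⟩
  · have h1 : 1 ≤ M ^ (5 * W) := one_le_pow₀ hM1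
    have h2 : 1 ≤ L1 ^ W := one_le_pow₀ hL1'
    have h3 : 1 ≤ L2 ^ C := one_le_pow₀ hL2'
    calc (1 : ℝ) = 1 * 1 * 1 := by norm_num
      _ ≤ M ^ (5 * W) * L1 ^ W * L2 ^ C := by gcongr
  · intro d i b c n hi hbc hc
    have hb : b ≤ W := by omega
    rw [row_eq h W d (Fs a) i b c hi.le hb]
    have hmaj := Maj.mul' hr0.le (Maj.mul' hr0.le (Maj.mul' hr0.le
      (Maj.pow' hr0.le (one_le_pow₀ hM1 : 1 ≤ M ^ 2) hbb i)
      (Maj.pow' hr0.le hM1 hA (2 * (d - i) + (4 * (W - b) + (W - h * c - b)))))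
      (Maj.pow' hr0.le hL1' hBD b)) (Maj.pow' hr0.le hL2' hF c)
    refine (hmaj.coeff_le hr0.le n).trans ?_
    have h1 : (M ^ 2) ^ i * M ^ (2 * (d - i) + (4 * (W - b) + (W - h * c - b))) ≤
        M ^ (5 * W) * M ^ (2 * d) := by
      rw [← pow_mul, ← pow_add, ← pow_add]
      exact pow_le_pow_right₀ hM1 (by omega)
    have h2 : L1 ^ b ≤ L1 ^ W := pow_le_pow_right₀ hL1' hb
    have h3 : L2 ^ c ≤ L2 ^ C := pow_le_pow_right₀ hL2' hc
    calc (M ^ 2) ^ i * M ^ (2 * (d - i) + (4 * (W - b) + (W - h * c - b))) * L1 ^ b * L2 ^ c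
        ≤ M ^ (5 * W) * M ^ (2 * d) * L1 ^ W * L2 ^ C := by gcongr
      _ = M ^ (5 * W) * L1 ^ W * L2 ^ C * M ^ (2 * d) := by ring

end

end Run7.h423
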