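import Mathlib

/-!
# Ordinary primes for Ramanujan's Delta: common definitions

All series live in `ℚ⟦X⟧`, `X = q`.
* `D = q d/dq`
* `phi = ∑ q^(n^2)`, `phim(q) = phi(-q)`, `A = phi * phim`
* `B = (phi^4 + phim^4)/2`, `bb = (phi^4 - phim^4)/16`
* `w = bb / A^2 = q + 12 q^3 + ...`, `S = B / A^2`, `S^2 = 1 + 64 w^2 =: T`
* `th = (S / A^2) D`, so that `th w = w T`
* `E = th A`
-/

set_option autoImplicit false

namespace Run7.h423

noncomputable section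

open PowerSeries

/-- the operator `q d/dq` -/
def D : Derivation ℚ ℚ⟦X⟧ ℚ⟦X⟧ := (X : ℚ⟦X⟧) • (d⁄dX ℚ)

theorem coeff_D (f : ℚ⟦X⟧) (n : ℕ) : coeff n (D f) = n * coeff n f := by
  show coeff n ((X : ℚ⟦X⟧) • (d⁄dX ℚ f)) = _
  rw [smul_eq_mul]
  cases n with
  | zero => simp
  | succ n => rw [coeff_succ_X_mul, PowerSeries.coeff_derivative]; push_cast; ring

/-- `∑_{n ∈ ℤ} q^(n^2)` -/
def phi : ℚ⟦X⟧ := PowerSeries.mk fun n => if n = 0 then 1 else if IsSquare n then 2 else 0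

/-- `phi(-q)` -/
def phim : ℚ⟦X⟧ := PowerSeries.mk fun n => (-1) ^ n * coeff n phi

def A : ℚ⟦X⟧ := phi * phim

def B : ℚ⟦X⟧ := C (1 / 2 : ℚ) * (phi ^ 4 + phim ^ 4)

def bb : ℚ⟦X⟧ := C (1 / 16 : ℚ) * (phi ^ 4 - phim ^ 4)

/-- `w = q + 12 q^3 + ...` -/
def w : ℚ⟦X⟧ := bb * A⁻¹ ^ 2

def S : ℚ⟦X⟧ := B * A⁻¹ ^ 2

/-- the derivation with `th w = w (1 + 64 w^2)` -/
def th : Derivation ℚ ℚ⟦X⟧ ℚ⟦X⟧ := (S * A⁻¹ ^ 2) • D

def E : ℚ⟦X⟧ := th A

/-- the primitive of the odd part of `∑ a(n) q^n` -/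
def Fs (a : ℕ → ℤ) : ℚ⟦X⟧ := PowerSeries.mk fun n => if Odd n then (a n : ℚ) / n else 0

/-- value at `w` of a polynomial -/
def ev (P : Polynomial ℚ) : ℚ⟦X⟧ := Polynomial.aeval w P

/-- `f` has integral coefficients -/
def IsInt (f : ℚ⟦X⟧) : Prop := ∀ n, ∃ z : ℤ, coeff n f = z

/-- majorant: all partial sums of `∑ |f_n| r^n` are `≤ K` -/
def Maj (r K : ℝ) (f : ℚ⟦X⟧) : Prop :=
  ∀ N : ℕ, ∑ n ∈ Finset.range N, |((coeff n f : ℚ) : ℝ)| * r ^ n ≤ K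

/-- The data: `a(n)` are integers with the Hecke relations in weight `h + 2`, and `F = Fs a` satisfies
`th F = v(w) A^h` with an odd polynomial `v`. -/
structure Sys (h : ℕ) (a : ℕ → ℤ) (v : Polynomial ℚ) : Prop where
  h4 : 4 ≤ h
  one : a 1 = 1
  hecke : ∀ p : ℕ, p.Prime → ∀ n : ℕ, 1 ≤ n →
    a (p * n) = a p * a n - if p ∣ n then (p : ℤ) ^ (h + 1) * a (n / p) else 0
  ode : th (Fs a) = ev v * A ^ h
  deg : v.natDegree ≤ h
  even_zero : ∀ n, Even n → v.coeff n = 0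
  val : ∀ n, padicNorm 2 (v.coeff (n + 1)) ≤ (2 : ℚ) ^ (-(2 * (n : ℤ)))
  maj : ∀ r : ℝ, 0 < r → r < 1 → ∃ K : ℝ, Maj r K (Fs a)

/-- the derivation of `ℚ⟦X⟧[L]` with `L ↦ 1` extending `D` -/
def DL : Derivation ℚ (Polynomial ℚ⟦X⟧) (Polynomial ℚ⟦X⟧) :=
  PolynomialModule.equivPolynomialSelf.compDer (D.mapCoeffs) +
    (Polynomial.derivative' (R := ℚ⟦X⟧)).restrictScalars ℚ

theorem coeff_DL (P : Polynomial ℚ⟦X⟧) (n : ℕ) :
    (DL P).coeff n = D (P.coeff n) + (n + 1) * P.coeff (n + 1) := by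
  show (PolynomialModule.equivPolynomialSelf (D.mapCoeffs P) + Polynomial.derivative P).coeff n = _
  rw [Polynomial.coeff_add, Polynomial.coeff_derivative, mul_comm ((n : ℚ⟦X⟧) + 1)]
  rfl

theorem DL_C (f : ℚ⟦X⟧) : DL (Polynomial.C f) = Polynomial.C (D f) := by
  ext1 n
  rw [coeff_DL, Polynomial.coeff_C_succ, mul_zero, add_zero, Polynomial.coeff_C, Polynomial.coeff_C]
  split_ifs <;> simp

theorem DL_X : DL (Polynomial.X : Polynomial ℚ⟦X⟧) = 1 := by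
  ext1 n
  rw [coeff_DL, Polynomial.coeff_X, Polynomial.coeff_X, Polynomial.coeff_one]
  rcases n with _ | n
  · simp
  · rcases n with _ | n
    · simp
    · simp

theorem DL_derivative (P : Polynomial ℚ⟦X⟧) :
    DL (Polynomial.derivative P) = Polynomial.derivative (DL P) := by
  ext1 n
  rw [coeff_DL, Polynomial.coeff_derivative, Polynomial.coeff_derivative,
    Polynomial.coeff_derivative (DL P), coeff_DL, Derivation.leibniz, smul_eq_mul, smul_eq_mul]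
  have h : D ((n : ℚ⟦X⟧) + 1) = 0 := by
    rw [map_add, Derivation.map_natCast, Derivation.map_one_eq_zero, add_zero]
  rw [h]
  push_cast
  ring

/-- the extension of `th` -/
def thL : Derivation ℚ (Polynomial ℚ⟦X⟧) (Polynomial ℚ⟦X⟧) :=
  Polynomial.C (S * A⁻¹ ^ 2) • DL

/-- the types `(b, c)` of the monomials `A^(W - h c - b) E^b F^c`, `c ≤ C`, `b + h c ≤ W` -/
abbrev Ty (h W C : ℕ) : Type := {x : Fin (W + 1) × Fin (C + 1) // (x.1 : ℕ) + h * (x.2 : ℕ) ≤ W}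

/-- the monomial of a type -/
def mon (h W : ℕ) (F : ℚ⟦X⟧) (b c : ℕ) : ℚ⟦X⟧ := A ^ (W - h * c - b) * E ^ b * F ^ c

/-- the rows, multiplied by `A ^ (2 d + 4 W)` -/
def row (h W d : ℕ) (F : ℚ⟦X⟧) (i b c : ℕ) : ℚ⟦X⟧ :=
  w ^ i * mon h W F b c * A ^ (2 * d + 4 * W)

end

end Run7.h423
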