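import Pool.Agent.Run7.h423.Theta

/-!
# Derivatives of the theta functions (piece G2, helper333)

The duplication trick `q ↦ q ^ 2`.
-/

set_option autoImplicit false

namespace Run7.h423

noncomputable section

open PowerSeries

namespace G2

/-- `f(q) ↦ f(q ^ 2)` -/
def dup : ℚ⟦X⟧ →ₐ[ℚ] ℚ⟦X⟧ := expand 2 two_ne_zero

theorem D_dup (f : ℚ⟦X⟧) : D (dup f) = 2 * dup (D f) := by
  ext n
  rw [coeff_D]
  have e2 : (2 : ℚ⟦X⟧) * dup (D f) = dup (D f) + dup (D f) := by ring
  rw [e2, map_add]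
  unfold dup
  rcases Nat.even_or_odd' n with ⟨m, rfl | rfl⟩
  · rw [coeff_expand_mul, coeff_expand_mul, coeff_D]
    push_cast
    ring
  · rw [coeff_expand_of_not_dvd _ _ _ (by omega), coeff_expand_of_not_dvd _ _ _ (by omega)]
    ring

/-- If `U Y(q ^ 2) = V Y(q)` with `U` a unit and `V` of order `m` and `Y` has no term of degree
`m` then `Y = 0`. -/
theorem dup_uniq {U V Y : ℚ⟦X⟧} {m : ℕ} (hU : constantCoeff U ≠ 0) (hV : coeff m V ≠ 0)
    (hV' : ∀ i < m, coeff i V = 0) (hY : coeff m Y = 0) (h : U * dup Y = V * Y) : Y = 0 := by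
  by_contra hne
  have hU0 : order U = 0 := by
    have := (order_eq_nat (φ := U) (n := 0)).2 ⟨by rwa [coeff_zero_eq_constantCoeff], by simp⟩
    simpa using this
  have hVm : order V = m := order_eq_nat.2 ⟨hV, hV'⟩
  have h1 := congrArg order h
  rw [order_mul, order_mul, hU0, hVm, dup, order_expand, zero_add] at h1
  obtain ⟨n, hn⟩ := ENat.ne_top_iff_exists.1 (fun h0 => hne (order_eq_top.1 h0))
  rw [← hn] at h1
  have h2 : 2 * n = m + n := by
    have : ((2 * n : ℕ) : ℕ∞) = ((m + n : ℕ) : ℕ∞) := by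
      push_cast
      simpa using h1
    exact_mod_cast this
  have h3 : n = m := by omega
  subst h3
  exact (order_eq_nat.1 hn.symm).1 hY

/-- the first two coefficients -/
structure Lin (f : ℚ⟦X⟧) (a b : ℚ) : Prop where
  h0 : constantCoeff f = a
  h1 : coeff 1 f = b

theorem Lin.mul {f g : ℚ⟦X⟧} {a b a' b' : ℚ} (hf : Lin f a b) (hg : Lin g a' b') :
    Lin (f * g) (a * a') (a * b' + a' * b) := by
  refine ⟨by rw [map_mul, hf.h0, hg.h0], ?_⟩
  rw [coeff_mul, Finset.Nat.antidiagonal_succ]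
  simp [hf.h0, hf.h1, hg.h0, hg.h1]
  ring

theorem Lin.add {f g : ℚ⟦X⟧} {a b a' b' : ℚ} (hf : Lin f a b) (hg : Lin g a' b') :
    Lin (f + g) (a + a') (b + b') :=
  ⟨by rw [map_add, hf.h0, hg.h0], by rw [map_add, hf.h1, hg.h1]⟩

theorem Lin.sub {f g : ℚ⟦X⟧} {a b a' b' : ℚ} (hf : Lin f a b) (hg : Lin g a' b') :
    Lin (f - g) (a - a') (b - b') :=
  ⟨by rw [map_sub, hf.h0, hg.h0], by rw [map_sub, hf.h1, hg.h1]⟩

theorem Lin.C (c : ℚ) : Lin (C c) c 0 := ⟨by simp, by simp⟩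

theorem Lin.D {f : ℚ⟦X⟧} {a b : ℚ} (hf : Lin f a b) : Lin (D f) 0 b := by
  refine ⟨?_, ?_⟩
  · rw [← coeff_zero_eq_constantCoeff, coeff_D]
    simp
  · rw [coeff_D, hf.h1]
    simp

theorem Lin.sq {f : ℚ⟦X⟧} {a b : ℚ} (hf : Lin f a b) : Lin (f ^ 2) (a ^ 2) (2 * a * b) := by
  have := hf.mul hf
  rw [← pow_two, ← pow_two] at this
  exact ⟨this.h0, by rw [this.h1]; ring⟩

theorem lin_phi : Lin phi 1 2 := by
  refine ⟨?_, ?_⟩
  · rw [← coeff_zero_eq_constantCoeff, phi, coeff_mk, if_pos rfl]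
  · rw [phi, coeff_mk, if_neg one_ne_zero, if_pos ⟨1, rfl⟩]

theorem lin_phim : Lin phim 1 (-2) := by
  refine ⟨?_, ?_⟩
  · rw [← coeff_zero_eq_constantCoeff, phim, coeff_mk, coeff_zero_eq_constantCoeff, lin_phi.h0]
    norm_num
  · rw [phim, coeff_mk, lin_phi.h1]
    norm_num

theorem num_ne {n : ℕ} (h : (n : ℚ) ≠ 0) : (n : ℚ⟦X⟧) ≠ 0 := by
  intro h0
  apply h
  have := congrArg constantCoeff h0
  simpa using this

theorem dup_const (f : ℚ⟦X⟧) : constantCoeff (dup f) = constantCoeff f := by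
  rw [dup, constantCoeff_expand]

/-- `φ² + ψ²` -/
def s : ℚ⟦X⟧ := phi ^ 2 + phim ^ 2

/-- `φ² - ψ²` -/
def d : ℚ⟦X⟧ := phi ^ 2 - phim ^ 2

theorem lin_s : Lin s 2 0 := by
  have := lin_phi.sq.add lin_phim.sq
  exact ⟨by rw [s, this.h0]; norm_num, by rw [s, this.h1]; norm_num⟩

theorem lin_d : Lin d 0 8 := by
  have := lin_phi.sq.sub lin_phim.sq
  exact ⟨by rw [d, this.h0]; norm_num, by rw [d, this.h1]; norm_num⟩

theorem C_half : C (1 / 2 : ℚ) * 2 = (1 : ℚ⟦X⟧) := by
  have : (2 : ℚ⟦X⟧) = C (2 : ℚ) := (map_ofNat C 2).symm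
  rw [this, ← map_mul]
  norm_num

theorem C_16 : C (1 / 16 : ℚ) * 16 = (1 : ℚ⟦X⟧) := by
  have : (16 : ℚ⟦X⟧) = C (16 : ℚ) := (map_ofNat C 16).symm
  rw [this, ← map_mul]
  norm_num

theorem B_eq : 2 * B = phi ^ 4 + phim ^ 4 := by
  rw [B]
  linear_combination (phi ^ 4 + phim ^ 4) * C_half

theorem bb_eq : 16 * bb = phi ^ 4 - phim ^ 4 := by
  rw [bb]
  linear_combination (phi ^ 4 - phim ^ 4) * C_16

theorem D_two : D (2 : ℚ⟦X⟧) = 0 := by
  have := Derivation.map_natCast D 2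
  simpa using this

theorem D_sq (f : ℚ⟦X⟧) : D (f ^ 2) = 2 * (f * D f) := by
  rw [sq, Derivation.leibniz, smul_eq_mul]
  ring

theorem D_mul (f g : ℚ⟦X⟧) : D (f * g) = f * D g + g * D f := by
  rw [Derivation.leibniz, smul_eq_mul, smul_eq_mul]

theorem hP : dup phi ^ 2 * 2 = s := by
  have := phi_sq_add'
  unfold s dup
  linear_combination - this

theorem hM : dup phim ^ 2 = phi * phim := by
  have := phi_mul_phim'
  unfold dup
  linear_combination - this

/-- (i) -/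
theorem rel_one : 4 * (phi * D phim - phim * D phi) = - (phi ^ 4 - phim ^ 4) * (phi * phim) := by
  set Y := C 4 * (phi * D phim - phim * D phi) + (phi ^ 2 - phim ^ 2) * (phi ^ 2 + phim ^ 2) *
    (phi * phim) with hY
  have h4 : (C 4 : ℚ⟦X⟧) = 4 := map_ofNat C 4
  suffices h : Y = 0 by
    rw [hY, h4] at h
    linear_combination h
  have hDP : 4 * (dup phi * (2 * dup (D phi))) = 2 * (phi * D phi + phim * D phim) := by
    have h1 := congrArg D hP
    rw [D_mul, D_sq, D_two, D_dup] at h1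
    unfold s at h1
    rw [map_add, D_sq, D_sq] at h1
    linear_combination h1
  have hDM : 2 * (dup phim * (2 * dup (D phim))) = phi * D phim + phim * D phi := by
    have h1 := congrArg D hM
    rw [D_mul, D_sq, D_dup] at h1
    linear_combination h1
  have hdY : dup Y = 4 * (dup phi * dup (D phim) - dup phim * dup (D phi)) +
      (dup phi ^ 4 - dup phim ^ 4) * (dup phi * dup phim) := by
    rw [hY, h4]
    simp only [map_add, map_sub, map_mul, map_pow, map_ofNat]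
    ring
  have lY := ((Lin.C 4).mul ((lin_phi.mul lin_phim.D).sub (lin_phim.mul lin_phi.D))).add
    ((lin_d.mul lin_s).mul (lin_phi.mul lin_phim))
  refine dup_uniq (U := C 8 * (dup phi * dup phim)) (V := d) (m := 1) ?_ ?_ ?_ ?_ ?_
  · rw [map_mul, map_mul, dup_const, dup_const, lin_phi.h0, lin_phim.h0, constantCoeff_C]
    norm_num
  · rw [lin_d.h1]
    norm_num
  · intro i hi
    rw [show i = 0 by omega, coeff_zero_eq_constantCoeff, lin_d.h0]
  · have := lY.h1
    rw [hY]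
    unfold s d at this
    rw [this]
    norm_num
  · have h8 : (C 8 : ℚ⟦X⟧) = 8 := map_ofNat C 8
    rw [hdY, h8, hY, h4]
    have h1 := hP
    have h2 := hM
    unfold s at h1
    unfold d
    set P := dup phi
    set M := dup phim
    set P' := dup (D phi)
    set M' := dup (D phim)
    set a := phi
    set b := phim
    set a' := D phi
    set b' := D phim
    linear_combination 8 * P ^ 2 * hDM - 4 * M ^ 2 * hDP + 4 * (a * b' + b * a') * h1 -
      8 * (a * a' + b * b') * h2 + (M ^ 2 * (4 * P ^ 4 + 2 * P ^ 2 * (a ^ 2 + b ^ 2) +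
        (a ^ 2 + b ^ 2) ^ 2) - 4 * M ^ 6) * h1 + ((a ^ 2 + b ^ 2) ^ 3 - 4 * (a ^ 2 + b ^ 2) *
        (M ^ 4 + M ^ 2 * (a * b) + a ^ 2 * b ^ 2)) * h2

theorem D_const (f : ℚ⟦X⟧) : constantCoeff (D f) = 0 := by
  rw [← coeff_zero_eq_constantCoeff, coeff_D]
  simp

theorem bb_const : constantCoeff bb = 0 := by
  rw [bb, map_mul, map_sub, map_pow, map_pow, lin_phi.h0, lin_phim.h0]
  norm_num

theorem D_A : D A = phi * D phim + phim * D phi := by
  rw [A, D_mul]

theorem D_s : D s = 2 * (phi * D phi + phim * D phim) := by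
  rw [s, map_add, D_sq, D_sq]
  ring

theorem D_d : D d = 2 * (phi * D phi - phim * D phim) := by
  rw [d, map_sub, D_sq, D_sq]
  ring

theorem bb_sd : 16 * bb = s * d := by
  rw [bb_eq, s, d]
  ring

theorem B_sd : 4 * B = s ^ 2 + d ^ 2 := by
  rw [s, d]
  linear_combination 2 * B_eq

theorem four_A : 4 * A ^ 2 = s ^ 2 - d ^ 2 := by
  rw [s, d, A]
  ring

theorem e_one : 4 * (A * D s) = 4 * (D A * s) + A * s * d ^ 2 := by
  rw [D_s, D_A]
  unfold A s d
  linear_combination (- (phi ^ 2 - phim ^ 2)) * rel_one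

theorem e_two : 4 * (A * D d) = 4 * (D A * d) + A * s ^ 2 * d := by
  rw [D_d, D_A]
  unfold A s d
  linear_combination (- (phi ^ 2 + phim ^ 2)) * rel_one

theorem A_const' : constantCoeff A = 1 := by
  rw [A, map_mul, lin_phi.h0, lin_phim.h0, one_mul]

theorem A_ne : A ≠ 0 := by
  intro h
  have := A_const'
  rw [h, map_zero] at this
  exact zero_ne_one this

theorem num4 : (4 : ℚ⟦X⟧) ≠ 0 := by
  have := num_ne (n := 4) (by norm_num)
  simpa using this

theorem dA : dup A = dup phi * dup phim := by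
  rw [A, map_mul]

theorem dA_sq : 2 * dup A ^ 2 = s * A := by
  rw [dA, A]
  linear_combination dup phim ^ 2 * hP + s * hM

theorem d_bb : 64 * dup bb = d ^ 2 := by
  have h1 := congrArg dup bb_eq
  simp only [map_mul, map_sub, map_pow, map_ofNat] at h1
  have h2 := hP
  have h3 := hM
  have h4 := four_A
  unfold A at h4
  linear_combination 4 * h1 + (2 * dup phi ^ 2 + s) * h2 - 4 * (dup phim ^ 2 + phi * phim) * h3 - h4

/-- (ii) -/
theorem rel_two : A * D (D A) - 2 * D A ^ 2 + 16 * bb ^ 2 * A ^ 2 = 0 := by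
  have h16 : (C 16 : ℚ⟦X⟧) = 16 := map_ofNat C 16
  set Z := A * D (D A) - 2 * D A ^ 2 + 16 * bb ^ 2 * A ^ 2 with hZ
  have hdZ : dup Z = dup A * dup (D (D A)) - 2 * dup (D A) ^ 2 + 16 * dup bb ^ 2 * dup A ^ 2 := by
    rw [hZ]
    simp only [map_add, map_sub, map_mul, map_pow, map_ofNat]
  have h1 := D_dup A
  have h2 : D (D (dup A)) = 4 * dup (D (D A)) := by
    rw [h1, D_mul, D_two, D_dup]
    ring
  have g1 := congrArg D dA_sq
  rw [D_mul, D_mul, D_two, D_sq] at g1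
  have f1 : 16 * (dup A * D (dup A)) = 8 * D A * s + A * s * d ^ 2 := by
    linear_combination 4 * g1 + e_one
  have g2 := congrArg D f1
  have D16 : D (16 : ℚ⟦X⟧) = 0 := by
    have := Derivation.map_natCast D 16
    simpa using this
  have D8 : D (8 : ℚ⟦X⟧) = 0 := by
    have := Derivation.map_natCast D 8
    simpa using this
  rw [map_add, D_mul, D_mul, D_mul, D_mul, D_mul, D_mul, D16, D8, D_sq, h2] at g2
  have f2 : 64 * A * (D (dup A) ^ 2 + dup A * (4 * dup (D (D A)))) =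
      32 * A * D (D A) * s + 32 * D A ^ 2 * s + 24 * A * D A * s * d ^ 2 + A ^ 2 * s * d ^ 4 +
        2 * A ^ 2 * s ^ 3 * d ^ 2 := by
    linear_combination 4 * A * g2 + (8 * D A + A * d ^ 2) * e_one + 2 * A * s * d * e_two
  have f3 : 256 * (dup A * D (dup A)) ^ 2 = (8 * D A * s + A * s * d ^ 2) ^ 2 := by
    rw [← f1]
    ring
  have key : (C 16 * (C 16 * dup A ^ 2)) * dup Z = (C 16 * s ^ 2) * Z := by
    rw [h16]
    apply mul_left_cancel₀ num4
    apply mul_left_cancel₀ A_ne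
    have h3 := bb_sd
    have h4 := d_bb
    have h5 := dA_sq
    rw [hdZ, hZ]
    set G := dup A
    set G1 := D (dup A) with hG1
    set G2 := dup (D (D A))
    set β := dup bb
    rw [h1] at f2 f3
    set g := dup (D A)
    set a := A
    set a1 := D A
    set a2 := D (D A)
    linear_combination 4 * G ^ 2 * f2 - 3 * a * f3 +
      2 * (32 * a * a2 * s + 32 * a1 ^ 2 * s + 24 * a * a1 * s * d ^ 2 + a ^ 2 * s * d ^ 4 +
        2 * a ^ 2 * s ^ 3 * d ^ 2) * h5 + 4 * a * G ^ 4 * (64 * β + d ^ 2) * h4 +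
      a * d ^ 4 * (2 * G ^ 2 + s * a) * h5 - 4 * a ^ 3 * s ^ 2 * (16 * bb + s * d) * h3
  refine dup_uniq (m := 0) ?_ ?_ ?_ ?_ key
  · simp only [map_mul, map_pow, dup_const, A_const', constantCoeff_C]
    norm_num
  · rw [coeff_zero_eq_constantCoeff]
    simp only [map_mul, map_pow, lin_s.h0, constantCoeff_C]
    norm_num
  · intro i hi
    omega
  · rw [coeff_zero_eq_constantCoeff, hZ]
    simp only [map_add, map_sub, map_mul, map_pow, D_const, bb_const]
    ring

end G2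

open G2

theorem A_const' : constantCoeff A = 1 := G2.A_const'

theorem A_mul_inv' : A * A⁻¹ = 1 :=
  PowerSeries.mul_inv_cancel A (by rw [G2.A_const']; exact one_ne_zero)

theorem w_coeff_zero' : constantCoeff w = 0 := by
  rw [w, map_mul, bb_const, zero_mul]

theorem w_coeff_one' : coeff 1 w = 1 := by
  have h1 : Lin bb 0 1 := by
    refine ⟨bb_const, ?_⟩
    have h2 := congrArg (coeff 1) bb_sd
    have h3 := (lin_s.mul lin_d).h1
    have h4 : (16 : ℚ⟦X⟧) = C 16 := (map_ofNat C 16).symm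
    rw [h3, h4, coeff_C_mul] at h2
    linarith
  have h2 : Lin (A⁻¹ ^ 2) 1 (coeff 1 (A⁻¹ ^ 2)) := by
    refine ⟨?_, rfl⟩
    rw [map_pow, constantCoeff_inv, G2.A_const']
    norm_num
  have h3 := (h1.mul h2).h1
  rw [w, h3]
  norm_num

theorem S_sq' : S ^ 2 = 1 + 64 * w ^ 2 := by
  have h1 := A_mul_inv'
  have h2 := B_sd
  have h3 := bb_sd
  have h4 := four_A
  have h5 : B ^ 2 = A ^ 4 + 64 * bb ^ 2 := by
    apply mul_left_cancel₀ num4
    apply mul_left_cancel₀ num4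
    linear_combination (4 * B + s ^ 2 + d ^ 2) * h2 - 4 * (16 * bb + s * d) * h3 -
      (4 * A ^ 2 + s ^ 2 - d ^ 2) * h4
  have h6 : A ^ 4 * A⁻¹ ^ 4 = 1 := by
    rw [← mul_pow, h1, one_pow]
  unfold S w
  linear_combination A⁻¹ ^ 4 * h5 + h6

theorem D_w' : D w = w * B := by
  have h1 := A_mul_inv'
  have hDi : D A⁻¹ = - (A⁻¹ ^ 2 * D A) := by
    have h2 := congrArg D h1
    rw [D_mul, Derivation.map_one_eq_zero] at h2
    linear_combination A⁻¹ * h2 - D A⁻¹ * h1
  have h16 : D (16 : ℚ⟦X⟧) = 0 := by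
    have := Derivation.map_natCast D 16
    simpa using this
  have h2 : A * D bb = 2 * D A * bb + A * bb * B := by
    have n16 : (16 : ℚ⟦X⟧) ≠ 0 := by
      have := num_ne (n := 16) (by norm_num)
      simpa using this
    apply mul_left_cancel₀ num4
    apply mul_left_cancel₀ n16
    have h3 := congrArg D bb_sd
    rw [D_mul, D_mul, h16] at h3
    have h4 := bb_sd
    have h5 := B_sd
    linear_combination 4 * A * h3 + d * e_one + s * e_two - 8 * D A * h4 -
      4 * A * B * h4 - A * s * d * h5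
  unfold w
  rw [D_mul, D_sq, hDi]
  linear_combination A⁻¹ ^ 3 * h2 - (A⁻¹ ^ 2 * D bb - A⁻¹ ^ 2 * bb * B) * h1

theorem th_apply (f : ℚ⟦X⟧) : th f = S * A⁻¹ ^ 2 * D f := by
  rw [th, Derivation.smul_apply, smul_eq_mul]

theorem th_w' : th w = w * (1 + 64 * w ^ 2) := by
  rw [th_apply, D_w', ← S_sq']
  unfold S
  ring

theorem th_E' : th E = 64 * w ^ 2 * E - 16 * w ^ 2 * (1 + 64 * w ^ 2) * A := by
  have h1 := A_mul_inv'
  have hDi : D A⁻¹ = - (A⁻¹ ^ 2 * D A) := by
    have h2 := congrArg D h1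
    rw [D_mul, Derivation.map_one_eq_zero] at h2
    linear_combination A⁻¹ * h2 - D A⁻¹ * h1
  have hS : S ≠ 0 := by
    intro h0
    have h2 := congrArg constantCoeff S_sq'
    rw [h0] at h2
    simp [w_coeff_zero'] at h2
  have hDS : D S = 64 * w ^ 2 * A ^ 2 := by
    have h2 := congrArg D S_sq'
    have h64 : D (64 : ℚ⟦X⟧) = 0 := by
      have := Derivation.map_natCast D 64
      simpa using this
    rw [map_add, Derivation.map_one_eq_zero, D_mul, h64, D_sq, D_sq, D_w'] at h2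
    have n2 : (2 : ℚ⟦X⟧) ≠ 0 := by
      have := num_ne (n := 2) (by norm_num)
      simpa using this
    apply mul_left_cancel₀ n2
    apply mul_left_cancel₀ hS
    have h3 : B = S * A ^ 2 := by
      unfold S
      linear_combination (- B * (A * A⁻¹ + 1)) * h1
    rw [h3] at h2
    linear_combination h2
  have h4 := rel_two
  have h5 : bb = w * A ^ 2 := by
    unfold w
    linear_combination (- bb * (A * A⁻¹ + 1)) * h1
  rw [← S_sq', th_apply, E, th_apply, D_mul, D_mul, D_sq, hDi, hDS]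
  rw [h5] at h4
  linear_combination S ^ 2 * A⁻¹ ^ 5 * h4 - S ^ 2 * A⁻¹ ^ 4 * D (D A) * h1 -
    16 * w ^ 2 * S ^ 2 * A * (A ^ 4 * A⁻¹ ^ 4 + A ^ 3 * A⁻¹ ^ 3 + A ^ 2 * A⁻¹ ^ 2 + A * A⁻¹ + 1) * h1 +
    64 * S * w ^ 2 * A⁻¹ ^ 2 * D A * (A * A⁻¹ + 1) * h1

end

end Run7.h423
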