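import Pool.Agent.Run7.h423.Defs
import Pool.Agent.H397R2.PP.Defs

/-!
Interface: the statements of all pieces. Every piece imports this file (or `Defs`) and proves the
statement with the same name and a prime, in its own file; at the end this file re-exports them.
-/

set_option autoImplicit false

namespace Run7.h423

noncomputable section

open PowerSeries

/-! ### G1: two theta identities (file Theta.lean) -/

theorem phi_sq_add : phi ^ 2 + phim ^ 2 = 2 * (expand 2 two_ne_zero phi) ^ 2 := sorry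

theorem phi_mul_phim : phi * phim = (expand 2 two_ne_zero phim) ^ 2 := sorry

/-! ### G2: derivatives (file Der.lean), from G1 by the duplication trick -/

theorem A_const : constantCoeff A = 1 := sorry

theorem A_mul_inv : A * A⁻¹ = 1 := sorry

theorem w_coeff_zero : constantCoeff w = 0 := sorry

theorem w_coeff_one : coeff 1 w = 1 := sorry

theorem S_sq : S ^ 2 = 1 + 64 * w ^ 2 := sorry

theorem D_w : D w = w * B := sorry

theorem th_w : th w = w * (1 + 64 * w ^ 2) := sorry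

theorem th_A : th A = E := rfl

theorem th_E : th E = 64 * w ^ 2 * E - 16 * w ^ 2 * (1 + 64 * w ^ 2) * A := sorry

/-! ### G3: the discriminant (file Delta.lean) -/

/-- Ramanujan's `τ(n)`, coefficient of `q ∏ (1 - q^n)^24` -/
def tau (n : ℕ) : ℤ := coeff n Pool.Agent.H397R2.PP.Dz

theorem D_Fs_tau : D (Fs tau) = bb * B * (A ^ 4 + 256 * bb ^ 2) * A ^ 4 := sorry

/-! ### G4: Hecke relations (file Hecke.lean) -/

theorem tau_hecke (p : ℕ) (hp : p.Prime) (n : ℕ) (hn : 1 ≤ n) :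
    tau (p * n) = tau p * tau n - if p ∣ n then (p : ℤ) ^ 11 * tau (n / p) else 0 := sorry

/-! ### G5: integrality (file Integral.lean) -/

theorem isInt_A : IsInt A := sorry

theorem isInt_Ainv : IsInt A⁻¹ := sorry

theorem isInt_w : IsInt w := sorry

theorem isInt_E : IsInt E := sorry

theorem IsInt.mul {f g : ℚ⟦X⟧} (hf : IsInt f) (hg : IsInt g) : IsInt (f * g) := sorry

theorem IsInt.pow {f : ℚ⟦X⟧} (hf : IsInt f) (n : ℕ) : IsInt (f ^ n) := sorry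

/-! ### G6: 2-adic approximation of `F` by polynomials in `w` (file TwoA.lean) -/

theorem two_approx {h : ℕ} {a : ℕ → ℤ} {v : Polynomial ℚ} (hs : Sys h a v) (M : ℕ) :
    ∃ Ψ : ℕ → Polynomial ℚ,
      (∀ j, (Ψ j).coeff 0 = 0) ∧
      (∀ j n, padicNorm 2 ((Ψ j).coeff (n + 1)) ≤ (2 : ℚ) ^ (-(2 * (n : ℤ)))) ∧
      ∀ n ≤ M, coeff n (Fs a) =
        coeff n (∑ j ∈ Finset.range (h + 1), ev (Ψ j) * A ^ (h - j) * E ^ j) := sorry

/-! ### G7: the 2-adic bound for the determinant (file TwoDet.lean) -/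

/-- the matrix of the rows and the selected columns -/
def mat (h W C d : ℕ) (a : ℕ → ℤ) {N : ℕ} (e : Fin N ≃ Fin d × Ty h W C) (t : Fin N → ℕ) :
    Matrix (Fin N) (Fin N) ℚ :=
  Matrix.of fun r j => coeff (t j)
    (row h W d (Fs a) ((e r).1 : ℕ) ((e r).2.1.1 : ℕ) ((e r).2.1.2 : ℕ))

theorem two_det {h : ℕ} {a : ℕ → ℤ} {v : Polynomial ℚ} (hs : Sys h a v) (W C d : ℕ) {N : ℕ}
    (e : Fin N ≃ Fin d × Ty h W C) (t : Fin N → ℕ) (hdet : (mat h W C d a e t).det ≠ 0) :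
    (N : ℝ) ^ 2 / (W + 1) - N * d - (2 * C + 2) * N ≤ padicValRat 2 (mat h W C d a e t).det :=
  sorry

/-! ### G8: majorants (file Maj.lean) -/

theorem Maj.mul {r K K' : ℝ} (hr : 0 ≤ r) {f g : ℚ⟦X⟧} (hf : Maj r K f) (hg : Maj r K' g) :
    Maj r (K * K') (f * g) := sorry

theorem Maj.pow {r K : ℝ} (hr : 0 ≤ r) (hK : 1 ≤ K) {f : ℚ⟦X⟧} (hf : Maj r K f) (n : ℕ) :
    Maj r (K ^ n) (f ^ n) := sorry

theorem maj_phi (m : ℕ) (hm : 1000 ≤ m) :
    ∃ K : ℝ, 1 ≤ K ∧ K ^ 2 ≤ 10 * m ∧ Maj (1 - 1 / m) K phi := sorry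

/-! ### G9: archimedean bound for the rows (file Arch.lean) -/

theorem arch_rows {h : ℕ} {a : ℕ → ℤ} {v : Polynomial ℚ} (hs : Sys h a v) (W C m : ℕ)
    (hm : 1000 ≤ m) :
    ∃ K0 : ℝ, 1 ≤ K0 ∧ ∀ d i b c n : ℕ, i < d → b + h * c ≤ W → c ≤ C →
      |((coeff n (row h W d (Fs a) i b c) : ℚ) : ℝ)| * (1 - 1 / m : ℝ) ^ n ≤
        K0 * (10 * m : ℝ) ^ (2 * d) := sorry

/-! ### G10: Wronskians over `ℚ⟦X⟧[L]`, `D L = 1` (file Wron.lean) -/

theorem no_log {f g : ℚ⟦X⟧} (hg : g ≠ 0) {c : ℚ} (h : D f * g - f * D g = C c * g ^ 2) :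
    c = 0 := sorry

theorem wronL {r : ℕ} (f : Fin r → Polynomial ℚ⟦X⟧)
    (h : (Matrix.of fun b l : Fin r => (thL^[(l : ℕ)]) (f b)).det = 0) :
    ∃ c : Fin r → ℚ, c ≠ 0 ∧ ∑ b, c b • f b = 0 := sorry

/-! ### G12: `F` satisfies no equation of degree `≤ C` (file TOne.lean) -/

theorem t_one {h : ℕ} {a : ℕ → ℤ} {v : Polynomial ℚ} (hs : Sys h a v) {p : ℕ} (hp : p.Prime)
    (hp2 : p ≠ 2) (hord : ¬ (p : ℤ) ∣ a p) {C : ℕ} (hC : C < p) (g : ℕ → ℚ⟦X⟧)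
    (hg : ∀ c, ∃ k : ℕ, ∀ n, padicNorm p (coeff n (g c)) ≤ (p : ℚ) ^ k)
    (h0 : ∑ c ∈ Finset.range (C + 1), g c * Fs a ^ c = 0) : ∀ c ≤ C, g c = 0 := sorry

/-! ### G13: `E / A` is transcendental over `ℚ(w)` (file TTwo.lean) -/

theorem t_two (n : ℕ) (p : ℕ → Polynomial ℚ)
    (h0 : ∑ b ∈ Finset.range (n + 1), ev (p b) * A ^ (n - b) * E ^ b = 0) :
    ∀ b ≤ n, p b = 0 := sorry

/-! ### G11: zero estimate (file Zero.lean), from G2, G10, G12, G13 -/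

theorem zero_est {h : ℕ} {a : ℕ → ℤ} {v : Polynomial ℚ} (hs : Sys h a v) {p : ℕ} (hp : p.Prime)
    (hp2 : p ≠ 2) (hord : ¬ (p : ℤ) ∣ a p) {W C : ℕ} (hC : C < p) (hW : h * C ≤ W) (d : ℕ)
    (P : Ty h W C → Polynomial ℚ) (hdeg : ∀ κ, (P κ).natDegree < d) (hne : P ≠ 0) :
    ∃ n ≤ Fintype.card (Ty h W C) * (d + h * Fintype.card (Ty h W C)),
      coeff n (∑ κ, ev (P κ) * mon h W (Fs a) (κ.1.1 : ℕ) (κ.1.2 : ℕ)) ≠ 0 := sorry

/-! ### G14: odd primes (file OddP.lean) -/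

theorem odd_rows {h : ℕ} {a : ℕ → ℤ} (W C d i b c : ℕ) (hc : c ≤ C) (p : ℕ) (hp : p.Prime)
    (n M : ℕ) (hn : n ≤ M) :
    padicNorm p (coeff n (row h W d (Fs a) i b c)) ≤ (p : ℚ) ^ (C * Nat.log p M) := sorry

theorem odd_rows_int {h : ℕ} {a : ℕ → ℤ} {v : Polynomial ℚ} (hs : Sys h a v) (W d i b c : ℕ)
    (p : ℕ) (hp : p.Prime) (hpa : (p : ℤ) ∣ a p) (n : ℕ) :
    padicNorm p (coeff n (row h W d (Fs a) i b c)) ≤ 1 := sorry

/-! ### G16: assembly (file Main.lean, helper423) -/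

theorem main {h : ℕ} {a : ℕ → ℤ} {v : Polynomial ℚ} (hs : Sys h a v) {p : ℕ} (hp : p.Prime)
    (hp2 : p ≠ 2) (hord : ¬ (p : ℤ) ∣ a p) {W C : ℕ} (hC : C < p) (hW : h * C ≤ W)
    (hm : 1000 ≤ Fintype.card (Ty h W C))
    (hnum : 2 * Real.log (10 * Fintype.card (Ty h W C)) + 2 ≤
      ((Fintype.card (Ty h W C) : ℝ) / (W + 1) - 1) * Real.log 2) :
    ∃ c : ℝ, 0 < c ∧ ∀ᶠ x : ℕ in Filter.atTop,
      c * (x / Real.log x) ≤
        ((Finset.range (x + 1)).filter fun p : ℕ => p.Prime ∧ ¬ (p : ℤ) ∣ a p).card := sorry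

/-! ### G17: numbers (file Num.lean) -/

theorem tau_sixtyone : ¬ ((61 : ℕ) : ℤ) ∣ tau 61 := sorry

theorem tau_eq_prod (n : ℕ) : tau n =
    (Polynomial.X * ∏ k ∈ Finset.range n, (1 - Polynomial.X ^ (k + 1)) ^ 24 :
      Polynomial ℤ).coeff n := sorry

theorem card_Ty (h W C : ℕ) (hW : h * C ≤ W) :
    (Fintype.card (Ty h W C) : ℤ) = (C + 1) * (W + 1) - h * (C * (C + 1) / 2 : ℕ) := sorry

end

end Run7.h423
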