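import Pool.Agent.H397R2.PP.B0
import Pool.Agent.H397R2.PP.B1
import Pool.Agent.H397R2.PP.B2
import Pool.Agent.H397R2.PP.B3
import Pool.Agent.Run7.h423.Iface

/-! Hecke relations of `tau` (piece G4). -/

set_option autoImplicit false

namespace Run7.h423

noncomputable section

open PowerSeries Pool.Agent.H397R2.PP

/-- a form of weight zero is constant -/
theorem isMF_zero {P : ℤ⟦X⟧} (h : IsMF 0 P) : P = C (coeff 0 P) := by
  obtain ⟨f, hf⟩ := h
  let f0 : ModularForm (MonoidHom.range (Matrix.SpecialLinearGroup.mapGL ℝ (R := ℤ) (n := Fin 2))) 0 :=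
    ModularForm.mcast (by norm_num) f
  have hf0 : UpperHalfPlane.qExpansion 1 f0 = P.map (Int.castRingHom ℂ) := by
    rw [← hf]; rfl
  obtain ⟨c, hc⟩ := ModularFormClass.levelOne_weight_zero_const f0
  have hq : UpperHalfPlane.qExpansion 1 f0 = PowerSeries.C c := by
    have h1 : (f0 : UpperHalfPlane → ℂ) = c • (1 : ModularForm (MonoidHom.range
        (Matrix.SpecialLinearGroup.mapGL ℝ (R := ℤ) (n := Fin 2))) 0) := by
      rw [hc]; ext z; simp
    rw [h1, ModularForm.qExpansion_smul one_pos one_mem_strictPeriods_SL,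
      ModularForm.qExpansion_one, PowerSeries.smul_eq_C_mul, mul_one]
  ext n
  rcases Nat.eq_zero_or_pos n with rfl | hn
  · simp
  · have h1 := congrArg (PowerSeries.coeff n) (hf0.symm.trans hq)
    rw [PowerSeries.coeff_map, PowerSeries.coeff_C, if_neg hn.ne'] at h1
    rw [PowerSeries.coeff_C, if_neg hn.ne']
    simpa using h1

theorem tau_zero' : tau 0 = 0 := by
  unfold tau Dz
  rw [PowerSeries.coeff_zero_eq_constantCoeff_apply, map_mul, PowerSeries.constantCoeff_X, zero_mul]

theorem tau_one' : tau 1 = 1 := by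
  unfold tau Dz
  rw [show (1 : ℕ) = 0 + 1 from rfl, PowerSeries.coeff_succ_X_mul,
    PowerSeries.coeff_zero_eq_constantCoeff_apply, B1.pent_const]

theorem tau_hecke' (p : ℕ) (hp : p.Prime) (n : ℕ) (hn : 1 ≤ n) :
    tau (p * n) = tau p * tau n - if p ∣ n then (p : ℤ) ^ 11 * tau (n / p) else 0 := by
  have h1 : IsMF 1 Dz := by
    have := isMF_pow qExpansion_discriminant 1
    rwa [pow_one] at this
  have h2 := IsMF.hecke 1 le_rfl Dz h1 p hp
  obtain ⟨Q, hQ, hPQ⟩ := B1.step qExpansion_discriminant 0 _ h2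
  have h3 : coeff 0 (TpZ (12 * 1) p Dz) = 0 := by
    unfold TpZ
    rw [PowerSeries.coeff_mk]
    have h4 := tau_zero'
    unfold tau at h4
    simp [h4]
  rw [h3, map_zero, zero_mul, zero_add, isMF_zero hQ] at hPQ
  have key : ∀ m : ℕ, tau (p * m) + (if p ∣ m then (p : ℤ) ^ 11 * tau (m / p) else 0) =
      tau m * coeff 0 Q := by
    intro m
    have h5 := congrArg (PowerSeries.coeff m) hPQ
    rw [PowerSeries.coeff_mul_C] at h5
    unfold TpZ at h5
    rw [PowerSeries.coeff_mk] at h5
    exact h5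
  have h6 := key 1
  rw [mul_one, tau_one', one_mul, if_neg (by
    rw [Nat.dvd_one]; exact hp.one_lt.ne'), add_zero] at h6
  have h7 := key n
  rw [← h6] at h7
  rw [mul_comm (tau p) (tau n), ← h7]
  ring

end

end Run7.h423
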