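import Pool.Agent.Run7.h423.Defs

/-! Integrality of `A, A⁻¹, w, E` (piece G5). -/

set_option autoImplicit false

namespace Run7.h423

noncomputable section

open PowerSeries

theorem isInt_iff {f : ℚ⟦X⟧} : IsInt f ↔ ∃ g : ℤ⟦X⟧, f = g.map (Int.castRingHom ℚ) := by
  constructor
  · intro h
    choose z hz using h
    refine ⟨PowerSeries.mk z, ?_⟩
    ext n
    rw [hz n, PowerSeries.coeff_map, PowerSeries.coeff_mk]
    rfl
  · rintro ⟨g, rfl⟩ n
    exact ⟨coeff n g, by rw [PowerSeries.coeff_map]; rfl⟩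

theorem IsInt.mul' {f g : ℚ⟦X⟧} (hf : IsInt f) (hg : IsInt g) : IsInt (f * g) := by
  obtain ⟨f, rfl⟩ := isInt_iff.1 hf
  obtain ⟨g, rfl⟩ := isInt_iff.1 hg
  exact isInt_iff.2 ⟨f * g, by rw [map_mul]⟩

theorem IsInt.add' {f g : ℚ⟦X⟧} (hf : IsInt f) (hg : IsInt g) : IsInt (f + g) := by
  obtain ⟨f, rfl⟩ := isInt_iff.1 hf
  obtain ⟨g, rfl⟩ := isInt_iff.1 hg
  exact isInt_iff.2 ⟨f + g, by rw [map_add]⟩

theorem IsInt.one' : IsInt 1 := isInt_iff.2 ⟨1, by rw [map_one]⟩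

theorem IsInt.natCast' (n : ℕ) : IsInt (n : ℚ⟦X⟧) := isInt_iff.2 ⟨n, by rw [map_natCast]⟩

theorem IsInt.ofNat' (n : ℕ) [n.AtLeastTwo] : IsInt (OfNat.ofNat n : ℚ⟦X⟧) :=
  IsInt.natCast' n

theorem IsInt.pow' {f : ℚ⟦X⟧} (hf : IsInt f) (n : ℕ) : IsInt (f ^ n) := by
  obtain ⟨f, rfl⟩ := isInt_iff.1 hf
  exact isInt_iff.2 ⟨f ^ n, by rw [map_pow]⟩

theorem IsInt.D' {f : ℚ⟦X⟧} (hf : IsInt f) : IsInt (D f) := by
  intro n
  obtain ⟨z, hz⟩ := hf n
  exact ⟨n * z, by rw [coeff_D, hz]; push_cast; ring⟩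

theorem isInt_phi : IsInt phi := by
  intro n
  unfold phi
  rw [PowerSeries.coeff_mk]
  split_ifs
  · exact ⟨1, by norm_num⟩
  · exact ⟨2, by norm_num⟩
  · exact ⟨0, by norm_num⟩

theorem isInt_phim : IsInt phim := by
  intro n
  obtain ⟨z, hz⟩ := isInt_phi n
  unfold phim
  rw [PowerSeries.coeff_mk, hz]
  exact ⟨(-1) ^ n * z, by push_cast; ring⟩

theorem isInt_A' : IsInt A := isInt_phi.mul' isInt_phim

theorem constantCoeff_phi' : constantCoeff phi = 1 := by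
  rw [← PowerSeries.coeff_zero_eq_constantCoeff_apply]
  unfold phi
  rw [PowerSeries.coeff_mk, if_pos rfl]

theorem constantCoeff_phim' : constantCoeff phim = 1 := by
  rw [← PowerSeries.coeff_zero_eq_constantCoeff_apply]
  unfold phim
  rw [PowerSeries.coeff_mk, PowerSeries.coeff_zero_eq_constantCoeff_apply, constantCoeff_phi']
  norm_num

theorem constantCoeff_A' : constantCoeff A = 1 := by
  unfold A
  rw [map_mul, constantCoeff_phi', constantCoeff_phim', mul_one]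

/-- the inverse of an integral series with constant coefficient one is integral -/
theorem IsInt.inv' {f : ℚ⟦X⟧} (hf : IsInt f) (h1 : constantCoeff f = 1) : IsInt f⁻¹ := by
  obtain ⟨g, rfl⟩ := isInt_iff.1 hf
  have hg : constantCoeff g = 1 := by
    have h2 : ((constantCoeff g : ℤ) : ℚ) = 1 := by
      rw [← h1]
      rw [← PowerSeries.coeff_zero_eq_constantCoeff_apply,
        ← PowerSeries.coeff_zero_eq_constantCoeff_apply, PowerSeries.coeff_map]
      rfl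
    exact_mod_cast h2
  have hu : g * PowerSeries.invOfUnit g 1 = 1 := PowerSeries.mul_invOfUnit g 1 (by rw [hg]; rfl)
  have h3 : (g.map (Int.castRingHom ℚ)) * ((PowerSeries.invOfUnit g 1).map (Int.castRingHom ℚ)) = 1 := by
    rw [← map_mul, hu, map_one]
  refine isInt_iff.2 ⟨PowerSeries.invOfUnit g 1, ?_⟩
  have h4 : constantCoeff (g.map (Int.castRingHom ℚ)) ≠ 0 := by rw [h1]; exact one_ne_zero
  rw [PowerSeries.inv_eq_iff_mul_eq_one h4, mul_comm]
  exact h3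

theorem isInt_Ainv' : IsInt A⁻¹ := isInt_A'.inv' constantCoeff_A'

/-- the even part of `phi` -/
def phiE : ℚ⟦X⟧ := PowerSeries.mk fun n => if Even n then coeff n phi else 0

/-- half of the odd part of `phi` -/
def phiO : ℚ⟦X⟧ := PowerSeries.mk fun n => if Even n then 0 else coeff n phi / 2

theorem isInt_phiE : IsInt phiE := by
  intro n
  unfold phiE
  rw [PowerSeries.coeff_mk]
  split_ifs
  · exact isInt_phi n
  · exact ⟨0, by norm_num⟩

theorem isInt_phiO : IsInt phiO := by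
  intro n
  unfold phiO phi
  rw [PowerSeries.coeff_mk, PowerSeries.coeff_mk]
  split_ifs with h1 h2 h3
  · exact ⟨0, by norm_num⟩
  · subst h2; exact absurd (by decide : Even 0) h1
  · exact ⟨1, by norm_num⟩
  · exact ⟨0, by norm_num⟩

theorem phi_eq_EO : phi = phiE + 2 * phiO := by
  ext n
  rw [map_add, two_mul, map_add]
  unfold phiE phiO
  rw [PowerSeries.coeff_mk, PowerSeries.coeff_mk]
  split_ifs <;> ring

theorem phim_eq_EO : phim = phiE - 2 * phiO := by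
  ext n
  rw [map_sub, two_mul, map_add]
  unfold phiE phiO phim
  rw [PowerSeries.coeff_mk, PowerSeries.coeff_mk, PowerSeries.coeff_mk]
  split_ifs with h
  · rw [h.neg_one_pow]; ring
  · rw [(Nat.not_even_iff_odd.1 h).neg_one_pow]; ring

theorem C_inv_mul_ofNat (a : ℚ) (f : ℚ⟦X⟧) (b : ℚ) (h : a * b = 1) : C a * (C b * f) = f := by
  rw [← mul_assoc, ← map_mul, h, map_one, one_mul]

theorem bb_eq : bb = phiE * phiO * (phiE ^ 2 + 4 * phiO ^ 2) := by
  unfold bb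
  have h : phi ^ 4 - phim ^ 4 = C (16 : ℚ) * (phiE * phiO * (phiE ^ 2 + 4 * phiO ^ 2)) := by
    rw [phi_eq_EO, phim_eq_EO, show (C (16 : ℚ) : ℚ⟦X⟧) = 16 from map_ofNat _ 16]
    ring
  rw [h, C_inv_mul_ofNat _ _ _ (by norm_num)]

theorem B_eq : B = phiE ^ 4 + 24 * (phiE ^ 2 * phiO ^ 2) + 16 * phiO ^ 4 := by
  unfold B
  have h : phi ^ 4 + phim ^ 4 = C (2 : ℚ) * (phiE ^ 4 + 24 * (phiE ^ 2 * phiO ^ 2) + 16 * phiO ^ 4) := by
    rw [phi_eq_EO, phim_eq_EO, show (C (2 : ℚ) : ℚ⟦X⟧) = 2 from map_ofNat _ 2]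
    ring
  rw [h, C_inv_mul_ofNat _ _ _ (by norm_num)]

theorem isInt_bb : IsInt bb := by
  rw [bb_eq]
  exact (isInt_phiE.mul' isInt_phiO).mul' ((isInt_phiE.pow' 2).add'
    ((IsInt.ofNat' 4).mul' (isInt_phiO.pow' 2)))

theorem isInt_B : IsInt B := by
  rw [B_eq]
  exact ((isInt_phiE.pow' 4).add' ((IsInt.ofNat' 24).mul' ((isInt_phiE.pow' 2).mul'
    (isInt_phiO.pow' 2)))).add' ((IsInt.ofNat' 16).mul' (isInt_phiO.pow' 4))

theorem isInt_w' : IsInt w := isInt_bb.mul' (isInt_Ainv'.pow' 2)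

theorem isInt_S : IsInt S := isInt_B.mul' (isInt_Ainv'.pow' 2)

theorem E_eq : E = (S * A⁻¹ ^ 2) * D A := by
  show ((S * A⁻¹ ^ 2) • D) A = _
  rw [Derivation.smul_apply, smul_eq_mul]

theorem isInt_E' : IsInt E := by
  rw [E_eq]
  exact (isInt_S.mul' (isInt_Ainv'.pow' 2)).mul' isInt_A'.D'

end

end Run7.h423
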