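import Pool.Agent.Run7.h423.Defs

/-! G8: majorants. -/

set_option autoImplicit false

namespace Run7.h423

noncomputable section

open PowerSeries Finset

theorem Maj.mono {r K K' : ℝ} (h : K ≤ K') {f : ℚ⟦X⟧} (hf : Maj r K f) : Maj r K' f :=
  fun N => (hf N).trans h

theorem Maj.nonneg {r K : ℝ} {f : ℚ⟦X⟧} (hf : Maj r K f) : 0 ≤ K := by
  have := hf 0
  simpa using this

theorem Maj.coeff_le {r K : ℝ} (hr : 0 ≤ r) {f : ℚ⟦X⟧} (hf : Maj r K f) (n : ℕ) :
    |((coeff n f : ℚ) : ℝ)| * r ^ n ≤ K := by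
  refine le_trans ?_ (hf (n + 1))
  exact Finset.single_le_sum (f := fun n => |((coeff n f : ℚ) : ℝ)| * r ^ n)
    (fun i _ => mul_nonneg (abs_nonneg _) (pow_nonneg hr _)) (Finset.self_mem_range_succ n)

theorem Maj.one {r : ℝ} : Maj r 1 (1 : ℚ⟦X⟧) := by
  intro N
  cases N with
  | zero => simp
  | succ N =>
    rw [Finset.sum_range_succ']
    have : ∀ n ∈ Finset.range N, |((coeff (n + 1) (1 : ℚ⟦X⟧) : ℚ) : ℝ)| * r ^ (n + 1) = 0 := by
      intro n _
      rw [PowerSeries.coeff_one, if_neg (Nat.succ_ne_zero n)]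
      simp
    rw [Finset.sum_eq_zero this]
    simp

theorem Maj.mul' {r K K' : ℝ} (hr : 0 ≤ r) {f g : ℚ⟦X⟧} (hf : Maj r K f) (hg : Maj r K' g) :
    Maj r (K * K') (f * g) := by
  intro N
  have h1 : ∀ n ∈ Finset.range N, |((coeff n (f * g) : ℚ) : ℝ)| * r ^ n ≤
      ∑ p ∈ antidiagonal n,
        (|((coeff p.1 f : ℚ) : ℝ)| * r ^ p.1) * (|((coeff p.2 g : ℚ) : ℝ)| * r ^ p.2) := by
    intro n _
    rw [PowerSeries.coeff_mul]
    push_cast
    calc |∑ p ∈ antidiagonal n, ((coeff p.1 f : ℚ) : ℝ) * ((coeff p.2 g : ℚ) : ℝ)| * r ^ n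
        ≤ (∑ p ∈ antidiagonal n, |((coeff p.1 f : ℚ) : ℝ) * ((coeff p.2 g : ℚ) : ℝ)|) * r ^ n :=
          mul_le_mul_of_nonneg_right (Finset.abs_sum_le_sum_abs _ _) (pow_nonneg hr _)
      _ = _ := by
          rw [Finset.sum_mul]
          refine Finset.sum_congr rfl fun p hp => ?_
          rw [Finset.HasAntidiagonal.mem_antidiagonal] at hp
          rw [abs_mul, ← hp, pow_add]
          ring
  refine (Finset.sum_le_sum h1).trans ?_
  rw [Finset.sum_sigma']
  have h2 : ∑ x ∈ (Finset.range N).sigma fun n => antidiagonal n,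
        (|((coeff x.2.1 f : ℚ) : ℝ)| * r ^ x.2.1) * (|((coeff x.2.2 g : ℚ) : ℝ)| * r ^ x.2.2) =
      ∑ p ∈ (Finset.range N ×ˢ Finset.range N).filter (fun p => p.1 + p.2 < N),
        (|((coeff p.1 f : ℚ) : ℝ)| * r ^ p.1) * (|((coeff p.2 g : ℚ) : ℝ)| * r ^ p.2) := by
    refine Finset.sum_nbij' (fun x => x.2) (fun p => ⟨p.1 + p.2, p⟩) ?_ ?_ ?_ ?_ ?_
    · rintro ⟨n, p⟩ hx
      obtain ⟨hn, hp⟩ := Finset.mem_sigma.mp hx
      have hp' : p.1 + p.2 = n := Finset.HasAntidiagonal.mem_antidiagonal.mp hp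
      have hn' : n < N := Finset.mem_range.mp hn
      simp only [Finset.mem_filter, Finset.mem_product, Finset.mem_range]
      omega
    · rintro p hp
      simp only [Finset.mem_filter, Finset.mem_product, Finset.mem_range] at hp
      exact Finset.mem_sigma.mpr ⟨Finset.mem_range.mpr hp.2, Finset.HasAntidiagonal.mem_antidiagonal.mpr rfl⟩
    · rintro ⟨n, p⟩ hx
      obtain ⟨hn, hp⟩ := Finset.mem_sigma.mp hx
      have hp' : p.1 + p.2 = n := Finset.HasAntidiagonal.mem_antidiagonal.mp hp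
      subst hp'
      rfl
    · intro p _
      rfl
    · rintro ⟨n, p⟩ _
      rfl
  rw [h2]
  refine (Finset.sum_le_sum_of_subset_of_nonneg (Finset.filter_subset _ _) ?_).trans ?_
  · intro p _ _
    exact mul_nonneg (mul_nonneg (abs_nonneg _) (pow_nonneg hr _))
      (mul_nonneg (abs_nonneg _) (pow_nonneg hr _))
  rw [Finset.sum_product]
  show ∑ x ∈ range N, ∑ y ∈ range N, (|((coeff x f : ℚ) : ℝ)| * r ^ x) *
    (|((coeff y g : ℚ) : ℝ)| * r ^ y) ≤ K * K'
  rw [← Finset.sum_mul_sum]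
  exact mul_le_mul (hf N) (hg N)
    (Finset.sum_nonneg fun i _ => mul_nonneg (abs_nonneg _) (pow_nonneg hr _)) hf.nonneg

theorem Maj.pow' {r K : ℝ} (hr : 0 ≤ r) (_hK : 1 ≤ K) {f : ℚ⟦X⟧} (hf : Maj r K f) (n : ℕ) :
    Maj r (K ^ n) (f ^ n) := by
  induction n with
  | zero => simpa using (Maj.one (r := r))
  | succ n ih =>
    rw [pow_succ, pow_succ]
    exact Maj.mul' hr ih hf

theorem Maj.add {r K K' : ℝ} (hr : 0 ≤ r) {f g : ℚ⟦X⟧} (hf : Maj r K f) (hg : Maj r K' g) :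
    Maj r (K + K') (f + g) := by
  intro N
  refine le_trans ?_ (add_le_add (hf N) (hg N))
  rw [← Finset.sum_add_distrib]
  refine Finset.sum_le_sum fun n _ => ?_
  rw [← add_mul, map_add]
  push_cast
  exact mul_le_mul_of_nonneg_right (abs_add_le _ _) (pow_nonneg hr _)

theorem Maj.neg {r K : ℝ} {f : ℚ⟦X⟧} (hf : Maj r K f) : Maj r K (-f) := by
  intro N
  have := hf N
  simpa [map_neg] using this

theorem Maj.sub {r K K' : ℝ} (hr : 0 ≤ r) {f g : ℚ⟦X⟧} (hf : Maj r K f) (hg : Maj r K' g) :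
    Maj r (K + K') (f - g) := by
  rw [sub_eq_add_neg]
  exact Maj.add hr hf hg.neg

theorem Maj.const_mul {r K : ℝ} {f : ℚ⟦X⟧} (hf : Maj r K f) (c : ℚ) :
    Maj r (|(c : ℝ)| * K) (C c * f) := by
  intro N
  have h : ∑ n ∈ Finset.range N, |((coeff n (C c * f) : ℚ) : ℝ)| * r ^ n =
      |(c : ℝ)| * ∑ n ∈ Finset.range N, |((coeff n f : ℚ) : ℝ)| * r ^ n := by
    rw [Finset.mul_sum]
    refine Finset.sum_congr rfl fun n _ => ?_
    rw [PowerSeries.coeff_C_mul]
    push_cast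
    rw [abs_mul]
    ring
  rw [h]
  exact mul_le_mul_of_nonneg_left (hf N) (abs_nonneg _)

/-- finite sums of `exp (-(k+1)^2/m)` -/
theorem sum_sq_le (m : ℕ) (hm : 1 ≤ m) (N : ℕ) :
    ∑ k ∈ Finset.range N, (1 - 1 / (m : ℝ)) ^ ((k + 1) ^ 2) ≤ Real.exp 1 * Real.sqrt m / 2 := by
  have hm0 : (0 : ℝ) < m := by exact_mod_cast hm
  set s : ℝ := Real.sqrt m with hs
  have hs0 : 0 < s := Real.sqrt_pos.mpr hm0
  have hss : s * s = m := Real.mul_self_sqrt hm0.le
  set t : ℝ := 1 / s with ht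
  have ht0 : 0 < t := by positivity
  have htt : t ^ 2 = 1 / (m : ℝ) := by
    rw [ht, div_pow, one_pow, ← hss, sq]
  have hm1 : (1 : ℝ) / m ≤ 1 := by
    rw [div_le_one hm0]
    exact_mod_cast hm
  have h1 : ∀ k : ℕ, (1 - 1 / (m : ℝ)) ^ ((k + 1) ^ 2) ≤
      Real.exp 1 * (Real.exp (-(2 * t))) ^ (k + 1) := by
    intro k
    have h2 : 1 - 1 / (m : ℝ) ≤ Real.exp (-(1 / (m : ℝ))) := by
      have := Real.add_one_le_exp (-(1 / (m : ℝ)))
      linarith
    calc (1 - 1 / (m : ℝ)) ^ ((k + 1) ^ 2) ≤ (Real.exp (-(1 / (m : ℝ)))) ^ ((k + 1) ^ 2) :=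
          pow_le_pow_left₀ (by linarith) h2 _
      _ = Real.exp (-(((k : ℝ) + 1) ^ 2 * t ^ 2)) := by
          rw [← Real.exp_nat_mul, htt]
          congr 1
          push_cast
          ring
      _ ≤ Real.exp (1 + ((k + 1 : ℕ) : ℝ) * (-(2 * t))) := by
          apply Real.exp_le_exp.mpr
          push_cast
          nlinarith [sq_nonneg (((k : ℝ) + 1) * t - 1)]
      _ = Real.exp 1 * (Real.exp (-(2 * t))) ^ (k + 1) := by
          rw [Real.exp_add, ← Real.exp_nat_mul]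
  set x : ℝ := Real.exp (-(2 * t)) with hx
  have hx0 : 0 < x := Real.exp_pos _
  have hx1 : x < 1 := by
    rw [hx, Real.exp_lt_one_iff]
    linarith
  have h3 : ∑ k ∈ Finset.range N, x ^ (k + 1) ≤ s / 2 := by
    have h4 : ∑ k ∈ Finset.range N, x ^ (k + 1) = x * ∑ k ∈ Finset.range N, x ^ k := by
      rw [Finset.mul_sum]
      exact Finset.sum_congr rfl fun k _ => by rw [pow_succ]; ring
    have h5 : (∑ k ∈ Finset.range N, x ^ k) * (1 - x) = 1 - x ^ N := by
      have := geom_sum_mul x N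
      linarith
    have h6 : x * (1 + 2 * t) ≤ 1 := by
      have h7 := Real.add_one_le_exp (2 * t)
      have h8 : x * Real.exp (2 * t) = 1 := by
        rw [hx, ← Real.exp_add]
        simp
      nlinarith
    have h9 : 0 ≤ ∑ k ∈ Finset.range N, x ^ k := Finset.sum_nonneg fun _ _ => by positivity
    have h10 : (2 * t) * (x * ∑ k ∈ Finset.range N, x ^ k) ≤ 1 := by
      have h11 : x * (2 * t) ≤ 1 - x := by linarith
      calc (2 * t) * (x * ∑ k ∈ Finset.range N, x ^ k)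
          = (x * (2 * t)) * ∑ k ∈ Finset.range N, x ^ k := by ring
        _ ≤ (1 - x) * ∑ k ∈ Finset.range N, x ^ k := mul_le_mul_of_nonneg_right h11 h9
        _ = 1 - x ^ N := by rw [mul_comm, h5]
        _ ≤ 1 := by have := pow_pos hx0 N; linarith
    rw [h4]
    have h12 : t * s = 1 := by rw [ht]; field_simp
    calc x * ∑ k ∈ Finset.range N, x ^ k = (s / 2) * ((2 * t) * (x * ∑ k ∈ Finset.range N, x ^ k)) := by
          linear_combination (-(x * ∑ k ∈ Finset.range N, x ^ k)) * h12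
      _ ≤ (s / 2) * 1 := mul_le_mul_of_nonneg_left h10 (by positivity)
      _ = s / 2 := by ring
  calc ∑ k ∈ Finset.range N, (1 - 1 / (m : ℝ)) ^ ((k + 1) ^ 2)
      ≤ ∑ k ∈ Finset.range N, Real.exp 1 * x ^ (k + 1) := Finset.sum_le_sum fun k _ => h1 k
    _ = Real.exp 1 * ∑ k ∈ Finset.range N, x ^ (k + 1) := by rw [Finset.mul_sum]
    _ ≤ Real.exp 1 * (s / 2) := mul_le_mul_of_nonneg_left h3 (Real.exp_pos 1).le
    _ = Real.exp 1 * s / 2 := by ring

theorem maj_phi_aux (r T : ℝ) (hr : 0 ≤ r)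
    (hT : ∀ N : ℕ, ∑ k ∈ Finset.range N, r ^ ((k + 1) ^ 2) ≤ T) : Maj r (1 + 2 * T) phi := by
  have hT0 : 0 ≤ T := by simpa using hT 0
  intro N
  have h1 : ∑ n ∈ Finset.range N, |((coeff n phi : ℚ) : ℝ)| * r ^ n ≤
      ∑ n ∈ Finset.range N, ((if n = 0 then 1 else 0) +
        (if IsSquare n ∧ n ≠ 0 then 2 * r ^ n else 0)) := by
    refine Finset.sum_le_sum fun n _ => ?_
    rw [phi, PowerSeries.coeff_mk]
    by_cases h0 : n = 0
    · simp [h0]
    · by_cases hs : IsSquare n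
      · simp [h0, hs]
      · simp [h0, hs]
  refine h1.trans ?_
  rw [Finset.sum_add_distrib]
  have h2 : ∑ n ∈ Finset.range N, (if n = 0 then (1 : ℝ) else 0) ≤ 1 := by
    rw [Finset.sum_ite_eq']
    split_ifs <;> norm_num
  have h3 : ∑ n ∈ Finset.range N, (if IsSquare n ∧ n ≠ 0 then 2 * r ^ n else 0) ≤ 2 * T := by
    rw [← Finset.sum_filter]
    have h4 : (Finset.range N).filter (fun n => IsSquare n ∧ n ≠ 0) ⊆
        (Finset.range N).image fun k => (k + 1) ^ 2 := by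
      intro n hn
      rw [Finset.mem_filter, Finset.mem_range] at hn
      obtain ⟨hnN, ⟨k, hk⟩, hn0⟩ := hn
      rw [Finset.mem_image]
      have hk0 : k ≠ 0 := by
        rintro rfl
        exact hn0 (by simpa using hk)
      obtain ⟨j, rfl⟩ := Nat.exists_eq_succ_of_ne_zero hk0
      refine ⟨j, ?_, ?_⟩
      · rw [Finset.mem_range]
        have : j + 1 ≤ n := by rw [hk]; exact Nat.le_mul_self _
        omega
      · rw [hk, Nat.succ_eq_add_one]; ring
    calc ∑ n ∈ (Finset.range N).filter (fun n => IsSquare n ∧ n ≠ 0), 2 * r ^ n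
        ≤ ∑ n ∈ (Finset.range N).image (fun k => (k + 1) ^ 2), 2 * r ^ n :=
          Finset.sum_le_sum_of_subset_of_nonneg h4 fun n _ _ => by positivity
      _ = ∑ k ∈ Finset.range N, 2 * r ^ ((k + 1) ^ 2) := by
          rw [Finset.sum_image]
          intro a _ b _ hab
          simp only at hab
          have := Nat.pow_left_injective (n := 2) two_ne_zero hab
          omega
      _ = 2 * ∑ k ∈ Finset.range N, r ^ ((k + 1) ^ 2) := by rw [Finset.mul_sum]
      _ ≤ 2 * T := by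
          have := hT N
          linarith
  linarith

theorem maj_phi' (m : ℕ) (hm : 1000 ≤ m) :
    ∃ K : ℝ, 1 ≤ K ∧ K ^ 2 ≤ 10 * m ∧ Maj (1 - 1 / m) K phi := by
  have hm0 : (0 : ℝ) < m := by
    have : 0 < m := by omega
    exact_mod_cast this
  have hm1 : (1000 : ℝ) ≤ m := by exact_mod_cast hm
  have hr : (0 : ℝ) ≤ 1 - 1 / m := by
    have : (1 : ℝ) / m ≤ 1 := by
      rw [div_le_one hm0]
      linarith
    linarith
  set s : ℝ := Real.sqrt m with hs
  have hss : s * s = m := Real.mul_self_sqrt hm0.le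
  have hs31 : 31 ≤ s := by
    rw [hs]
    apply Real.le_sqrt_of_sq_le
    norm_num
    linarith
  have he : Real.exp 1 < 2.72 := lt_trans Real.exp_one_lt_d9 (by norm_num)
  have he0 : 0 < Real.exp 1 := Real.exp_pos 1
  refine ⟨1 + 2 * (Real.exp 1 * s / 2), ?_, ?_, ?_⟩
  · have : 0 ≤ Real.exp 1 * s := by positivity
    linarith
  · have h1 : 1 + 2 * (Real.exp 1 * s / 2) ≤ 3 * s := by nlinarith
    have h2 : 0 ≤ 1 + 2 * (Real.exp 1 * s / 2) := by positivity
    calc (1 + 2 * (Real.exp 1 * s / 2)) ^ 2 ≤ (3 * s) ^ 2 := pow_le_pow_left₀ h2 h1 2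
      _ = 9 * m := by rw [mul_pow, sq s, hss]; norm_num
      _ ≤ 10 * m := by linarith
  · exact maj_phi_aux _ _ hr fun N => sum_sq_le m (by omega) N

end

end Run7.h423
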