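import Pool.Agent.Run7.h423.Iface

/-! Numbers (piece G17). -/

set_option autoImplicit false

namespace Run7.h423

noncomputable section

open PowerSeries

/-! ### the number of types -/

theorem card_Ty' (h W C : ℕ) (hW : h * C ≤ W) :
    (Fintype.card (Ty h W C) : ℤ) = (C + 1) * (W + 1) - h * (C * (C + 1) / 2 : ℕ) := by
  have h1 : Fintype.card (Ty h W C) = ∑ c ∈ Finset.range (C + 1), (W + 1 - h * c) := by
    rw [Fintype.card_subtype, Finset.card_filter, Fintype.sum_prod_type_right,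
      Finset.sum_range (fun c => W + 1 - h * c)]
    refine Finset.sum_congr rfl fun c _ => ?_
    rw [← Finset.card_filter]
    have h2 : h * (c : ℕ) ≤ W := (Nat.mul_le_mul_left h (by have := c.2; omega)).trans hW
    have h3 : (Finset.univ.filter fun b : Fin (W + 1) => (b : ℕ) + h * (c : ℕ) ≤ W) =
        Finset.univ.filter fun b : Fin (W + 1) => (b : ℕ) < W + 1 - h * (c : ℕ) := by
      ext b
      simp only [Finset.mem_filter, Finset.mem_univ, true_and]
      omega
    show (Finset.univ.filter fun b : Fin (W + 1) => (b : ℕ) + h * (c : ℕ) ≤ W).card = _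
    rw [h3, Fin.card_filter_val_lt]
    omega
  have h4 : ∀ c ∈ Finset.range (C + 1), ((W + 1 - h * c : ℕ) : ℤ) = (W + 1 : ℤ) - h * c := by
    intro c hc
    have h2 : h * (c : ℕ) ≤ W :=
      (Nat.mul_le_mul_left h (by have := Finset.mem_range.1 hc; omega)).trans hW
    push_cast [Nat.cast_sub (show h * c ≤ W + 1 by omega)]
    ring
  rw [h1, Nat.cast_sum, Finset.sum_congr rfl h4, Finset.sum_sub_distrib, Finset.sum_const,
    Finset.card_range, ← Finset.mul_sum]
  have h5 : (∑ c ∈ Finset.range (C + 1), (c : ℤ)) = ((C * (C + 1) / 2 : ℕ) : ℤ) := by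
    rw [← Nat.cast_sum, Finset.sum_range_id]
    congr 2
    rw [Nat.add_sub_cancel, mul_comm]
  rw [h5]
  simp

/-! ### the product -/

/-- congruence modulo `X ^ M` -/
def Cg (M : ℕ) (f g : ℤ⟦X⟧) : Prop := (X : ℤ⟦X⟧) ^ M ∣ f - g

theorem Cg.refl (M : ℕ) (f : ℤ⟦X⟧) : Cg M f f := by
  unfold Cg; rw [sub_self]; exact dvd_zero _

theorem Cg.trans {M : ℕ} {f g h : ℤ⟦X⟧} (h1 : Cg M f g) (h2 : Cg M g h) : Cg M f h := by
  unfold Cg at *
  rw [← sub_add_sub_cancel f g h]
  exact dvd_add h1 h2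

theorem Cg.symm {M : ℕ} {f g : ℤ⟦X⟧} (h1 : Cg M f g) : Cg M g f := by
  unfold Cg at *
  rw [← neg_sub, dvd_neg]
  exact h1

theorem Cg.mul {M : ℕ} {f g f' g' : ℤ⟦X⟧} (h1 : Cg M f g) (h2 : Cg M f' g') :
    Cg M (f * f') (g * g') := by
  unfold Cg at *
  have h3 : f * f' - g * g' = (f - g) * f' + g * (f' - g') := by ring
  rw [h3]
  exact dvd_add (dvd_mul_of_dvd_left h1 _) (dvd_mul_of_dvd_right h2 _)

theorem Cg.pow {M : ℕ} {f g : ℤ⟦X⟧} (h1 : Cg M f g) (n : ℕ) : Cg M (f ^ n) (g ^ n) := by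
  induction n with
  | zero => rw [pow_zero, pow_zero]; exact Cg.refl M 1
  | succ n ih => rw [pow_succ, pow_succ]; exact ih.mul h1

theorem Cg.coeff {M : ℕ} {f g : ℤ⟦X⟧} (h1 : Cg M f g) {n : ℕ} (hn : n < M) :
    PowerSeries.coeff n f = PowerSeries.coeff n g := by
  unfold Cg at h1
  rw [PowerSeries.X_pow_dvd_iff] at h1
  have := h1 n hn
  rw [map_sub] at this
  exact sub_eq_zero.1 this

theorem Cg.of_coeff {M : ℕ} {f g : ℤ⟦X⟧}
    (h : ∀ n < M, PowerSeries.coeff n f = PowerSeries.coeff n g) : Cg M f g := by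
  unfold Cg
  rw [PowerSeries.X_pow_dvd_iff]
  intro n hn
  rw [map_sub, h n hn, sub_self]

theorem prod_Cg (n m : ℕ) : Cg (n + 1) (∏ k ∈ Finset.range (n + m), (1 - X ^ (k + 1) : ℤ⟦X⟧))
    (∏ k ∈ Finset.range n, (1 - X ^ (k + 1) : ℤ⟦X⟧)) := by
  induction m with
  | zero => exact Cg.refl _ _
  | succ m ih =>
    refine Cg.trans ?_ ih
    rw [← add_assoc, Finset.prod_range_succ]
    unfold Cg
    have h3 : ∀ P : ℤ⟦X⟧, P * (1 - X ^ (n + m + 1)) - P = X ^ (n + 1) * (- X ^ m * P) := by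
      intro P; ring
    rw [h3]
    exact dvd_mul_right _ _

theorem pent_Cg (n : ℕ) : Cg (n + 1) (pentagonalSeries ℤ)
    (∏ k ∈ Finset.range n, (1 - X ^ (k + 1) : ℤ⟦X⟧)) := by
  refine Cg.of_coeff fun i hi => ?_
  have h1 := coeff_prod_one_sub_X_pow_eventually_eq ℤ i
  have h2 := Filter.tendsto_finset_range.eventually h1
  obtain ⟨N, hN⟩ := Filter.eventually_atTop.1 h2
  have h3 := hN (n + N) (by omega)
  rw [← h3]
  exact (prod_Cg n N).coeff hi

theorem tau_eq_prod' (n : ℕ) : tau n =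
    (Polynomial.X * ∏ k ∈ Finset.range n, (1 - Polynomial.X ^ (k + 1)) ^ 24 :
      Polynomial ℤ).coeff n := by
  rw [← Polynomial.coeff_coe, Polynomial.coe_mul, Polynomial.coe_X, Finset.prod_pow,
    Polynomial.coe_pow]
  have h1 : ((∏ k ∈ Finset.range n, (1 - Polynomial.X ^ (k + 1) : Polynomial ℤ) : Polynomial ℤ) :
      ℤ⟦X⟧) = ∏ k ∈ Finset.range n, (1 - X ^ (k + 1) : ℤ⟦X⟧) := by
    rw [← Polynomial.coeToPowerSeries.ringHom_apply, map_prod]
    refine Finset.prod_congr rfl fun k _ => ?_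
    rw [map_sub, map_one, map_pow, Polynomial.coeToPowerSeries.ringHom_apply, Polynomial.coe_X]
  rw [h1]
  unfold tau Pool.Agent.H397R2.PP.Dz
  exact ((Cg.refl (n + 1) X).mul ((pent_Cg n).pow 24)).coeff (Nat.lt_succ_self n)

/-! ### `tau 61` -/

/-- the series with a given list of first coefficients -/
def ofL : List ℤ → ℤ⟦X⟧
  | [] => 0
  | x :: l => PowerSeries.C x + X * ofL l

theorem coeff_ofL (l : List ℤ) (n : ℕ) : coeff n (ofL l) = l.getD n 0 := by
  induction l generalizing n with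
  | nil => simp [ofL]
  | cons x l ih =>
    rcases n with _ | n
    · simp [ofL]
    · rw [ofL, map_add, PowerSeries.coeff_succ_X_mul, ih, PowerSeries.coeff_C, if_neg (by omega),
        zero_add, List.getD_cons_succ]

end

/-- addition of lists -/
def addL : List ℤ → List ℤ → List ℤ
  | [], l => l
  | x :: a, [] => x :: a
  | x :: a, y :: b => (x + y) :: addL a b

/-- multiplication of lists -/
def mulL : List ℤ → List ℤ → List ℤ
  | [], _ => []
  | x :: a, b => addL (b.map (x * ·)) (0 :: mulL a b)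

theorem ofL_addL (a b : List ℤ) : ofL (addL a b) = ofL a + ofL b := by
  induction a generalizing b with
  | nil => simp [addL, ofL]
  | cons x a ih =>
    cases b with
    | nil => simp [addL, ofL]
    | cons y b => rw [addL, ofL, ofL, ofL, ih, map_add]; ring

theorem ofL_map (x : ℤ) (b : List ℤ) : ofL (b.map (x * ·)) = PowerSeries.C x * ofL b := by
  induction b with
  | nil => simp [ofL]
  | cons y b ih => rw [List.map_cons, ofL, ofL, ih, map_mul]; ring

theorem ofL_mulL (a b : List ℤ) : ofL (mulL a b) = ofL a * ofL b := by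
  induction a with
  | nil => simp [mulL, ofL]
  | cons x a ih => rw [mulL, ofL_addL, ofL_map, ofL, ih, ofL, map_zero]; ring

theorem Cg_take (M : ℕ) (l : List ℤ) : Cg M (ofL l) (ofL (l.take M)) := by
  refine Cg.of_coeff fun n hn => ?_
  rw [coeff_ofL, coeff_ofL, List.getD_eq_getElem?_getD, List.getD_eq_getElem?_getD,
    List.getElem?_take, if_pos hn]

theorem Cg_step {M : ℕ} {f g : PowerSeries ℤ} {a b c : List ℤ} (hf : Cg M f (ofL a))
    (hg : Cg M g (ofL b)) (h : (mulL a b).take M = c) : Cg M (f * g) (ofL c) := by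
  refine (hf.mul hg).trans ?_
  rw [← ofL_mulL, ← h]
  exact Cg_take M _

/-- coefficients of a power of the pentagonal series -/
def l1 : List ℤ :=
  [1, -1, -1, 0, 0, 1, 0, 1, 0, 0, 0, 0, -1, 0, 0, -1, 0, 0, 0, 0, 0, 0, 1, 0, 0, 0, 1, 0, 0,
   0, 0, 0, 0, 0, 0, -1, 0, 0, 0, 0, -1, 0, 0, 0, 0, 0, 0, 0, 0, 0, 0, 1, 0, 0, 0, 0, 0, 1, 0,
   0, 0]

/-- coefficients of a power of the pentagonal series -/
def l2 : List ℤ :=
  [1, -2, -1, 2, 1, 2, -2, 0, -2, -2, 1, 0, 0, 2, 3, -2, 2, 0, 0, -2, -2, 0, 0, -2, -1, 0, 2,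
   2, -2, 2, 1, 2, 0, 2, -2, -2, 2, 0, -2, 0, -4, 0, 0, 0, 1, -2, 0, 0, 2, 0, 2, 2, 1, -2, 0,
   2, 2, 0, 0, -2, 0]

/-- coefficients of a power of the pentagonal series -/
def l3 : List ℤ :=
  [1, -3, 0, 5, 0, 0, -7, 0, 0, 0, 9, 0, 0, 0, 0, -11, 0, 0, 0, 0, 0, 13, 0, 0, 0, 0, 0, 0,
   -15, 0, 0, 0, 0, 0, 0, 0, 17, 0, 0, 0, 0, 0, 0, 0, 0, -19, 0, 0, 0, 0, 0, 0, 0, 0, 0, 21, 0,
   0, 0, 0, 0]

/-- coefficients of a power of the pentagonal series -/
def l6 : List ℤ :=
  [1, -6, 9, 10, -30, 0, 11, 42, 0, -70, 18, -54, 49, 90, 0, -22, -60, 0, -110, 0, 81, 180,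
   -78, 0, 130, -198, 0, -182, -30, 90, 121, 84, 0, 0, 210, 0, -252, -102, -270, 170, 0, 0,
   -69, 330, 0, -38, 420, 0, -190, -390, 0, -108, 0, 0, 0, -300, 99, 442, 210, 0, 418]

/-- coefficients of a power of the pentagonal series -/
def l12 : List ℤ :=
  [1, -12, 54, -88, -99, 540, -418, -648, 594, 836, 1056, -4104, -209, 4104, -594, 4256, -6480,
   -4752, -298, 5016, 17226, -12100, -5346, -1296, -9063, -7128, 19494, 29160, -10032, -7668,
   -34738, 8712, -22572, 21812, 49248, -46872, 67562, 2508, -47520, -76912, -25191, 67716,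
   32076, 7128, 29754, 36784, -51072, 45144, -122398, -53460, 11286, -27256, 57024, 122364,
   99902, 3576, -29646, -221616, 41382, -52272, 130549]

/-- coefficients of a power of the pentagonal series -/
def l24 : List ℤ :=
  [1, -24, 252, -1472, 4830, -6048, -16744, 84480, -113643, -115920, 534612, -370944, -577738,
   401856, 1217160, 987136, -6905934, 2727432, 10661420, -7109760, -4219488, -12830688,
   18643272, 21288960, -25499225, 13865712, -73279080, 24647168, 128406630, -29211840,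
   -52843168, -196706304, 134722224, 165742416, -80873520, 167282496, -182213314, -255874080,
   -145589976, 408038400, 308120442, 101267712, -17125708, -786948864, -548895690, -447438528,
   2687348496, 248758272, -1696965207, 611981400, -1740295368, 850430336, -1596055698,
   1758697920, 2582175960, -1414533120, 2686677840, -3081759120, -5189203740, -1791659520,
   6956478662]


theorem l2_eq : (mulL l1 l1).take 61 = l2 := by decide +kernel

theorem l3_eq : (mulL l2 l1).take 61 = l3 := by decide +kernel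

theorem l6_eq : (mulL l3 l3).take 61 = l6 := by decide +kernel

theorem l12_eq : (mulL l6 l6).take 61 = l12 := by decide +kernel

theorem l24_eq : (mulL l12 l12).take 61 = l24 := by decide +kernel

theorem pent_abs_le (k : ℤ) : |k| ≤ pentagonal k := by
  have h := two_mul_natCast_pentagonal k
  rcases abs_cases k with ⟨h1, h2⟩ | ⟨h1, h2⟩
  · rw [h1]
    rcases Int.lt_or_le 0 k with h3 | h3
    · nlinarith
    · have : k = 0 := le_antisymm h3 h2
      subst this; positivity
  · rw [h1]; nlinarith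

theorem pent_check1 : ∀ k ∈ Finset.Icc (-60 : ℤ) 60, pentagonal k < 61 →
    ((Int.negOnePow k : ℤˣ) : ℤ) = l1.getD (pentagonal k) 0 := by decide +kernel

theorem pent_check2 : ∀ n < 61, l1.getD n 0 ≠ 0 → ∃ k ∈ Finset.Icc (-6 : ℤ) 6,
    pentagonal k = n := by decide +kernel

theorem pent_l1 : Cg 61 (PowerSeries.pentagonalSeries ℤ) (ofL l1) := by
  refine Cg.of_coeff fun n hn => ?_
  rw [coeff_ofL]
  by_cases h : n ∈ Set.range pentagonal
  · obtain ⟨k, rfl⟩ := h
    have hk := pent_abs_le k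
    rw [PowerSeries.coeff_pentagonalSeries_pentagonal]
    have h2 := pent_check1 k (by
      rw [Finset.mem_Icc]
      have := abs_le.1 hk
      have hn' : (pentagonal k : ℤ) < 61 := by exact_mod_cast hn
      constructor <;> omega) hn
    rw [← h2]
    exact Int.cast_id
  · rw [PowerSeries.coeff_pentagonalSeries_eq_zero _ h]
    by_contra h3
    obtain ⟨k, _, hk⟩ := pent_check2 n hn (Ne.symm h3)
    exact h ⟨k, hk⟩

theorem tau_val : tau 61 = 6956478662 := by
  unfold tau Pool.Agent.H397R2.PP.Dz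
  rw [show (61 : ℕ) = 60 + 1 from rfl, PowerSeries.coeff_succ_X_mul]
  have h1 := pent_l1
  have h2 := Cg_step h1 h1 l2_eq
  have h3 := Cg_step h2 h1 l3_eq
  have h6 := Cg_step h3 h3 l6_eq
  have h12 := Cg_step h6 h6 l12_eq
  have h24 := Cg_step h12 h12 l24_eq
  have h4 := h24.coeff (show 60 < 61 by norm_num)
  rw [coeff_ofL] at h4
  rw [show (PowerSeries.pentagonalSeries ℤ) ^ 24 = PowerSeries.pentagonalSeries ℤ *
    PowerSeries.pentagonalSeries ℤ * PowerSeries.pentagonalSeries ℤ *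
    (PowerSeries.pentagonalSeries ℤ * PowerSeries.pentagonalSeries ℤ *
    PowerSeries.pentagonalSeries ℤ) * (PowerSeries.pentagonalSeries ℤ *
    PowerSeries.pentagonalSeries ℤ * PowerSeries.pentagonalSeries ℤ *
    (PowerSeries.pentagonalSeries ℤ * PowerSeries.pentagonalSeries ℤ *
    PowerSeries.pentagonalSeries ℤ)) * (PowerSeries.pentagonalSeries ℤ *
    PowerSeries.pentagonalSeries ℤ * PowerSeries.pentagonalSeries ℤ *
    (PowerSeries.pentagonalSeries ℤ * PowerSeries.pentagonalSeries ℤ *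
    PowerSeries.pentagonalSeries ℤ) * (PowerSeries.pentagonalSeries ℤ *
    PowerSeries.pentagonalSeries ℤ * PowerSeries.pentagonalSeries ℤ *
    (PowerSeries.pentagonalSeries ℤ * PowerSeries.pentagonalSeries ℤ *
    PowerSeries.pentagonalSeries ℤ))) by ring, h4]
  decide +kernel

theorem tau_sixtyone' : ¬ ((61 : ℕ) : ℤ) ∣ tau 61 := by
  rw [tau_val]
  decide

end Run7.h423
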