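import Pool.Agent.Run7.h423.Integral

/-! Odd primes (piece G14). -/

set_option autoImplicit false

namespace Run7.h423

noncomputable section

open PowerSeries

/-- all coefficients up to `M` have `p`-adic norm at most `α` -/
def PB (p M : ℕ) (α : ℚ) (f : ℚ⟦X⟧) : Prop := ∀ n ≤ M, padicNorm p (coeff n f) ≤ α

theorem PB.mul {p M : ℕ} (hp : p.Prime) {α β : ℚ} (hα : 0 ≤ α) (hβ : 0 ≤ β) {f g : ℚ⟦X⟧}
    (hf : PB p M α f) (hg : PB p M β g) : PB p M (α * β) (f * g) := by
  have := Fact.mk hp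
  intro n hn
  rw [PowerSeries.coeff_mul]
  refine padicNorm.sum_le' (fun x hx => ?_) (mul_nonneg hα hβ)
  rw [Finset.HasAntidiagonal.mem_antidiagonal] at hx
  rw [padicNorm.mul]
  exact mul_le_mul (hf _ (by omega)) (hg _ (by omega)) (padicNorm.nonneg _) hα

theorem PB.pow {p M : ℕ} (hp : p.Prime) {α : ℚ} (hα : 0 ≤ α) {f : ℚ⟦X⟧}
    (hf : PB p M α f) (c : ℕ) : PB p M (α ^ c) (f ^ c) := by
  have := Fact.mk hp
  induction c with
  | zero =>
    intro n _
    rw [pow_zero, pow_zero, PowerSeries.coeff_one]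
    split_ifs
    · rw [padicNorm.one]
    · rw [padicNorm.zero]; exact zero_le_one
  | succ c ih =>
    rw [pow_succ, pow_succ]
    exact ih.mul hp (pow_nonneg hα c) hα hf

theorem IsInt.PB {p M : ℕ} (hp : p.Prime) {f : ℚ⟦X⟧} (hf : IsInt f) : PB p M 1 f := by
  have := Fact.mk hp
  intro n _
  obtain ⟨z, hz⟩ := hf n
  rw [hz]
  exact padicNorm.of_int z

/-- the row is an integral series times `F^c` -/
theorem row_eq_int (h W d : ℕ) (F : ℚ⟦X⟧) (i b c : ℕ) :
    ∃ G : ℚ⟦X⟧, IsInt G ∧ row h W d F i b c = G * F ^ c := by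
  refine ⟨w ^ i * (A ^ (W - h * c - b) * E ^ b) * A ^ (2 * d + 4 * W), ?_, ?_⟩
  · exact ((isInt_w'.pow' i).mul' ((isInt_A'.pow' _).mul' (isInt_E'.pow' b))).mul' (isInt_A'.pow' _)
  · unfold row mon
    ring

theorem Fs_PB (a : ℕ → ℤ) {p : ℕ} (hp : p.Prime) (M : ℕ) :
    PB p M ((p : ℚ) ^ Nat.log p M) (Fs a) := by
  have := Fact.mk hp
  intro n hn
  unfold Fs
  rw [PowerSeries.coeff_mk]
  split_ifs with hodd
  · have hn0 : n ≠ 0 := by rintro rfl; exact absurd hodd (by decide)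
    rw [padicNorm.div]
    have h1 : padicNorm p ((a n : ℤ) : ℚ) ≤ 1 := padicNorm.of_int _
    have h2 : padicNorm p (n : ℚ) = (p : ℚ) ^ (-(padicValNat p n : ℤ)) := by
      rw [padicNorm.eq_zpow_of_nonzero (by exact_mod_cast hn0), padicValRat.of_nat]
    rw [h2, zpow_neg, div_inv_eq_mul]
    have hp1 : (1 : ℚ) ≤ p := by exact_mod_cast hp.one_lt.le
    calc padicNorm p (a n) * (p : ℚ) ^ (padicValNat p n : ℤ)
        ≤ 1 * (p : ℚ) ^ (padicValNat p n : ℤ) :=
          mul_le_mul_of_nonneg_right h1 (by positivity)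
      _ = (p : ℚ) ^ (padicValNat p n) := by rw [one_mul, zpow_natCast]
      _ ≤ (p : ℚ) ^ Nat.log p M := by
          refine pow_le_pow_right₀ hp1 ?_
          exact (padicValNat_le_nat_log n).trans (Nat.log_mono_right hn)
  · rw [padicNorm.zero]; positivity

theorem odd_rows' {h : ℕ} {a : ℕ → ℤ} (W C d i b c : ℕ) (hc : c ≤ C) (p : ℕ) (hp : p.Prime)
    (n M : ℕ) (hn : n ≤ M) :
    padicNorm p (coeff n (row h W d (Fs a) i b c)) ≤ (p : ℚ) ^ (C * Nat.log p M) := by
  have := Fact.mk hp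
  obtain ⟨G, hG, hrow⟩ := row_eq_int h W d (Fs a) i b c
  rw [hrow]
  have h1 : PB p M (1 * ((p : ℚ) ^ Nat.log p M) ^ c) (G * Fs a ^ c) :=
    (IsInt.PB hp hG).mul hp zero_le_one (by positivity) ((Fs_PB a hp M).pow hp (by positivity) c)
  refine (h1 n hn).trans ?_
  rw [one_mul, ← pow_mul]
  have hp1 : (1 : ℚ) ≤ p := by exact_mod_cast hp.one_lt.le
  refine pow_le_pow_right₀ hp1 ?_
  rw [mul_comm]
  exact Nat.mul_le_mul_right _ hc

theorem pow_dvd_of_hecke {h : ℕ} {a : ℕ → ℤ} {p : ℕ} (hh : 1 ≤ h)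
    (hecke : ∀ n : ℕ, 1 ≤ n →
      a (p * n) = a p * a n - if p ∣ n then (p : ℤ) ^ (h + 1) * a (n / p) else 0)
    (hp : 0 < p) (hpa : (p : ℤ) ∣ a p) (k : ℕ) : ∀ n, 1 ≤ n → (p : ℤ) ^ k ∣ a (p ^ k * n) := by
  induction k using Nat.strong_induction_on with
  | _ k ih =>
    intro n hn
    rcases k with _ | k
    · simp
    · rcases k with _ | k
      · rw [zero_add, pow_one, pow_one, hecke n hn]
        refine dvd_sub (dvd_mul_of_dvd_left hpa _) ?_
        split_ifs
        · exact dvd_mul_of_dvd_left (dvd_pow_self _ (by omega)) _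
        · exact dvd_zero _
      · have h1 : p ^ (k + 1 + 1) * n = p * (p ^ (k + 1) * n) := by ring
        have h3 : p ∣ p ^ (k + 1) * n := by
          rw [pow_succ, mul_assoc, mul_comm]
          exact dvd_mul_of_dvd_left (dvd_mul_right _ _) _
        have h4 : p ^ (k + 1) * n / p = p ^ k * n := by
          rw [pow_succ, mul_comm (p ^ k) p, mul_assoc]
          exact Nat.mul_div_cancel_left _ hp
        have hpos : 1 ≤ p ^ (k + 1) * n := Nat.mul_pos (pow_pos hp _) hn
        rw [h1, hecke _ hpos, if_pos h3, h4]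
        refine dvd_sub ?_ ?_
        · rw [pow_succ, mul_comm]
          exact mul_dvd_mul hpa (ih (k + 1) (by omega) n hn)
        · have h5 : (p : ℤ) ^ (k + 1 + 1) ∣ (p : ℤ) ^ (h + 1) * (p : ℤ) ^ k := by
            rw [← pow_add]
            exact pow_dvd_pow _ (by omega)
          exact h5.trans (mul_dvd_mul_left _ (ih k (by omega) n hn))

theorem odd_rows_int' {h : ℕ} {a : ℕ → ℤ} {v : Polynomial ℚ} (hs : Sys h a v) (W d i b c : ℕ)
    (p : ℕ) (hp : p.Prime) (hpa : (p : ℤ) ∣ a p) (n : ℕ) :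
    padicNorm p (coeff n (row h W d (Fs a) i b c)) ≤ 1 := by
  have := Fact.mk hp
  obtain ⟨G, hG, hrow⟩ := row_eq_int h W d (Fs a) i b c
  rw [hrow]
  have hF : PB p n 1 (Fs a) := by
    intro m _
    unfold Fs
    rw [PowerSeries.coeff_mk]
    split_ifs with hodd
    · have hm0 : m ≠ 0 := by rintro rfl; exact absurd hodd (by decide)
      obtain ⟨m', hm'⟩ : p ^ padicValNat p m ∣ m := pow_padicValNat_dvd
      have hm1 : 1 ≤ m' := by
        rcases Nat.eq_zero_or_pos m' with h0 | h0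
        · rw [h0, mul_zero] at hm'; exact absurd hm' hm0
        · exact h0
      have h3 : (p : ℤ) ^ padicValNat p m ∣ a m := by
        have h4 := pow_dvd_of_hecke (by have := hs.h4; omega : 1 ≤ h) (hs.hecke p hp) hp.pos hpa
          (padicValNat p m) m' hm1
        rwa [← hm'] at h4
      have h1 : padicNorm p ((a m : ℤ) : ℚ) ≤ (p : ℚ) ^ (-(padicValNat p m : ℤ)) := by
        rw [← padicNorm.dvd_iff_norm_le]
        exact_mod_cast h3
      have h2 : padicNorm p (m : ℚ) = (p : ℚ) ^ (-(padicValNat p m : ℤ)) := by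
        rw [padicNorm.eq_zpow_of_nonzero (by exact_mod_cast hm0), padicValRat.of_nat]
      rw [padicNorm.div, h2]
      have hp1 : (0 : ℚ) < p := by exact_mod_cast hp.pos
      exact div_le_one_of_le₀ h1 (by positivity)
    · rw [padicNorm.zero]; exact zero_le_one
  have h1 : PB p n (1 * 1 ^ c) (G * Fs a ^ c) :=
    (IsInt.PB hp hG).mul hp zero_le_one (by positivity) (hF.pow hp (by positivity) c)
  refine (h1 n le_rfl).trans ?_
  rw [one_pow, one_mul]

end

end Run7.h423
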