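import Pool.Agent.Run7.h423.Iface

/-!
G12 (helper33): `F = Fs a` satisfies no equation of degree `≤ C < p` whose coefficients have bounded
`p`-denominators, `p` an odd prime not dividing `a p`.
-/

set_option autoImplicit false

namespace Run7.h423

noncomputable section

open PowerSeries

namespace TOne

/-- all coefficients up to degree `M` have `p`-norm `≤ α`, those before `i` have norm `< α`, and the
one at `i` has norm `α` -/
structure Lead (p M : ℕ) (f : ℚ⟦X⟧) (α : ℚ) (i : ℕ) : Prop where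
  le : ∀ n ≤ M, padicNorm p (coeff n f) ≤ α
  lt : ∀ n < i, padicNorm p (coeff n f) < α
  eq : padicNorm p (coeff i f) = α

theorem mul_bound {p M : ℕ} [Fact p.Prime] {f g : ℚ⟦X⟧} {α β : ℚ}
    (hα : 0 ≤ α) (hβ : 0 ≤ β) (hf : ∀ n ≤ M, padicNorm p (coeff n f) ≤ α)
    (hg : ∀ n ≤ M, padicNorm p (coeff n g) ≤ β) :
    ∀ n ≤ M, padicNorm p (coeff n (f * g)) ≤ α * β := by
  intro n hn
  rw [coeff_mul]
  apply padicNorm.sum_le' _ (mul_nonneg hα hβ)
  rintro ⟨x, y⟩ hxy
  rw [Finset.HasAntidiagonal.mem_antidiagonal] at hxy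
  simp only at hxy ⊢
  rw [padicNorm.mul]
  exact mul_le_mul (hf x (by omega)) (hg y (by omega)) (padicNorm.nonneg _) hα

theorem pow_bound {p M : ℕ} [Fact p.Prime] {f : ℚ⟦X⟧} {α : ℚ}
    (hα : 0 ≤ α) (hf : ∀ n ≤ M, padicNorm p (coeff n f) ≤ α) (c : ℕ) :
    ∀ n ≤ M, padicNorm p (coeff n (f ^ c)) ≤ α ^ c := by
  induction c with
  | zero =>
    intro n _
    rw [pow_zero, pow_zero, coeff_one]
    split_ifs <;> simp
  | succ c ih =>
    rw [pow_succ, pow_succ]
    exact mul_bound (pow_nonneg hα c) hα ih hf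

theorem Lead.mul {p M : ℕ} [Fact p.Prime] {f g : ℚ⟦X⟧} {α β : ℚ} {i j : ℕ}
    (hα : 0 < α) (hβ : 0 < β) (hf : Lead p M f α i) (hg : Lead p M g β j) (hM : i + j ≤ M) :
    Lead p M (f * g) (α * β) (i + j) := by
  have key : ∀ x y : ℕ, x + y ≤ M → (x < i ∨ y < j) →
      padicNorm p (coeff x f * coeff y g) < α * β := by
    intro x y hxy h
    rw [padicNorm.mul]
    rcases h with h | h
    · calc padicNorm p (coeff x f) * padicNorm p (coeff y g)
          ≤ padicNorm p (coeff x f) * β :=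
            mul_le_mul_of_nonneg_left (hg.le y (by omega)) (padicNorm.nonneg _)
        _ < α * β := mul_lt_mul_of_pos_right (hf.lt x h) hβ
    · calc padicNorm p (coeff x f) * padicNorm p (coeff y g)
          ≤ α * padicNorm p (coeff y g) :=
            mul_le_mul_of_nonneg_right (hf.le x (by omega)) (padicNorm.nonneg _)
        _ < α * β := mul_lt_mul_of_pos_left (hg.lt y h) hα
  refine ⟨mul_bound hα.le hβ.le hf.le hg.le, ?_, ?_⟩
  · intro n hn
    rw [coeff_mul]
    apply padicNorm.sum_lt' _ (mul_pos hα hβ)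
    rintro ⟨x, y⟩ hxy
    rw [Finset.HasAntidiagonal.mem_antidiagonal] at hxy
    simp only at hxy ⊢
    exact key x y (by omega) (by omega)
  · rw [coeff_mul, ← Finset.add_sum_erase _ _
      (show (i, j) ∈ Finset.HasAntidiagonal.antidiagonal (i + j) from Finset.HasAntidiagonal.mem_antidiagonal.2 rfl)]
    have h1 : padicNorm p (coeff i f * coeff j g) = α * β := by
      rw [padicNorm.mul, hf.eq, hg.eq]
    have h2 : padicNorm p (∑ x ∈ (Finset.HasAntidiagonal.antidiagonal (i + j)).erase (i, j),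
        coeff x.1 f * coeff x.2 g) < α * β := by
      apply padicNorm.sum_lt' _ (mul_pos hα hβ)
      rintro ⟨x, y⟩ hxy
      rw [Finset.mem_erase, Finset.HasAntidiagonal.mem_antidiagonal] at hxy
      simp only at hxy ⊢
      refine key x y (by omega) ?_
      by_contra hcon
      push Not at hcon
      exact hxy.1 (by ext <;> simp <;> omega)
    simp only
    rw [padicNorm.add_eq_max_of_ne (by rw [h1]; exact ne_of_gt h2), h1, max_eq_left h2.le]

theorem Lead.pow {p M : ℕ} [Fact p.Prime] {f : ℚ⟦X⟧} {α : ℚ} {i : ℕ}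
    (hα : 0 < α) (hf : Lead p M f α i) (c : ℕ) (hM : c * i ≤ M) :
    Lead p M (f ^ c) (α ^ c) (c * i) := by
  induction c with
  | zero =>
    refine ⟨pow_bound hα.le hf.le 0, ?_, ?_⟩
    · intro n hn; omega
    · simp
  | succ c ih =>
    have h1 : c * i + i ≤ M := by nlinarith
    have := Lead.mul (pow_pos hα c) hα (ih (by omega)) hf h1
    rw [pow_succ, pow_succ, Nat.succ_mul]
    exact this

theorem a_pow {h : ℕ} {a : ℕ → ℤ} {v : Polynomial ℚ} (hs : Sys h a v) {p : ℕ} (hp : p.Prime)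
    (hord : ¬ (p : ℤ) ∣ a p) (k : ℕ) : ¬ (p : ℤ) ∣ a (p ^ k) := by
  have hpi : Prime (p : ℤ) := Nat.prime_iff_prime_int.1 hp
  induction k with
  | zero =>
    rw [pow_zero, hs.one]
    exact fun hd => hpi.not_isUnit (isUnit_of_dvd_one hd)
  | succ k ih =>
    rw [pow_succ', hs.hecke p hp (p ^ k) (Nat.one_le_pow _ _ hp.pos)]
    intro hd
    have h1 : (p : ℤ) ∣ (if p ∣ p ^ k then (p : ℤ) ^ (h + 1) * a (p ^ k / p) else 0) := by
      split_ifs
      · exact Dvd.dvd.mul_right (dvd_pow_self _ (by omega)) _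
      · exact dvd_zero _
    have h2 : (p : ℤ) ∣ a p * a (p ^ k) := (dvd_sub_left h1).1 hd
    rcases hpi.dvd_or_dvd h2 with h3 | h3
    · exact hord h3
    · exact ih h3

theorem padicNorm_nat_ge {p : ℕ} [Fact p.Prime] {n k : ℕ} (hn : n ≠ 0) (hk : n < p ^ (k + 1)) :
    (p : ℚ) ^ (-(k : ℤ)) ≤ padicNorm p (n : ℚ) := by
  have hp := (Fact.out : p.Prime)
  rw [padicNorm.eq_zpow_of_nonzero (by exact_mod_cast hn), padicValRat.of_nat]
  apply zpow_le_zpow_right₀ (by exact_mod_cast hp.one_lt.le)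
  have h1 : padicValNat p n ≤ k := by
    have h2 : padicValNat p n ≤ Nat.log p n := padicValNat_le_nat_log n
    have h3 : Nat.log p n < k + 1 := Nat.log_lt_of_lt_pow hn hk
    omega
  have h4 : (padicValNat p n : ℤ) ≤ (k : ℤ) := by exact_mod_cast h1
  linarith

theorem coeff_F_le {p : ℕ} [Fact p.Prime] (a : ℕ → ℤ) {n k : ℕ} (hk : n < p ^ (k + 1)) :
    padicNorm p (coeff n (Fs a)) ≤ (p : ℚ) ^ k := by
  have hp := (Fact.out : p.Prime)
  have hp0 : (0 : ℚ) < p := by exact_mod_cast hp.pos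
  rw [Fs, coeff_mk]
  split_ifs with ho
  · have hn : n ≠ 0 := by rintro rfl; simp at ho
    rw [padicNorm.div]
    have h1 := padicNorm_nat_ge hn hk
    have h2 : padicNorm p ((a n : ℤ) : ℚ) ≤ 1 := padicNorm.of_int _
    have h3 : (0 : ℚ) < (p : ℚ) ^ (-(k : ℤ)) := zpow_pos hp0 _
    rw [div_le_iff₀ (lt_of_lt_of_le h3 h1)]
    calc padicNorm p ((a n : ℤ) : ℚ) ≤ 1 := h2
      _ = (p : ℚ) ^ k * (p : ℚ) ^ (-(k : ℤ)) := by
          rw [zpow_neg, zpow_natCast, mul_inv_cancel₀ (pow_ne_zero _ hp0.ne')]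
      _ ≤ _ := mul_le_mul_of_nonneg_left h1 (pow_nonneg hp0.le _)
  · rw [padicNorm.zero]
    exact pow_nonneg hp0.le _

theorem lead_F {h : ℕ} {a : ℕ → ℤ} {v : Polynomial ℚ} (hs : Sys h a v) {p : ℕ} [Fact p.Prime]
    (hp2 : p ≠ 2) (hord : ¬ (p : ℤ) ∣ a p) {k M : ℕ} (hM : M < p ^ (k + 1)) :
    Lead p M (Fs a) ((p : ℚ) ^ k) (p ^ k) := by
  have hp := (Fact.out : p.Prime)
  have hp0 : (0 : ℚ) < p := by exact_mod_cast hp.pos
  have hp1 : (1 : ℚ) < p := by exact_mod_cast hp.one_lt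
  refine ⟨fun n hn => coeff_F_le a (lt_of_le_of_lt hn hM), ?_, ?_⟩
  · intro n hn
    cases k with
    | zero =>
      have : n = 0 := by simpa using hn
      subst this
      rw [Fs, coeff_mk]
      simp
    | succ k =>
      exact lt_of_le_of_lt (coeff_F_le a hn) (pow_lt_pow_right₀ hp1 (by omega))
  · rw [Fs, coeff_mk, if_pos ((hp.odd_of_ne_two hp2).pow), padicNorm.div]
    have h1 : padicNorm p ((a (p ^ k) : ℤ) : ℚ) = 1 :=
      (padicNorm.int_eq_one_iff _).2 (a_pow hs hp hord k)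
    rw [h1]
    push_cast
    have h2 : padicNorm p ((p : ℚ) ^ k) = ((p : ℚ) ^ k)⁻¹ := by
      clear h1 hM
      induction k with
      | zero => simp
      | succ k ih =>
        rw [pow_succ, padicNorm.mul, padicNorm.padicNorm_p_of_prime, ih, mul_inv]
    rw [h2, one_div, inv_inv]

/-- the leading data of a nonzero series with bounded denominators -/
theorem exists_lead {p : ℕ} [Fact p.Prime] {g : ℚ⟦X⟧} (hg : g ≠ 0) {k : ℕ}
    (hk : ∀ n, padicNorm p (coeff n g) ≤ (p : ℚ) ^ k) :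
    ∃ (ρ : ℚ) (μ : ℕ), 0 < ρ ∧ ∀ M, Lead p M g ρ μ := by
  have hp := (Fact.out : p.Prime)
  have hp0 : (0 : ℚ) < p := by exact_mod_cast hp.pos
  have hp1 : (1 : ℚ) < p := by exact_mod_cast hp.one_lt
  have key : ∀ n, coeff n g ≠ 0 → ∃ s : ℕ, padicNorm p (coeff n g) = (p : ℚ) ^ ((k : ℤ) - s) := by
    intro n hn
    have h1 := hk n
    rw [padicNorm.eq_zpow_of_nonzero hn, ← zpow_natCast, zpow_le_zpow_iff_right₀ hp1] at h1
    refine ⟨(k + padicValRat p (coeff n g)).toNat, ?_⟩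
    rw [padicNorm.eq_zpow_of_nonzero hn]
    congr 1
    have := Int.toNat_of_nonneg (show 0 ≤ (k : ℤ) + padicValRat p (coeff n g) by linarith)
    rw [this]
    ring
  have hex : ∃ s : ℕ, ∃ n, coeff n g ≠ 0 ∧ padicNorm p (coeff n g) = (p : ℚ) ^ ((k : ℤ) - s) := by
    have : ∃ n, coeff n g ≠ 0 := by
      by_contra hcon
      push Not at hcon
      exact hg (PowerSeries.ext (by simpa using hcon))
    obtain ⟨n, hn⟩ := this
    obtain ⟨s, hs⟩ := key n hn
    exact ⟨s, n, hn, hs⟩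
  classical
  obtain ⟨n0, hn0, hn0'⟩ := Nat.find_spec hex
  have hle : ∀ n, padicNorm p (coeff n g) ≤ (p : ℚ) ^ ((k : ℤ) - (Nat.find hex : ℕ)) := by
    intro n
    by_cases hn : coeff n g = 0
    · rw [hn, padicNorm.zero]
      exact (zpow_pos hp0 _).le
    · obtain ⟨s, hs⟩ := key n hn
      have h1 : Nat.find hex ≤ s := Nat.find_min' hex ⟨n, hn, hs⟩
      rw [hs]
      apply zpow_le_zpow_right₀ hp1.le
      have : ((Nat.find hex : ℕ) : ℤ) ≤ (s : ℤ) := by exact_mod_cast h1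
      linarith
  have hex2 : ∃ n, padicNorm p (coeff n g) = (p : ℚ) ^ ((k : ℤ) - (Nat.find hex : ℕ)) := ⟨n0, hn0'⟩
  refine ⟨(p : ℚ) ^ ((k : ℤ) - (Nat.find hex : ℕ)), Nat.find hex2, zpow_pos hp0 _, fun M => ?_⟩
  refine ⟨fun n _ => hle n, fun n hn => lt_of_le_of_ne (hle n) (Nat.find_min hex2 hn),
    Nat.find_spec hex2⟩

end TOne

open TOne in
theorem t_one' {h : ℕ} {a : ℕ → ℤ} {v : Polynomial ℚ} (hs : Sys h a v) {p : ℕ} (hp : p.Prime)
    (hp2 : p ≠ 2) (hord : ¬ (p : ℤ) ∣ a p) {C : ℕ} (hC : C < p) (g : ℕ → ℚ⟦X⟧)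
    (hg : ∀ c, ∃ k : ℕ, ∀ n, padicNorm p (coeff n (g c)) ≤ (p : ℚ) ^ k)
    (h0 : ∑ c ∈ Finset.range (C + 1), g c * Fs a ^ c = 0) : ∀ c ≤ C, g c = 0 := by
  have : Fact p.Prime := ⟨hp⟩
  have hp0 : (0 : ℚ) < p := by exact_mod_cast hp.pos
  have hp1 : (1 : ℚ) < p := by exact_mod_cast hp.one_lt
  induction C with
  | zero =>
    intro c hc
    have : c = 0 := by omega
    subst this
    simpa using h0
  | succ C ih =>
    have hlast : g (C + 1) = 0 := by
      by_contra hne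
      obtain ⟨K, hK⟩ := hg (C + 1)
      obtain ⟨ρ, μ, hρ, hL⟩ := exists_lead hne hK
      choose k hk using hg
      -- a common bound for the lower coefficients
      obtain ⟨G, hG⟩ : ∃ G : ℕ, ∀ c ≤ C, k c ≤ G := by
        refine ⟨∑ c ∈ Finset.range (C + 1), k c, fun c hc => ?_⟩
        exact Finset.single_le_sum (f := k) (fun _ _ => Nat.zero_le _)
          (Finset.mem_range.2 (by omega))
      -- choice of the exponent
      obtain ⟨t, ht1, ht2⟩ : ∃ t : ℕ, μ + 1 ≤ p ^ t ∧ (p : ℚ) ^ G < ρ * (p : ℚ) ^ t := by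
        obtain ⟨t1, ht1⟩ := pow_unbounded_of_one_lt ((p : ℚ) ^ G / ρ) hp1
        refine ⟨max (μ + 1) t1, ?_, ?_⟩
        · calc μ + 1 ≤ p ^ (μ + 1) := (Nat.lt_pow_self hp.one_lt).le
            _ ≤ p ^ (max (μ + 1) t1) := Nat.pow_le_pow_right hp.pos (le_max_left _ _)
        · rw [div_lt_iff₀ hρ] at ht1
          calc (p : ℚ) ^ G < (p : ℚ) ^ t1 * ρ := ht1
            _ = ρ * (p : ℚ) ^ t1 := mul_comm _ _
            _ ≤ ρ * (p : ℚ) ^ (max (μ + 1) t1) :=
              mul_le_mul_of_nonneg_left (pow_le_pow_right₀ hp1.le (le_max_right _ _)) hρ.le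
      set M := p ^ (t + 1) - 1 with hMdef
      have hpt : 0 < p ^ (t + 1) := Nat.pow_pos hp.pos
      have hMlt : M < p ^ (t + 1) := by omega
      have hbound : μ + (C + 1) * p ^ t ≤ M := by
        have h1 : (C + 2) * p ^ t ≤ p ^ (t + 1) := by
          rw [pow_succ']
          exact Nat.mul_le_mul_right _ (by omega)
        have h2 : (C + 2) * p ^ t = (C + 1) * p ^ t + p ^ t := by ring
        omega
      have hF := lead_F hs hp2 hord (k := t) hMlt
      have hpk : (0 : ℚ) < (p : ℚ) ^ t := pow_pos hp0 _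
      have hFC := Lead.pow hpk hF (C + 1) (by omega)
      have hprod := Lead.mul hρ (pow_pos hpk _) (hL M) hFC hbound
      -- the lower terms
      have hlow : padicNorm p (coeff (μ + (C + 1) * p ^ t)
          (∑ c ∈ Finset.range (C + 1), g c * Fs a ^ c)) < ρ * ((p : ℚ) ^ t) ^ (C + 1) := by
        rw [map_sum]
        apply padicNorm.sum_lt' _ (mul_pos hρ (pow_pos hpk _))
        intro c hc
        rw [Finset.mem_range] at hc
        have h1 := mul_bound (p := p) (M := M) (f := g c) (g := Fs a ^ c)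
          (pow_nonneg hp0.le (k c)) (pow_nonneg hpk.le c) (fun n _ => hk c n)
          (pow_bound hpk.le hF.le c) _ hbound
        refine lt_of_le_of_lt h1 ?_
        calc (p : ℚ) ^ (k c) * ((p : ℚ) ^ t) ^ c
            ≤ (p : ℚ) ^ G * ((p : ℚ) ^ t) ^ c :=
              mul_le_mul_of_nonneg_right (pow_le_pow_right₀ hp1.le (hG c (by omega)))
                (pow_nonneg hpk.le _)
          _ < (ρ * (p : ℚ) ^ t) * ((p : ℚ) ^ t) ^ c :=
              mul_lt_mul_of_pos_right ht2 (pow_pos hpk _)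
          _ = ρ * ((p : ℚ) ^ t) ^ (c + 1) := by ring
          _ ≤ ρ * ((p : ℚ) ^ t) ^ (C + 1) :=
              mul_le_mul_of_nonneg_left
                (pow_le_pow_right₀ (one_le_pow₀ hp1.le) (by omega)) hρ.le
      have h00 := congrArg (fun F => padicNorm p (coeff (μ + (C + 1) * p ^ t) F)) h0
      simp only [map_zero, padicNorm.zero] at h00
      rw [Finset.sum_range_succ, map_add,
        padicNorm.add_eq_max_of_ne (by rw [hprod.eq]; exact ne_of_lt hlow), hprod.eq,
        max_eq_right hlow.le] at h00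
      exact absurd h00 (ne_of_gt (mul_pos hρ (pow_pos hpk _)))
    intro c hc
    rw [Finset.sum_range_succ, hlast, zero_mul, add_zero] at h0
    rcases Nat.lt_or_ge c (C + 1) with h1 | h1
    · exact ih (by omega) h0 c (by omega)
    · have : c = C + 1 := by omega
      rw [this]; exact hlast

end

end Run7.h423
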