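import Mathlib

/-!
# G13b: the Riccati equation has no rational solution
-/

set_option autoImplicit false

namespace Run7.h423

open Polynomial

/-- The polynomial `1 + 64 Y ^ 2`. -/
noncomputable def TT : ℚ[X] := 1 + 64 * X ^ 2

theorem TT_eq : TT = C 64 * X ^ 2 + C 1 := by
  rw [TT, map_one, add_comm]
  rfl

theorem TT_natDegree : TT.natDegree = 2 := by
  rw [TT_eq]
  compute_degree!

theorem TT_coeff_two : TT.coeff 2 = 64 := by
  rw [TT_eq]
  simp [coeff_one]

theorem TT_coeff_zero : TT.coeff 0 = 1 := by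
  rw [TT_eq]
  simp

theorem TT_irr : Irreducible TT := by
  apply irreducible_of_degree_le_three_of_not_isRoot
  · rw [Finset.mem_Icc, TT_natDegree]
    omega
  · intro x hx
    have : 1 + 64 * x ^ 2 = 0 := by
      have h := hx
      simp [IsRoot, TT] at h
      exact h
    nlinarith [sq_nonneg x]

theorem TT_ndvd {K : ℚ[X]} (hK : K.natDegree ≤ 2) (c0 : ℚ) (h0 : K.coeff 0 = c0)
    (h : TT ∣ K) : K.coeff 2 = 64 * c0 := by
  obtain ⟨c, rfl⟩ := h
  by_cases hc : c = 0
  · subst hc
    simp at h0 ⊢
    rw [← h0]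
  · have h1 : (TT * c).natDegree = 2 + c.natDegree := by
      rw [natDegree_mul TT_irr.ne_zero hc, TT_natDegree]
    have h2 : c.natDegree = 0 := by omega
    obtain ⟨k, rfl⟩ := natDegree_eq_zero.1 h2
    rw [mul_coeff_zero, TT_coeff_zero, coeff_C_zero, one_mul] at h0
    rw [coeff_mul_C, TT_coeff_two, h0]

/-- `G13b`. -/
theorem ric (P Q : ℚ[X]) (hcop : IsCoprime P Q) (hP0 : P.coeff 0 = 0)
    (h : X * TT * (derivative P * Q - P * derivative Q) =
      64 * X ^ 2 * P * Q - 16 * X ^ 2 * TT * Q ^ 2 - P ^ 2) : False := by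
  -- nonvanishing
  have hP : P ≠ 0 := by
    rintro rfl
    have hQ : IsUnit Q := isCoprime_zero_left.1 hcop
    obtain ⟨c, hc, rfl⟩ := Polynomial.isUnit_iff.1 hQ
    have h1 := congrArg (fun p : ℚ[X] => p.eval 1) h
    simp [TT] at h1
    rcases h1 with h1 | h1
    · norm_num at h1
    · exact hc.ne_zero h1
  have hQ : Q ≠ 0 := by
    rintro rfl
    have hPu : IsUnit P := isCoprime_zero_right.1 hcop
    obtain ⟨c, hc, rfl⟩ := Polynomial.isUnit_iff.1 hPu
    rw [coeff_C_zero] at hP0
    exact hc.ne_zero hP0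
  -- degrees
  set k := max Q.natDegree (P.natDegree - 2) with hk
  have hQk : Q.natDegree ≤ k := le_max_left _ _
  have hPk : P.natDegree ≤ k + 2 := by
    have := le_max_right Q.natDegree (P.natDegree - 2)
    omega
  set α := P.coeff (k + 2) with hα
  set γ := Q.coeff k with hγ
  have dP : (X * derivative P).natDegree ≤ k + 2 := by
    refine natDegree_mul_le.trans ?_
    have := natDegree_derivative_le P
    rw [natDegree_X]
    by_cases h0 : P.natDegree = 0
    · rw [Polynomial.derivative_of_natDegree_zero h0]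
      simp
    · omega
  have dQ : (X * derivative Q).natDegree ≤ k := by
    by_cases h0 : Q.natDegree = 0
    · rw [Polynomial.derivative_of_natDegree_zero h0]
      simp
    · refine natDegree_mul_le.trans ?_
      have := natDegree_derivative_le Q
      rw [natDegree_X]
      omega
  have cX : ∀ (R : ℚ[X]) (n : ℕ), (X * derivative R).coeff n = n * R.coeff n := by
    intro R n
    rcases n with _ | n
    · simp
    · rw [coeff_X_mul, coeff_derivative]
      push_cast
      ring
  have cm := fun {p q : ℚ[X]} {m n : ℕ} (hp : p.natDegree ≤ m) (hq : q.natDegree ≤ n) =>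
    coeff_mul_add_eq_of_natDegree_le (f := p) (g := q) (df := m) (dg := n) hp hq
  have hT : TT.natDegree ≤ 2 := TT_natDegree.le
  have e1 : (X * TT * (derivative P * Q - P * derivative Q)).coeff (2 + ((k + 2) + k)) =
      64 * ((k + 2) * α * γ - k * α * γ) := by
    have : X * TT * (derivative P * Q - P * derivative Q) =
        TT * ((X * derivative P) * Q - P * (X * derivative Q)) := by ring
    rw [this, cm hT, coeff_sub, cm dP hQk, cm hPk dQ, cX, cX, TT_coeff_two]
    · push_cast; ring
    · refine (natDegree_sub_le _ _).trans (max_le ?_ ?_)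
      · exact natDegree_mul_le.trans (by omega)
      · exact natDegree_mul_le.trans (by omega)
  have e2 : (64 * X ^ 2 * P * Q - 16 * X ^ 2 * TT * Q ^ 2 - P ^ 2).coeff (2 + ((k + 2) + k)) =
      64 * α * γ - 1024 * γ ^ 2 - α ^ 2 := by
    have hX2 : ((C 64 * X ^ 2 : ℚ[X])).natDegree ≤ 2 := by compute_degree
    have hX3 : ((C 16 * X ^ 2 : ℚ[X])).natDegree ≤ 2 := by compute_degree
    have c1 : ((C 64 * X ^ 2 : ℚ[X])).coeff 2 = 64 := by simp
    have c2 : ((C 16 * X ^ 2 : ℚ[X])).coeff 2 = 16 := by simp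
    have t1 : (64 * X ^ 2 * P * Q : ℚ[X]) = (C 64 * X ^ 2) * (P * Q) := by
      rw [show (C 64 : ℚ[X]) = 64 from rfl]; ring
    have t2 : (16 * X ^ 2 * TT * Q ^ 2 : ℚ[X]) = (C 16 * X ^ 2) * (TT * (Q * Q)) := by
      rw [show (C 16 : ℚ[X]) = 16 from rfl]; ring
    have t3 : P ^ 2 = P * P := sq P
    rw [coeff_sub, coeff_sub, t1, t2, t3, cm hX2, cm hPk hQk, c1]
    · have hQQ : (Q * Q).natDegree ≤ k + k := natDegree_mul_le.trans (by omega)
      have hTQ : (TT * (Q * Q)).natDegree ≤ 2 + (k + k) := natDegree_mul_le.trans (by omega)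
      rw [show 2 + (k + 2 + k) = 2 + (2 + (k + k)) by ring, cm hX3 hTQ, cm hT hQQ, cm hQk hQk, c2,
        TT_coeff_two, show 2 + (2 + (k + k)) = (k + 2) + (k + 2) by ring, cm hPk hPk]
      ring
    · exact natDegree_mul_le.trans (by omega)
  have e3 : α = -32 * γ := by
    have h3 : (X * TT * (derivative P * Q - P * derivative Q)).coeff (2 + ((k + 2) + k)) =
        (64 * X ^ 2 * P * Q - 16 * X ^ 2 * TT * Q ^ 2 - P ^ 2).coeff (2 + ((k + 2) + k)) := by rw [h]
    rw [e1, e2] at h3
    have h4 : (α + 32 * γ) ^ 2 = 0 := by linarith [h3]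
    have h5 := pow_eq_zero_iff (two_ne_zero) |>.1 h4
    linarith
  have hγ0 : γ ≠ 0 := by
    intro h0
    have hα0 : α = 0 := by rw [e3, h0]; ring
    rcases le_total (P.natDegree - 2) Q.natDegree with h1 | h1
    · have : k = Q.natDegree := by rw [hk]; exact max_eq_left h1
      rw [hγ, this] at h0
      exact hQ (leadingCoeff_eq_zero.1 h0)
    · by_cases h2 : P.natDegree - 2 = Q.natDegree
      · have : k = Q.natDegree := by rw [hk, h2]; exact max_self _
        rw [hγ, this] at h0
        exact hQ (leadingCoeff_eq_zero.1 h0)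
      · have h3 : k + 2 = P.natDegree := by
          have : k = P.natDegree - 2 := by rw [hk]; exact max_eq_right h1
          omega
        rw [hα, h3] at hα0
        exact hP (leadingCoeff_eq_zero.1 hα0)
  -- the quotient
  have hdvd : Q ∣ P - X * TT * derivative Q := by
    have h1 : Q ∣ P * (P - X * TT * derivative Q) :=
      ⟨64 * X ^ 2 * P - 16 * X ^ 2 * TT * Q - X * TT * derivative P, by linear_combination h⟩
    exact hcop.symm.dvd_of_dvd_mul_left h1
  obtain ⟨K, hK⟩ := hdvd
  have hb : Q.natDegree = k := by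
    refine le_antisymm hQk ?_
    by_contra hlt
    push Not at hlt
    exact hγ0 (coeff_eq_zero_of_natDegree_lt hlt)
  have hdeg1 : (P - X * TT * derivative Q).natDegree ≤ 2 + k := by
    refine (natDegree_sub_le _ _).trans (max_le (by omega) ?_)
    rw [show X * TT * derivative Q = TT * (X * derivative Q) by ring]
    exact natDegree_mul_le.trans (by omega)
  have hK2 : K.natDegree ≤ 2 := by
    by_cases h0 : K = 0
    · rw [h0]; simp
    · rw [hK, natDegree_mul hQ h0, hb] at hdeg1
      omega
  have hKc2 : K.coeff 2 = -32 - 64 * k := by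
    have h1 : (Q * K).coeff (k + 2) = γ * K.coeff 2 := cm hQk hK2
    have h2 : (P - X * TT * derivative Q).coeff (k + 2) = α - 64 * (k * γ) := by
      rw [show X * TT * derivative Q = TT * (X * derivative Q) by ring, coeff_sub,
        show k + 2 = 2 + k by ring, cm hT dQ, cX, TT_coeff_two, show 2 + k = k + 2 by ring]
    rw [hK, h1, e3] at h2
    have h3 : γ * (K.coeff 2 - (-32 - 64 * k)) = 0 := by linear_combination h2
    rcases mul_eq_zero.1 h3 with h4 | h4
    · exact absurd h4 hγ0
    · linarith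
  have hQ0 : Q.coeff 0 ≠ 0 := by
    intro h0
    have h1 : X ∣ P := X_dvd_iff.2 hP0
    have h2 : X ∣ Q := X_dvd_iff.2 h0
    exact Polynomial.not_isUnit_X (hcop.isUnit_of_dvd' h1 h2)
  have hK0 : K.coeff 0 = 0 := by
    have h1 := congrArg (fun p : ℚ[X] => p.coeff 0) hK
    simp only [coeff_sub, mul_coeff_zero, hP0, coeff_X_zero, zero_mul, sub_zero] at h1
    rcases mul_eq_zero.1 h1.symm with h2 | h2
    · exact absurd h2 hQ0
    · exact h2
  -- modulo `TT`
  have hTp : Prime TT := TT_irr.prime
  have hTPQ : TT ∣ P * (P + Q) :=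
    ⟨P * Q - 16 * X ^ 2 * Q ^ 2 - X * (derivative P * Q - P * derivative Q), by
      have h64 : (64 * X ^ 2 : ℚ[X]) = TT - 1 := by rw [TT]; ring
      rw [h64] at h
      linear_combination h⟩
  have hTQ : ¬ TT ∣ Q := by
    intro h1
    have h2 : TT ∣ P := by
      rcases hTp.dvd_or_dvd hTPQ with h3 | h3
      · exact h3
      · exact (dvd_add_left h1).1 h3
    exact hTp.not_isUnit (hcop.isUnit_of_dvd' h2 h1)
  have hPK : P = Q * K + TT * (X * derivative Q) := by linear_combination hK
  rcases hTp.dvd_or_dvd hTPQ with h3 | h3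
  · have h4 : TT ∣ Q * K := by
      rw [hPK] at h3
      exact (dvd_add_left (dvd_mul_right _ _)).1 h3
    have h5 : TT ∣ K := (hTp.dvd_or_dvd h4).resolve_left hTQ
    have h6 := TT_ndvd hK2 0 hK0 h5
    rw [hKc2] at h6
    have : (0 : ℚ) ≤ k := Nat.cast_nonneg k
    linarith
  · have h4 : TT ∣ Q * (K + 1) := by
      rw [hPK, show Q * K + TT * (X * derivative Q) + Q = Q * (K + 1) + TT * (X * derivative Q) by
        ring] at h3
      exact (dvd_add_left (dvd_mul_right _ _)).1 h3
    have h5 : TT ∣ K + 1 := (hTp.dvd_or_dvd h4).resolve_left hTQ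
    have hd : (K + 1).natDegree ≤ 2 := (natDegree_add_le _ _).trans (max_le hK2 (by simp))
    have h6 := TT_ndvd hd 1 (by rw [coeff_add, hK0]; simp) h5
    rw [coeff_add, hKc2, coeff_one] at h6
    norm_num at h6
    have : (0 : ℚ) ≤ k := Nat.cast_nonneg k
    linarith

end Run7.h423
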