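import Mathlib
import Pool.Agent.Run7.h423.Iface
import Pool.Agent.Run7.h423.TTwoB

/-!
# G13: `E / A` is transcendental over `ℚ(w)`
-/

set_option autoImplicit false

namespace Run7.h423

open Polynomial

noncomputable section

/-- `E / A` -/
def RR : PowerSeries ℚ := E * A⁻¹

theorem A_ne : A ≠ 0 := by
  intro h
  have := A_const
  rw [h, map_zero] at this
  exact zero_ne_one this

theorem RR_mul : RR * A = E := by
  rw [RR, mul_assoc, mul_comm A⁻¹, A_mul_inv, mul_one]

theorem th_RR : th RR = 64 * w ^ 2 * RR - 16 * w ^ 2 * (1 + 64 * w ^ 2) - RR ^ 2 := by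
  have h1 : th (RR * A) = 64 * w ^ 2 * E - 16 * w ^ 2 * (1 + 64 * w ^ 2) * A := by
    rw [RR_mul, th_E]
  rw [Derivation.leibniz, smul_eq_mul, smul_eq_mul, th_A, ← RR_mul] at h1
  apply mul_right_cancel₀ A_ne
  linear_combination h1

theorem S_ne : S ≠ 0 := by
  intro h
  have h1 := S_sq
  rw [h] at h1
  have h2 := congrArg PowerSeries.constantCoeff h1
  simp [w_coeff_zero] at h2

theorem S_mul_inv : S * S⁻¹ = 1 := by
  apply PowerSeries.mul_inv_cancel
  intro h
  have h2 := congrArg PowerSeries.constantCoeff S_sq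
  simp [w_coeff_zero, h] at h2

theorem two_ne_ps : (2 : PowerSeries ℚ) ≠ 0 := by
  intro h
  have h2 := congrArg PowerSeries.constantCoeff h
  rw [map_zero, map_ofNat] at h2
  norm_num at h2

theorem th_S : th S = 64 * w ^ 2 * S := by
  have h1 : th (S ^ 2) = th (1 + 64 * w ^ 2) := by rw [S_sq]
  have h3 : th (64 : PowerSeries ℚ) = 0 := by
    have : (64 : PowerSeries ℚ) = ((64 : ℕ) : PowerSeries ℚ) := by norm_num
    rw [this]
    exact Derivation.map_natCast th 64
  rw [map_add, Derivation.map_one_eq_zero, zero_add, Derivation.leibniz, h3, Derivation.leibniz_pow,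
    Derivation.leibniz_pow, th_w] at h1
  simp only [smul_eq_mul, nsmul_eq_mul, smul_zero, add_zero] at h1
  norm_num at h1
  apply mul_left_cancel₀ (mul_ne_zero two_ne_ps S_ne)
  linear_combination h1 - 128 * w ^ 2 * S_sq

/-- `A ^ 2 / S` -/
def g0 : PowerSeries ℚ := A ^ 2 * S⁻¹

theorem g0_mul : g0 * S = A ^ 2 := by
  rw [g0, mul_assoc, mul_comm S⁻¹, S_mul_inv, mul_one]

theorem g0_ne : g0 ≠ 0 := by
  intro h
  have h1 := g0_mul
  rw [h, zero_mul] at h1
  exact pow_ne_zero 2 A_ne h1.symm

theorem th_g0 : th g0 = g0 * (2 * RR - 64 * w ^ 2) := by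
  have h1 : th (g0 * S) = th (A ^ 2) := by rw [g0_mul]
  rw [Derivation.leibniz, Derivation.leibniz_pow, th_S, th_A, ← RR_mul] at h1
  simp only [smul_eq_mul, nsmul_eq_mul] at h1
  norm_num at h1
  apply mul_right_cancel₀ S_ne
  linear_combination h1 - 2 * RR * g0_mul

theorem g0_th (f : PowerSeries ℚ) : g0 * th f = D f := by
  have h1 : th f = S * A⁻¹ ^ 2 * D f := rfl
  have h2 : g0 * (S * A⁻¹ ^ 2) = 1 := by
    rw [← mul_assoc, g0_mul, ← mul_pow, A_mul_inv, one_pow]
  rw [h1, ← mul_assoc, h2, one_mul]

/-- evaluation at `w` -/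
def evR : ℚ[X] →+* PowerSeries ℚ := (Polynomial.aeval w : ℚ[X] →ₐ[ℚ] PowerSeries ℚ).toRingHom

theorem evR_apply (p : ℚ[X]) : evR p = ev p := rfl

theorem ev_inj : ∀ (n : ℕ) (p : ℚ[X]), p.natDegree ≤ n → evR p = 0 → p = 0 := by
  intro n
  induction n with
  | zero =>
    intro p hp h
    obtain ⟨c, rfl⟩ := natDegree_eq_zero.1 (Nat.le_zero.1 hp)
    have h1 : (algebraMap ℚ (PowerSeries ℚ)) c = 0 := by
      rw [← Polynomial.aeval_C (x := w)]; exact h
    have h2 := congrArg PowerSeries.constantCoeff h1
    rw [map_zero] at h2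
    have h3 : c = 0 := by simpa using h2
    rw [h3, map_zero]
  | succ n ih =>
    intro p hp h
    have h0 : p.coeff 0 = 0 := by
      have h2 := congrArg PowerSeries.constantCoeff h
      rw [map_zero, ← Polynomial.divX_mul_X_add p, map_add, map_mul, map_add, map_mul] at h2
      have e1 : evR X = w := Polynomial.aeval_X w
      have e2 : evR (C (p.coeff 0)) = algebraMap ℚ (PowerSeries ℚ) (p.coeff 0) :=
        Polynomial.aeval_C w _
      rw [e1, e2, w_coeff_zero, mul_zero, zero_add] at h2
      simpa using h2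
    have h1 : p = p.divX * X := by
      conv_lhs => rw [← Polynomial.divX_mul_X_add p, h0, map_zero, add_zero]
    have e1 : evR X = w := Polynomial.aeval_X w
    have h2 : evR p.divX = 0 := by
      rw [h1, map_mul, e1] at h
      rcases mul_eq_zero.1 h with h3 | h3
      · exact h3
      · exfalso
        have := w_coeff_one
        rw [h3, map_zero] at this
        exact zero_ne_one this
    have h3 : p.divX.natDegree ≤ n := by
      rw [Polynomial.natDegree_divX_eq_natDegree_tsub_one]; omega
    rw [h1, ih _ h3 h2, zero_mul]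

theorem evR_inj {p : ℚ[X]} (h : evR p = 0) : p = 0 := ev_inj _ p le_rfl h

/-- the derivation on `ℚ[Y]` -/
def dY : Derivation ℚ ℚ[X] ℚ[X] := (X * TT) • Polynomial.derivative'

theorem dY_apply (p : ℚ[X]) : dY p = X * TT * derivative p := rfl

theorem evR_TT : evR TT = 1 + 64 * w ^ 2 := by
  have e1 : evR X = w := Polynomial.aeval_X w
  rw [TT, map_add, map_mul, map_pow, e1, map_one, map_ofNat]

theorem th_evR (p : ℚ[X]) : th (evR p) = evR (dY p) := by
  have e1 : evR X = w := Polynomial.aeval_X w
  have h1 : th (Polynomial.aeval w p) = Polynomial.aeval w (derivative p) • th w :=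
    Derivation.map_aeval th p w
  have h2 : th (evR p) = evR (derivative p) * th w := h1
  rw [h2, th_w, dY_apply, map_mul, map_mul, e1, evR_TT]
  ring

/-- the coefficientwise derivation on `ℚ[Y][X]` -/
def dc : Derivation ℚ ℚ[X][X] ℚ[X][X] :=
  PolynomialModule.equivPolynomialSelf.compDer (dY.mapCoeffs)

theorem coeff_dc (P : ℚ[X][X]) (n : ℕ) : (dc P).coeff n = dY (P.coeff n) := rfl

theorem dc_monomial (n : ℕ) (a : ℚ[X]) : dc (monomial n a) = monomial n (dY a) := by
  ext1 m
  rw [coeff_dc, coeff_monomial, coeff_monomial]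
  split_ifs <;> simp

theorem dc_derivative (P : ℚ[X][X]) : derivative (dc P) = dc (derivative P) := by
  ext1 n
  rw [coeff_dc, coeff_derivative, coeff_derivative, coeff_dc, Derivation.leibniz, smul_eq_mul,
    smul_eq_mul]
  have h : dY ((n : ℚ[X]) + 1) = 0 := by
    rw [map_add, Derivation.map_natCast, Derivation.map_one_eq_zero, add_zero]
  rw [h, mul_zero, zero_add, mul_comm]

/-- evaluation at `(w, E / A)` -/
def EV : ℚ[X][X] →+* PowerSeries ℚ := Polynomial.eval₂RingHom evR RR

theorem EV_monomial (n : ℕ) (a : ℚ[X]) : EV (monomial n a) = evR a * RR ^ n :=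
  Polynomial.eval₂_monomial _ _

theorem EV_C (a : ℚ[X]) : EV (C a) = evR a := Polynomial.eval₂_C _ _
theorem EV_X : EV X = RR := Polynomial.eval₂_X _ _

/-- the value of the derivation at `X` -/
def rho : ℚ[X][X] := C (64 * X ^ 2) * X - C (16 * X ^ 2 * TT) - X ^ 2

theorem EV_rho : EV rho = th RR := by
  have e1 : evR X = w := Polynomial.aeval_X w
  rw [rho, map_sub, map_sub, map_mul, map_pow, EV_C, EV_C, EV_X, th_RR, map_mul, map_mul, map_mul,
    map_pow, map_ofNat, map_ofNat, e1, evR_TT]

theorem th_EV (P : ℚ[X][X]) : th (EV P) = EV (dc P + rho * derivative P) := by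
  induction P using Polynomial.induction_on' with
  | add p q hp hq =>
    have e1 : dc (p + q) = dc p + dc q := map_add dc p q
    rw [map_add EV, map_add th, hp, hq, e1, derivative_add, ← map_add EV]
    congr 1
    ring
  | monomial n a =>
    rw [EV_monomial, Derivation.leibniz, Derivation.leibniz_pow, th_evR, dc_monomial,
      derivative_monomial, map_add, map_mul, EV_monomial, EV_monomial, EV_rho, map_mul,
      map_natCast]
    simp only [smul_eq_mul, nsmul_eq_mul]
    ring

theorem rho_derivative : derivative rho = C (64 * X ^ 2) - 2 * X := by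
  rw [rho, derivative_sub, derivative_sub, derivative_C_mul, derivative_X, derivative_C,
    derivative_X_pow]
  simp only [mul_one, sub_zero, Nat.cast_ofNat, Nat.add_one_sub_one, pow_one]
  rfl

theorem EV_rho' : EV (derivative rho) = 64 * w ^ 2 - 2 * RR := by
  have e1 : evR X = w := Polynomial.aeval_X w
  rw [rho_derivative, map_sub, map_mul EV 2 X, EV_C, EV_X, map_mul, map_pow, map_ofNat, map_ofNat,
    e1]

theorem rho_derivative2 : derivative (derivative rho) = -2 := by
  rw [rho_derivative]
  simp

theorem const_RR : PowerSeries.constantCoeff RR = 0 := by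
  have h1 : PowerSeries.constantCoeff (D A) = 0 := by
    rw [← PowerSeries.coeff_zero_eq_constantCoeff_apply, coeff_D]
    simp
  have h2 : E = S * A⁻¹ ^ 2 * D A := rfl
  rw [RR, h2, map_mul, map_mul, h1, mul_zero, zero_mul]

/-- no relation of degree one -/
theorem no_linear (P Q : ℚ[X]) (hQ : Q ≠ 0) (h : evR Q * RR = evR P) : False := by
  classical
  set d := GCDMonoid.gcd P Q with hd
  obtain ⟨P', hP'⟩ : d ∣ P := gcd_dvd_left P Q
  obtain ⟨Q', hQ'⟩ : d ∣ Q := gcd_dvd_right P Q
  have hd0 : d ≠ 0 := by
    rintro h0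
    rw [h0, zero_mul] at hQ'
    exact hQ hQ'
  have hcop : IsCoprime P' Q' := by
    have h1 := isCoprime_div_gcd_div_gcd (p := P) (q := Q) hQ
    rw [← hd] at h1
    have e1 : P / d = P' := by
      conv_lhs => rw [hP']
      exact mul_div_cancel_left₀ _ hd0
    have e2 : Q / d = Q' := by
      conv_lhs => rw [hQ']
      exact mul_div_cancel_left₀ _ hd0
    rwa [e1, e2] at h1
  have hR : evR Q' * RR = evR P' := by
    have hd1 : evR d ≠ 0 := fun h0 => hd0 (evR_inj h0)
    rw [hP', hQ', map_mul, map_mul] at h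
    apply mul_left_cancel₀ hd1
    linear_combination h
  refine ric P' Q' hcop ?_ ?_
  · have h1 := congrArg PowerSeries.constantCoeff hR
    rw [map_mul, const_RR, mul_zero] at h1
    have h2 : ∀ p : ℚ[X], PowerSeries.constantCoeff (evR p) = p.coeff 0 := by
      intro p
      have e1 : evR X = w := Polynomial.aeval_X w
      have e2 : evR (C (p.coeff 0)) = algebraMap ℚ (PowerSeries ℚ) (p.coeff 0) :=
        Polynomial.aeval_C w _
      conv_lhs => rw [← Polynomial.divX_mul_X_add p]
      rw [map_add, map_mul, e1, e2, map_add, map_mul, w_coeff_zero, mul_zero, zero_add]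
      simp
    rw [h2] at h1
    exact h1.symm
  · have h1 : th (evR Q' * RR) = th (evR P') := by rw [hR]
    rw [Derivation.leibniz, th_evR, th_evR, smul_eq_mul, smul_eq_mul, th_RR] at h1
    have e1 : evR X = w := Polynomial.aeval_X w
    rw [← sub_eq_zero]
    apply evR_inj
    have h2 : evR (X * TT * (derivative P' * Q' - P' * derivative Q') -
        (64 * X ^ 2 * P' * Q' - 16 * X ^ 2 * TT * Q' ^ 2 - P' ^ 2)) =
        evR (dY P') * evR Q' - evR P' * evR (dY Q') -
        (64 * w ^ 2 * evR P' * evR Q' - 16 * w ^ 2 * (1 + 64 * w ^ 2) * evR Q' ^ 2 - evR P' ^ 2)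
        := by
      rw [dY_apply, dY_apply]
      simp only [map_sub, map_mul, map_pow, map_ofNat, e1, evR_TT]
      ring
    rw [h2, ← hR]
    linear_combination (-evR Q') * h1

/-- `E / A` is transcendental. -/
theorem EV_inj (P : ℚ[X][X]) (h : EV P = 0) : P = 0 := by
  by_contra hP
  -- a relation of minimal degree
  obtain ⟨P, ⟨hP, h⟩, hmin⟩ : ∃ P : ℚ[X][X], (P ≠ 0 ∧ EV P = 0) ∧
      ∀ Q : ℚ[X][X], (Q ≠ 0 ∧ EV Q = 0) → P.natDegree ≤ Q.natDegree := by
    obtain ⟨P', hP', hm⟩ := (measure (fun Q : ℚ[X][X] => Q.natDegree)).wf.has_min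
      {Q | Q ≠ 0 ∧ EV Q = 0} ⟨P, hP, h⟩
    exact ⟨P', hP', fun Q hQ => not_lt.1 (hm Q hQ)⟩
  set n := P.natDegree with hn
  have hn1 : 1 ≤ n := by
    by_contra h0
    have h1 : P.natDegree = 0 := by omega
    obtain ⟨c, rfl⟩ := natDegree_eq_zero.1 h1
    rw [EV_C] at h
    exact hP (by rw [evR_inj h, map_zero])
  set pn := P.leadingCoeff with hpn
  have hpn0 : pn ≠ 0 := leadingCoeff_ne_zero.2 hP
  have hsmall : ∀ V : ℚ[X][X], EV V = 0 → (∀ m, n ≤ m → V.coeff m = 0) → V = 0 := by
    intro V hV hc
    by_contra hV0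
    have h1 := hmin V ⟨hV0, hV⟩
    exact hV0 (leadingCoeff_eq_zero.1 (hc _ h1))
  have hP1 : EV (derivative P) ≠ 0 := by
    intro h0
    have h1 : derivative P = 0 := by
      refine hsmall _ h0 fun m hm => ?_
      rw [coeff_derivative, coeff_eq_zero_of_natDegree_lt (by omega), zero_mul]
    have h2 := Polynomial.derivative_eq_zero.1 h1
    omega
  set U : ℚ[X][X] := dc P + rho * derivative P + C (n : ℚ[X]) * X * P with hU
  have hEU : EV U = 0 := by
    rw [hU, map_add, ← th_EV, h, map_zero, zero_add, map_mul, h, mul_zero]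
  have hUdeg : ∀ m, n < m → U.coeff m = 0 := by
    intro m hm
    have hrho : rho.natDegree ≤ 2 := by
      rw [rho]
      compute_degree
    have hrho2 : rho.coeff 2 = -1 := by
      rw [rho, coeff_sub, coeff_sub, coeff_C_mul, coeff_X_of_ne_one (by norm_num),
        coeff_C_of_ne_zero (by norm_num), coeff_X_pow_self]
      ring
    have hd : (derivative P).natDegree ≤ n - 1 := natDegree_derivative_le P
    have c1 : (dc P).coeff m = 0 := by
      rw [coeff_dc, coeff_eq_zero_of_natDegree_lt (by omega), map_zero]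
    have c3 : (C (n : ℚ[X]) * X * P).coeff m = n * P.coeff (m - 1) := by
      obtain ⟨k, rfl⟩ : ∃ k, m = k + 1 := ⟨m - 1, by omega⟩
      rw [mul_assoc, coeff_C_mul, coeff_X_mul, Nat.add_sub_cancel]
    have c2 : (rho * derivative P).coeff m = - (n * P.coeff (m - 1)) := by
      by_cases hm2 : m = n + 1
      · have e : m = 2 + (n - 1) := by omega
        rw [e, coeff_mul_add_eq_of_natDegree_le hrho hd, hrho2, coeff_derivative,
          show 2 + (n - 1) - 1 = n by omega, show n - 1 + 1 = n by omega]
        have : ((n - 1 : ℕ) : ℚ[X]) + 1 = n := by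
          exact_mod_cast congrArg (Nat.cast (R := ℚ[X])) (show n - 1 + 1 = n by omega)
        rw [this]
        ring
      · rw [coeff_eq_zero_of_natDegree_lt, coeff_eq_zero_of_natDegree_lt (show P.natDegree < m - 1
          by omega), mul_zero, neg_zero]
        exact lt_of_le_of_lt natDegree_mul_le (by omega)
    rw [hU, coeff_add, coeff_add, c1, c2, c3]
    ring
  set e := U.coeff n with he
  have hV : C pn * U - C e * P = 0 := by
    apply hsmall
    · rw [map_sub, map_mul, map_mul, hEU, h, mul_zero, mul_zero, sub_zero]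
    · intro m hm
      rw [coeff_sub, coeff_C_mul, coeff_C_mul]
      rcases Nat.lt_or_ge n m with h1 | h1
      · rw [hUdeg m h1, coeff_eq_zero_of_natDegree_lt (show P.natDegree < m from h1), mul_zero,
          mul_zero, sub_zero]
      · have : m = n := le_antisymm h1 hm
        rw [this, ← he, hpn, leadingCoeff, ← hn]
        ring
  have hV2 := congrArg derivative hV
  have hV3 := congrArg derivative hV2
  have i1 : C pn * (dc (derivative P) + derivative rho * derivative P +
      rho * derivative (derivative P) + C (n : ℚ[X]) * P + C (n : ℚ[X]) * X * derivative P) -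
      C e * derivative P = 0 := by
    rw [derivative_zero, derivative_sub, derivative_C_mul, derivative_C_mul, hU, derivative_add,
      derivative_add, derivative_mul, derivative_mul, derivative_C_mul, derivative_X,
      dc_derivative] at hV2
    linear_combination hV2
  have i2 : C pn * (dc (derivative (derivative P)) + derivative (derivative rho) * derivative P +
      2 * derivative rho * derivative (derivative P) +
      rho * derivative (derivative (derivative P)) + 2 * C (n : ℚ[X]) * derivative P +
      C (n : ℚ[X]) * X * derivative (derivative P)) -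
      C e * derivative (derivative P) = 0 := by
    have := congrArg derivative i1
    rw [derivative_zero, derivative_sub, derivative_C_mul, derivative_C_mul, derivative_add,
      derivative_add, derivative_add, derivative_add, derivative_mul, derivative_mul,
      derivative_C_mul, derivative_mul, derivative_C_mul, derivative_X, dc_derivative] at this
    linear_combination this
  set R1 := EV (derivative P) with hR1
  set R2 := EV (derivative (derivative P)) with hR2
  have t1 : th R1 = EV (dc (derivative P)) + EV rho * R2 := by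
    rw [hR1, th_EV, map_add, map_mul]
  have t2 : th R2 = EV (dc (derivative (derivative P))) +
      EV rho * EV (derivative (derivative (derivative P))) := by
    rw [hR2, th_EV, map_add, map_mul]
  have k1 : evR pn * (th R1 + EV (derivative rho) * R1 + n * RR * R1) = evR e * R1 := by
    have := congrArg EV i1
    rw [map_zero, map_sub, map_mul, map_mul, EV_C, EV_C, map_add, map_add, map_add, map_add,
      map_mul, map_mul, map_mul, map_mul, map_mul, EV_C, EV_X, h, map_natCast, ← hR1, ← hR2] at this
    rw [t1]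
    linear_combination this
  have k2 : evR pn * (th R2 + (-2) * R1 + 2 * EV (derivative rho) * R2 + 2 * n * R1 +
      n * RR * R2) = evR e * R2 := by
    have := congrArg EV i2
    rw [rho_derivative2] at this
    simp only [map_zero, map_sub, map_mul, map_add, EV_C, EV_X, map_natCast, map_neg, map_ofNat]
      at this
    rw [← hR1, ← hR2] at this
    rw [t2]
    linear_combination this
  have hw0 : evR pn ≠ 0 := fun h0 => hpn0 (evR_inj h0)
  have key : D R2 * (R1 * g0) - R2 * D (R1 * g0) =
      PowerSeries.C (-2 * ((n : ℚ) - 1)) * (R1 * g0) ^ 2 := by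
    have hc : PowerSeries.C (-2 * ((n : ℚ) - 1)) = -2 * ((n : PowerSeries ℚ) - 1) := by
      rw [map_mul, map_neg, map_sub, map_natCast, map_one, map_ofNat]
    rw [hc, ← g0_th, ← g0_th, Derivation.leibniz, smul_eq_mul, smul_eq_mul, th_g0]
    apply mul_left_cancel₀ hw0
    rw [EV_rho'] at k1 k2
    linear_combination g0 ^ 2 * R1 * k2 - g0 ^ 2 * R2 * k1
  have hn1' := no_log (mul_ne_zero hP1 g0_ne) key
  have hn2 : n = 1 := by
    have h1 : ((n : ℚ) - 1) = 0 := by linarith
    have h2 : (n : ℚ) = 1 := by linarith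
    exact_mod_cast h2
  -- degree one
  have hlin : P = C (P.coeff 1) * X + C (P.coeff 0) :=
    eq_X_add_C_of_natDegree_le_one (by omega)
  have hq : P.coeff 1 ≠ 0 := by
    rw [← hn2, hn]
    exact leadingCoeff_ne_zero.2 hP
  refine no_linear (-P.coeff 0) (P.coeff 1) hq ?_
  rw [hlin, map_add, map_mul, EV_C, EV_C, EV_X] at h
  rw [map_neg]
  linear_combination h

/-- `t_two`: `E / A` is transcendental over `ℚ(w)`. -/
theorem t_two' (n : ℕ) (p : ℕ → Polynomial ℚ)
    (h0 : ∑ b ∈ Finset.range (n + 1), ev (p b) * A ^ (n - b) * E ^ b = 0) :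
    ∀ b ≤ n, p b = 0 := by
  have h1 : EV (∑ b ∈ Finset.range (n + 1), monomial b (p b)) = 0 := by
    apply mul_left_cancel₀ (pow_ne_zero n A_ne)
    rw [mul_zero, ← h0, map_sum, Finset.mul_sum]
    refine Finset.sum_congr rfl fun b hb => ?_
    have hb' : b ≤ n := by
      have := Finset.mem_range.1 hb
      omega
    rw [EV_monomial, evR_apply, ← RR_mul, mul_pow]
    conv_lhs => rw [← Nat.sub_add_cancel hb', pow_add]
    ring
  have h2 := EV_inj _ h1
  intro b hb
  have h3 := congrArg (fun q : ℚ[X][X] => q.coeff b) h2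
  simp only [finsetSum_coeff, coeff_monomial, coeff_zero] at h3
  rw [Finset.sum_ite_eq' (Finset.range (n + 1)) b] at h3
  rw [if_pos (Finset.mem_range.2 (by omega))] at h3
  exact h3

end

end Run7.h423
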