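import Pool.Agent.Run7.h423.Defs

/-!
# Two theta identities (piece G1, helper333)
-/

set_option autoImplicit false

namespace Run7.h423

noncomputable section

open PowerSeries

namespace G1

/-- the integers of absolute value at most `N` -/
def bx (N : ℕ) : Finset ℤ := Finset.Icc (-(N : ℤ)) N

theorem mem_bx {N : ℕ} {x : ℤ} : x ∈ bx N ↔ -(N : ℤ) ≤ x ∧ x ≤ N := by
  simp [bx]

theorem le_sq (x : ℤ) : x ≤ x ^ 2 := by
  rcases le_or_gt x 0 with h | h
  · nlinarith [sq_nonneg x]
  · nlinarith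

theorem mem_bx_of_sq {N : ℕ} {x : ℤ} (h : x ^ 2 ≤ N) : x ∈ bx N := by
  rw [mem_bx]
  have h1 := le_sq x
  have h2 := le_sq (-x)
  rw [neg_sq] at h2
  omega

theorem sum_sq (n N : ℕ) (h : n ≤ N) :
    (∑ x ∈ bx N, if x ^ 2 = (n : ℤ) then (1 : ℚ) else 0) =
      if n = 0 then 1 else if IsSquare n then 2 else 0 := by
  by_cases h0 : n = 0
  · subst h0
    rw [if_pos rfl, Finset.sum_eq_single 0]
    · simp
    · intro x _ hx
      rw [if_neg]
      simpa using hx
    · intro h0
      exact absurd (mem_bx_of_sq (by simp)) h0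
  rw [if_neg h0]
  by_cases hs : IsSquare n
  · obtain ⟨m, rfl⟩ := hs
    rw [if_pos ⟨m, rfl⟩]
    have hm : m ≠ 0 := by
      rintro rfl
      exact h0 rfl
    rw [← Finset.sum_filter]
    have e : (bx N).filter (fun x => x ^ 2 = ((m * m : ℕ) : ℤ)) = {(m : ℤ), -(m : ℤ)} := by
      ext x
      rw [Finset.mem_filter, Finset.mem_insert, Finset.mem_singleton]
      constructor
      · rintro ⟨-, hx⟩
        have h1 : (x - m) * (x + m) = 0 := by push_cast at hx; linear_combination hx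
        rcases mul_eq_zero.1 h1 with h2 | h2
        · left; linarith
        · right; linarith
      · intro hx
        have h1 : x ^ 2 = ((m * m : ℕ) : ℤ) := by
          rcases hx with rfl | rfl
          · push_cast; ring
          · push_cast; ring
        exact ⟨mem_bx_of_sq (by rw [h1]; exact_mod_cast h), h1⟩
    rw [e, Finset.sum_pair]
    · norm_num
    · intro h1
      have : (m : ℤ) = 0 := by linarith
      exact hm (by exact_mod_cast this)
  · rw [if_neg hs]
    refine Finset.sum_eq_zero fun x _ => ?_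
    rw [if_neg]
    intro hx
    apply hs
    refine ⟨x.natAbs, ?_⟩
    zify
    rw [← hx, ← sq, sq_abs]

theorem coeff_phi (n N : ℕ) (h : n ≤ N) :
    coeff n phi = ∑ x ∈ bx N, if x ^ 2 = (n : ℤ) then (1 : ℚ) else 0 := by
  rw [sum_sq n N h, phi, coeff_mk]

theorem neg_one_pow_sq {x : ℤ} {n : ℕ} (h : x ^ 2 = n) : ((-1 : ℚ)) ^ n = (-1) ^ x.natAbs := by
  have h1 : n = x.natAbs ^ 2 := by
    zify
    rw [← h, sq_abs]
  rw [h1, sq, pow_mul]
  rcases Nat.even_or_odd x.natAbs with h2 | h2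
  · rw [h2.neg_one_pow, one_pow]
  · rw [h2.neg_one_pow, h2.neg_one_pow]

theorem coeff_phim (n N : ℕ) (h : n ≤ N) :
    coeff n phim = ∑ x ∈ bx N, if x ^ 2 = (n : ℤ) then (-1 : ℚ) ^ x.natAbs else 0 := by
  rw [phim, coeff_mk, coeff_phi n N h, Finset.mul_sum]
  refine Finset.sum_congr rfl fun x _ => ?_
  split_ifs with hx
  · rw [mul_one, neg_one_pow_sq hx]
  · rw [mul_zero]

theorem coeff_two {f g : ℚ⟦X⟧} {a b : ℤ → ℚ}
    (hf : ∀ n N : ℕ, n ≤ N → coeff n f = ∑ x ∈ bx N, if x ^ 2 = (n : ℤ) then a x else 0)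
    (hg : ∀ n N : ℕ, n ≤ N → coeff n g = ∑ x ∈ bx N, if x ^ 2 = (n : ℤ) then b x else 0)
    (n N : ℕ) (h : n ≤ N) :
    coeff n (f * g) = ∑ x ∈ bx N, ∑ y ∈ bx N, if x ^ 2 + y ^ 2 = (n : ℤ) then a x * b y else 0 := by
  rw [coeff_mul]
  have h1 : ∀ p ∈ Finset.HasAntidiagonal.antidiagonal n, coeff p.1 f * coeff p.2 g =
      ∑ x ∈ bx N, ∑ y ∈ bx N, if x ^ 2 = (p.1 : ℤ) ∧ y ^ 2 = (p.2 : ℤ) then a x * b y else 0 := by
    intro p hp
    have hp' := Finset.HasAntidiagonal.mem_antidiagonal.1 hp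
    rw [hf p.1 N (by omega), hg p.2 N (by omega), Finset.sum_mul_sum]
    refine Finset.sum_congr rfl fun x _ => Finset.sum_congr rfl fun y _ => ?_
    by_cases h1 : x ^ 2 = (p.1 : ℤ)
    · by_cases h2 : y ^ 2 = (p.2 : ℤ)
      · rw [if_pos h1, if_pos h2, if_pos ⟨h1, h2⟩]
      · rw [if_neg h2, mul_zero, if_neg fun h => h2 h.2]
    · rw [if_neg h1, zero_mul, if_neg fun h => h1 h.1]
  rw [Finset.sum_congr rfl h1, Finset.sum_comm]
  refine Finset.sum_congr rfl fun x _ => ?_
  rw [Finset.sum_comm]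
  refine Finset.sum_congr rfl fun y _ => ?_
  have hx : ((x.natAbs ^ 2 : ℕ) : ℤ) = x ^ 2 := by
    push_cast
    exact sq_abs x
  have hy : ((y.natAbs ^ 2 : ℕ) : ℤ) = y ^ 2 := by
    push_cast
    exact sq_abs y
  by_cases hxy : x ^ 2 + y ^ 2 = (n : ℤ)
  · rw [if_pos hxy, Finset.sum_eq_single (x.natAbs ^ 2, y.natAbs ^ 2)]
    · rw [if_pos ⟨hx.symm, hy.symm⟩]
    · rintro ⟨i, j⟩ _ hij
      rw [if_neg]
      rintro ⟨h1, h2⟩
      apply hij
      simp only at h1 h2
      rw [← hx] at h1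
      rw [← hy] at h2
      have h3 : x.natAbs ^ 2 = i := by exact_mod_cast h1
      have h4 : y.natAbs ^ 2 = j := by exact_mod_cast h2
      rw [h3, h4]
    · intro hno
      exfalso
      apply hno
      rw [Finset.HasAntidiagonal.mem_antidiagonal]
      zify
      rw [sq_abs, sq_abs]
      exact hxy
  · rw [if_neg hxy]
    refine Finset.sum_eq_zero ?_
    rintro ⟨i, j⟩ hp
    rw [if_neg]
    rintro ⟨h1, h2⟩
    apply hxy
    rw [Finset.HasAntidiagonal.mem_antidiagonal] at hp
    simp only at h1 h2 hp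
    rw [h1, h2]
    exact_mod_cast hp

/-- the substitution `x = u + v`, `y = u - v` -/
theorem bij (m : ℕ) (G : ℤ → ℤ → ℚ) :
    (∑ x ∈ bx (2 * m), ∑ y ∈ bx (2 * m), if x ^ 2 + y ^ 2 = ((2 * m : ℕ) : ℤ) then G x y else 0) =
      ∑ u ∈ bx m, ∑ v ∈ bx m, if u ^ 2 + v ^ 2 = (m : ℤ) then G (u + v) (u - v) else 0 := by
  rw [← Finset.sum_product', ← Finset.sum_product', ← Finset.sum_filter, ← Finset.sum_filter]
  have key : ∀ p ∈ (bx (2 * m) ×ˢ bx (2 * m)).filter
      (fun p : ℤ × ℤ => p.1 ^ 2 + p.2 ^ 2 = ((2 * m : ℕ) : ℤ)), ∃ u v : ℤ, p.1 = u + v ∧ p.2 = u - v := by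
    rintro ⟨x, y⟩ hp
    rw [Finset.mem_filter] at hp
    have h2 := hp.2
    simp only at h2
    have h3 : Even (x + y) := by
      have h4 : Even (x ^ 2 + y ^ 2) := by
        rw [h2]
        exact ⟨m, by push_cast; ring⟩
      rw [Int.even_add, Int.even_pow' two_ne_zero, Int.even_pow' two_ne_zero] at h4
      rw [Int.even_add]
      exact h4
    obtain ⟨u, hu⟩ := h3
    exact ⟨u, x - u, by simp, by simp only; linarith⟩
  refine Finset.sum_nbij' (fun p => ((p.1 + p.2) / 2, (p.1 - p.2) / 2))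
    (fun p => (p.1 + p.2, p.1 - p.2)) ?_ ?_ ?_ ?_ ?_
  · rintro ⟨x, y⟩ hp
    obtain ⟨u, v, hu, hv⟩ := key _ hp
    rw [Finset.mem_filter] at hp
    simp only at hu hv hp
    have e1 : (x + y) / 2 = u := by omega
    have e2 : (x - y) / 2 = v := by omega
    have e3 : u ^ 2 + v ^ 2 = (m : ℤ) := by
      have := hp.2
      rw [hu, hv] at this
      push_cast at this
      have h5 : 2 * (u ^ 2 + v ^ 2) = 2 * (m : ℤ) := by linear_combination this
      linarith
    simp only [e1, e2]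
    rw [Finset.mem_filter, Finset.mem_product]
    exact ⟨⟨mem_bx_of_sq (by nlinarith [sq_nonneg v]), mem_bx_of_sq (by nlinarith [sq_nonneg u])⟩, e3⟩
  · rintro ⟨u, v⟩ hp
    rw [Finset.mem_filter] at hp
    have h2 := hp.2
    simp only at h2
    have e3 : (u + v) ^ 2 + (u - v) ^ 2 = ((2 * m : ℕ) : ℤ) := by
      push_cast
      linear_combination 2 * h2
    simp only
    rw [Finset.mem_filter, Finset.mem_product]
    refine ⟨⟨mem_bx_of_sq ?_, mem_bx_of_sq ?_⟩, e3⟩
    · rw [← e3]; nlinarith [sq_nonneg (u - v)]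
    · rw [← e3]; nlinarith [sq_nonneg (u + v)]
  · rintro ⟨x, y⟩ hp
    obtain ⟨u, v, hu, hv⟩ := key _ hp
    simp only at hu hv
    simp only [Prod.mk.injEq]
    constructor <;> omega
  · rintro ⟨u, v⟩ hp
    simp only [Prod.mk.injEq]
    constructor <;> omega
  · rintro ⟨x, y⟩ hp
    obtain ⟨u, v, hu, hv⟩ := key _ hp
    simp only at hu hv
    have e1 : (x + y) / 2 = u := by omega
    have e2 : (x - y) / 2 = v := by omega
    simp only [e1, e2, ← hu, ← hv]

theorem par_add (u v : ℤ) : (-1 : ℚ) ^ (u + v).natAbs * (-1 : ℚ) ^ (u - v).natAbs = 1 := by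
  rw [← pow_add]
  apply Even.neg_one_pow
  rw [Nat.even_add, Int.natAbs_even, Int.natAbs_even, Int.even_add, Int.even_sub]

theorem par_sub (u v : ℤ) : (-1 : ℚ) ^ (u - v).natAbs = (-1 : ℚ) ^ u.natAbs * (-1) ^ v.natAbs := by
  rw [← pow_add]
  rcases Int.even_or_odd (u - v) with h | h
  · rw [(Int.natAbs_even.2 h).neg_one_pow]
    symm
    apply Even.neg_one_pow
    rw [Nat.even_add, Int.natAbs_even, Int.natAbs_even]
    exact Int.even_sub.1 h
  · rw [(Int.natAbs_odd.2 h).neg_one_pow]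
    symm
    apply Odd.neg_one_pow
    rw [Nat.odd_add, Int.natAbs_odd, Int.natAbs_even]
    exact Int.odd_sub.1 h

end G1

open G1

theorem phi_sq_add' : phi ^ 2 + phim ^ 2 = 2 * (expand 2 two_ne_zero phi) ^ 2 := by
  ext n
  rw [← map_pow, sq, sq, map_add]
  have e2 : (2 : ℚ⟦X⟧) * expand 2 two_ne_zero (phi * phi) =
      expand 2 two_ne_zero (phi * phi) + expand 2 two_ne_zero (phi * phi) := by ring
  rw [e2, map_add]
  rcases Nat.even_or_odd' n with ⟨m, rfl | rfl⟩
  · rw [coeff_two coeff_phi coeff_phi (2 * m) (2 * m) le_rfl,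
      coeff_two coeff_phim coeff_phim (2 * m) (2 * m) le_rfl, bij m, bij m, coeff_expand_mul,
      coeff_two coeff_phi coeff_phi m m le_rfl]
    congr 1
    refine Finset.sum_congr rfl fun u _ => Finset.sum_congr rfl fun v _ => ?_
    rw [par_add, mul_one]
  · rw [coeff_expand_of_not_dvd _ _ _ (by omega), add_zero,
      coeff_two coeff_phi coeff_phi (2 * m + 1) (2 * m + 1) le_rfl,
      coeff_two coeff_phim coeff_phim (2 * m + 1) (2 * m + 1) le_rfl, ← Finset.sum_add_distrib]
    refine Finset.sum_eq_zero fun x _ => ?_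
    rw [← Finset.sum_add_distrib]
    refine Finset.sum_eq_zero fun y _ => ?_
    split_ifs with h
    · have h1 : Odd (x.natAbs + y.natAbs) := by
        have h2 : Odd (x ^ 2 + y ^ 2) := by
          rw [h]
          exact ⟨m, by push_cast; ring⟩
        rw [Int.odd_add, Int.odd_pow' two_ne_zero, Int.even_pow' two_ne_zero] at h2
        rw [Nat.odd_add, Int.natAbs_odd, Int.natAbs_even]
        exact h2
      rw [← pow_add, h1.neg_one_pow]
      ring
    · ring

theorem phi_mul_phim' : phi * phim = (expand 2 two_ne_zero phim) ^ 2 := by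
  ext n
  rw [← map_pow, sq]
  rcases Nat.even_or_odd' n with ⟨m, rfl | rfl⟩
  · rw [coeff_two coeff_phi coeff_phim (2 * m) (2 * m) le_rfl, bij m, coeff_expand_mul,
      coeff_two coeff_phim coeff_phim m m le_rfl]
    refine Finset.sum_congr rfl fun u _ => Finset.sum_congr rfl fun v _ => ?_
    rw [par_sub, one_mul]
  · rw [coeff_expand_of_not_dvd _ _ _ (by omega),
      coeff_two coeff_phi coeff_phim (2 * m + 1) (2 * m + 1) le_rfl]
    set s := ∑ x ∈ bx (2 * m + 1), ∑ y ∈ bx (2 * m + 1),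
      if x ^ 2 + y ^ 2 = ((2 * m + 1 : ℕ) : ℤ) then (1 : ℚ) * (-1) ^ y.natAbs else 0 with hs
    have h1 : s = - s := by
      conv_lhs => rw [hs, Finset.sum_comm]
      rw [hs, ← Finset.sum_neg_distrib]
      refine Finset.sum_congr rfl fun x _ => ?_
      rw [← Finset.sum_neg_distrib]
      refine Finset.sum_congr rfl fun y _ => ?_
      rw [add_comm (y ^ 2)]
      split_ifs with h
      · have h1 : Odd (x.natAbs + y.natAbs) := by
          have h2 : Odd (x ^ 2 + y ^ 2) := by
            rw [h]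
            exact ⟨m, by push_cast; ring⟩
          rw [Int.odd_add, Int.odd_pow' two_ne_zero, Int.even_pow' two_ne_zero] at h2
          rw [Nat.odd_add, Int.natAbs_odd, Int.natAbs_even]
          exact h2
        rw [one_mul, one_mul]
        rcases Nat.even_or_odd x.natAbs with h2 | h2
        · have h3 : Odd y.natAbs := by
            rw [add_comm] at h1
            exact (Nat.odd_add.1 h1).2 h2
          rw [h2.neg_one_pow, h3.neg_one_pow]
          norm_num
        · have h3 : Even y.natAbs := (Nat.odd_add.1 h1).1 h2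
          rw [h2.neg_one_pow, h3.neg_one_pow]
      · rw [neg_zero]
    linarith

end

end Run7.h423
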