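import Pool.Agent.Run7.h423.Der

/-!
# 2-adic approximation of `F` by polynomials in `w` (piece G6, helper333)
-/

set_option autoImplicit false

namespace Run7.h423

noncomputable section

open PowerSeries

namespace G6

/-- `2 ^ e` divides `x`, `2`-adically -/
def Bd (x : ℚ) (e : ℤ) : Prop := padicNorm 2 x ≤ (2 : ℚ) ^ (-e)

instance : Fact (Nat.Prime 2) := ⟨Nat.prime_two⟩

theorem Bd.zero (e : ℤ) : Bd 0 e := by
  unfold Bd
  rw [padicNorm.zero]
  positivity

theorem Bd.mono {x : ℚ} {e e' : ℤ} (h : Bd x e) (he : e' ≤ e) : Bd x e' :=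
  le_trans h (zpow_le_zpow_right₀ (by norm_num) (by omega))

theorem Bd.add {x y : ℚ} {e : ℤ} (hx : Bd x e) (hy : Bd y e) : Bd (x + y) e :=
  le_trans padicNorm.nonarchimedean (max_le hx hy)

theorem Bd.mul {x y : ℚ} {e e' : ℤ} (hx : Bd x e) (hy : Bd y e') : Bd (x * y) (e + e') := by
  unfold Bd
  rw [padicNorm.mul, neg_add, zpow_add₀ (by norm_num)]
  exact mul_le_mul hx hy (padicNorm.nonneg _) (by positivity)

theorem Bd.int (z : ℤ) : Bd (z : ℚ) 0 := by
  unfold Bd
  simpa using padicNorm.of_int z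

theorem Bd.two_pow (n : ℕ) : Bd ((2 : ℚ) ^ n) n := by
  unfold Bd
  have h1 : padicNorm 2 ((2 : ℚ) ^ n) = ((2 : ℚ)⁻¹) ^ n := by
    induction n with
    | zero => simp
    | succ n ih =>
      have h2 : padicNorm 2 (2 : ℚ) = 2⁻¹ := by
        have := padicNorm.padicNorm_p (p := 2) (by norm_num)
        simpa using this
      rw [pow_succ, padicNorm.mul, ih, h2, pow_succ]
  rw [h1, zpow_neg, zpow_natCast, inv_pow]

theorem Bd.inv_odd {n : ℕ} (hn : ¬ Even n) : Bd ((n : ℚ)⁻¹) 0 := by
  unfold Bd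
  have h1 : padicNorm 2 (n : ℚ) = 1 := by
    rw [padicNorm.nat_eq_one_iff]
    intro h
    exact hn (even_iff_two_dvd.2 h)
  have h2 : padicNorm 2 ((n : ℚ)⁻¹) * padicNorm 2 (n : ℚ) = 1 := by
    rw [← padicNorm.mul, inv_mul_cancel₀, padicNorm.one]
    rintro h0
    apply hn
    have : n = 0 := by exact_mod_cast h0
    rw [this]
    exact Even.zero
  rw [h1, mul_one] at h2
  rw [h2]
  simp

/-- The coefficients `ψ_{j,n}`. -/
def psi (h : ℕ) (v : Polynomial ℚ) : ℕ → ℕ → ℚ
  | n, j =>
    if hn : Even n ∨ h < j then 0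
    else (n : ℚ)⁻¹ * ((if hj : j = 0 then v.coeff n else - ((h : ℚ) + 1 - j) * psi h v n (j - 1)) -
      64 * ((n : ℚ) - 2 + j) * psi h v (n - 2) j +
      16 * ((j : ℚ) + 1) * (psi h v (n - 2) (j + 1) + 64 * psi h v (n - 4) (j + 1)))
  termination_by n j => (n, j)
  decreasing_by
    · exact Prod.Lex.right _ (by omega)
    all_goals
      refine Prod.Lex.left _ _ ?_
      have : n ≠ 0 := by
        rintro rfl
        exact hn (Or.inl Even.zero)
      omega

theorem psi_zero {h : ℕ} {v : Polynomial ℚ} {n j : ℕ} (hn : Even n ∨ h < j) : psi h v n j = 0 := by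
  rw [psi, dif_pos hn]

theorem psi_eq {h : ℕ} {v : Polynomial ℚ} {n j : ℕ} (hn : ¬ Even n) (hj : j ≤ h) :
    (n : ℚ) * psi h v n j =
      (if j = 0 then v.coeff n else - ((h : ℚ) + 1 - j) * psi h v n (j - 1)) -
      64 * ((n : ℚ) - 2 + j) * psi h v (n - 2) j +
      16 * ((j : ℚ) + 1) * (psi h v (n - 2) (j + 1) + 64 * psi h v (n - 4) (j + 1)) := by
  have h0 : (n : ℚ) ≠ 0 := by
    intro h0
    have : n = 0 := by exact_mod_cast h0
    exact hn (this ▸ Even.zero)
  rw [psi, dif_neg (by push Not; exact ⟨by simpa using hn, hj⟩), ← mul_assoc, mul_inv_cancel₀ h0, one_mul]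
  rfl

theorem psi_bd {h : ℕ} {v : Polynomial ℚ}
    (hv : ∀ n, padicNorm 2 (v.coeff (n + 1)) ≤ (2 : ℚ) ^ (-(2 * (n : ℤ)))) :
    ∀ n j : ℕ, Bd (psi h v n j) (2 * ((n : ℤ) - 1)) := by
  intro n
  induction n using Nat.strong_induction_on with
  | _ n ihn =>
    have key : ∀ j : ℕ, ¬ Even n → j ≤ h →
        Bd (if j = 0 then v.coeff n else - ((h : ℚ) + 1 - j) * psi h v n (j - 1))
          (2 * ((n : ℤ) - 1)) → Bd (psi h v n j) (2 * ((n : ℤ) - 1)) := by
      intro j hn hj h1
      have hn0 : n ≠ 0 := by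
        rintro rfl
        exact hn Even.zero
      have ha : ∀ j, Bd (psi h v (n - 2) j) (2 * ((n : ℤ) - 3)) := by
        intro j
        by_cases h2 : n = 1
        · subst h2
          rw [psi_zero (Or.inl (by decide))]
          exact Bd.zero _
        · refine (ihn (n - 2) (by omega) j).mono ?_
          omega
      have hb : ∀ j, Bd (psi h v (n - 4) j) (2 * ((n : ℤ) - 5)) := by
        intro j
        by_cases h2 : n ≤ 4
        · rw [show n - 4 = 0 by omega, psi_zero (Or.inl Even.zero)]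
          exact Bd.zero _
        · refine (ihn (n - 4) (by omega) j).mono ?_
          omega
      have h64 : Bd 64 6 := by
        have := Bd.two_pow 6
        norm_num at this
        exact this
      have h16 : Bd 16 4 := by
        have := Bd.two_pow 4
        norm_num at this
        exact this
      have hi1 : Bd (- ((n : ℚ) - 2 + j)) 0 := by
        have := Bd.int (-((n : ℤ) - 2 + j))
        push_cast at this
        exact this
      have hi2 : Bd ((j : ℚ) + 1) 0 := by
        have := Bd.int ((j : ℤ) + 1)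
        push_cast at this
        exact this
      have e : psi h v n j = (n : ℚ)⁻¹ *
          ((if j = 0 then v.coeff n else - ((h : ℚ) + 1 - j) * psi h v n (j - 1)) +
          64 * (- ((n : ℚ) - 2 + j)) * psi h v (n - 2) j +
          16 * ((j : ℚ) + 1) * (psi h v (n - 2) (j + 1) + 64 * psi h v (n - 4) (j + 1))) := by
        have h3 := psi_eq (v := v) hn hj
        have h4 : (n : ℚ) ≠ 0 := by exact_mod_cast hn0
        rw [eq_inv_mul_iff_mul_eq₀ h4, h3]
        ring
      rw [e]
      refine ((Bd.inv_odd hn).mul (Bd.add (Bd.add h1 ?_) ?_)).mono (by omega)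
      · exact ((h64.mul hi1).mul (ha j)).mono (by omega)
      · refine ((h16.mul hi2).mul (Bd.add (ha (j + 1)) ((h64.mul (hb (j + 1))).mono ?_))).mono ?_
        · omega
        · omega
    intro j
    induction j with
    | zero =>
      by_cases hn : Even n
      · rw [psi_zero (Or.inl hn)]
        exact Bd.zero _
      · refine key 0 hn (Nat.zero_le _) ?_
        rw [if_pos rfl]
        obtain ⟨m, rfl⟩ : ∃ m, n = m + 1 := ⟨n - 1, by
          have : n ≠ 0 := by
            rintro rfl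
            exact hn Even.zero
          omega⟩
        have h2 := hv m
        unfold Bd
        convert h2 using 3
        push_cast
        ring
    | succ j ihj =>
      by_cases hn : Even n ∨ h < j + 1
      · rw [psi_zero hn]
        exact Bd.zero _
      · push Not at hn
        refine key (j + 1) (by simpa using hn.1) hn.2 ?_
        rw [if_neg (Nat.succ_ne_zero j), Nat.add_sub_cancel]
        have hi : Bd (- ((h : ℚ) + 1 - ((j + 1 : ℕ) : ℚ))) 0 := by
          have := Bd.int (-((h : ℤ) + 1 - ((j + 1 : ℕ) : ℤ)))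
          push_cast at this
          push_cast
          exact this
        exact (hi.mul ihj).mono (by omega)

/-- The truncated polynomials. -/
def Ps (h : ℕ) (v : Polynomial ℚ) (M j : ℕ) : Polynomial ℚ :=
  ∑ n ∈ Finset.range (M + 1), Polynomial.monomial n (psi h v n j)

theorem Ps_coeff (h : ℕ) (v : Polynomial ℚ) (M j n : ℕ) :
    (Ps h v M j).coeff n = if n ≤ M then psi h v n j else 0 := by
  unfold Ps
  rw [Polynomial.finsetSum_coeff]
  simp only [Polynomial.coeff_monomial]
  rw [Finset.sum_ite_eq']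
  simp

/-- The polynomial expressing the differential equation. -/
def Qp (h : ℕ) (v : Polynomial ℚ) (M j : ℕ) : Polynomial ℚ :=
  Polynomial.X * (1 + 64 * Polynomial.X ^ 2) * Polynomial.derivative (Ps h v M j) +
    64 * (j : Polynomial ℚ) * Polynomial.X ^ 2 * Ps h v M j +
    (if j = 0 then 0 else ((h : Polynomial ℚ) + 1 - j) * Ps h v M (j - 1)) -
    16 * ((j : Polynomial ℚ) + 1) * Polynomial.X ^ 2 * (1 + 64 * Polynomial.X ^ 2) *
      Ps h v M (j + 1)

theorem coeff_X_D (P : Polynomial ℚ) (n : ℕ) :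
    (Polynomial.X * Polynomial.derivative P).coeff n = n * P.coeff n := by
  cases n with
  | zero => simp
  | succ n =>
    rw [Polynomial.coeff_X_mul, Polynomial.coeff_derivative]
    push_cast
    ring

theorem coeff_X2 (P : Polynomial ℚ) (n : ℕ) :
    (Polynomial.X ^ 2 * P).coeff n = if 2 ≤ n then P.coeff (n - 2) else 0 := by
  rw [Polynomial.coeff_X_pow_mul']

theorem Qp_coeff {h : ℕ} {v : Polynomial ℚ} (he : ∀ n, Even n → v.coeff n = 0) (M j n : ℕ)
    (hj : j ≤ h) (hn : n ≤ M) : (Qp h v M j).coeff n = if j = 0 then v.coeff n else 0 := by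
  have e : Qp h v M j = Polynomial.X * Polynomial.derivative (Ps h v M j) +
      Polynomial.C 64 * (Polynomial.X ^ 2 * (Polynomial.X * Polynomial.derivative (Ps h v M j))) +
      Polynomial.C (64 * (j : ℚ)) * (Polynomial.X ^ 2 * Ps h v M j) +
      (if j = 0 then 0 else Polynomial.C ((h : ℚ) + 1 - j) * Ps h v M (j - 1)) -
      Polynomial.C (16 * ((j : ℚ) + 1)) * (Polynomial.X ^ 2 * Ps h v M (j + 1)) -
      Polynomial.C (16 * ((j : ℚ) + 1) * 64) *
        (Polynomial.X ^ 2 * (Polynomial.X ^ 2 * Ps h v M (j + 1))) := by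
    unfold Qp
    have h64 : (Polynomial.C 64 : Polynomial ℚ) = 64 := map_ofNat Polynomial.C 64
    have h16 : (Polynomial.C 16 : Polynomial ℚ) = 16 := map_ofNat Polynomial.C 16
    simp only [map_mul, map_sub, map_add, map_natCast, map_one, h64, h16]
    ring
  have hA : ∀ j, (Polynomial.X ^ 2 * Ps h v M j).coeff n = psi h v (n - 2) j := by
    intro j
    rw [coeff_X2]
    split_ifs with h2
    · rw [Ps_coeff, if_pos (by omega)]
    · rw [show n - 2 = 0 by omega, psi_zero (Or.inl Even.zero)]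
  have hB : ∀ j, (Polynomial.X ^ 2 * (Polynomial.X ^ 2 * Ps h v M j)).coeff n =
      psi h v (n - 4) j := by
    intro j
    rw [coeff_X2]
    split_ifs with h2
    · rw [coeff_X2]
      split_ifs with h4
      · rw [Ps_coeff, if_pos (by omega), show n - 2 - 2 = n - 4 by omega]
      · rw [show n - 4 = 0 by omega, psi_zero (Or.inl Even.zero)]
    · rw [show n - 4 = 0 by omega, psi_zero (Or.inl Even.zero)]
  have hC : (Polynomial.X ^ 2 * (Polynomial.X * Polynomial.derivative (Ps h v M j))).coeff n =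
      ((n : ℚ) - 2) * psi h v (n - 2) j := by
    rw [coeff_X2]
    split_ifs with h2
    · rw [coeff_X_D, Ps_coeff, if_pos (by omega), Nat.cast_sub h2]
      norm_num
    · rw [show n - 2 = 0 by omega, psi_zero (Or.inl Even.zero), mul_zero]
  have hD : (if j = 0 then (0 : Polynomial ℚ) else
      Polynomial.C ((h : ℚ) + 1 - j) * Ps h v M (j - 1)).coeff n =
      if j = 0 then 0 else ((h : ℚ) + 1 - j) * psi h v n (j - 1) := by
    split_ifs
    · simp
    · rw [Polynomial.coeff_C_mul, Ps_coeff, if_pos hn]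
  rw [e, Polynomial.coeff_sub, Polynomial.coeff_sub, Polynomial.coeff_add, Polynomial.coeff_add,
    Polynomial.coeff_add, coeff_X_D, Polynomial.coeff_C_mul, Polynomial.coeff_C_mul,
    Polynomial.coeff_C_mul, Polynomial.coeff_C_mul, hA, hA, hB, hC, hD, Ps_coeff, if_pos hn]
  by_cases hev : Even n
  · have h2 : Even (n - 2) := by
      rcases Nat.lt_or_ge n 2 with h3 | h3
      · rw [show n - 2 = 0 by omega]
        exact Even.zero
      · rw [Nat.even_sub h3]
        simp [hev]
    have h4 : Even (n - 4) := by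
      rcases Nat.lt_or_ge n 4 with h3 | h3
      · rw [show n - 4 = 0 by omega]
        exact Even.zero
      · rw [Nat.even_sub h3]
        exact iff_of_true hev (by decide)
    rw [psi_zero (Or.inl hev), psi_zero (Or.inl hev), psi_zero (Or.inl h2), psi_zero (Or.inl h2),
      psi_zero (Or.inl h4), he n hev]
    simp
  · have h5 := psi_eq (v := v) hev hj
    by_cases hj0 : j = 0
    · subst hj0
      simp only [if_true] at h5 ⊢
      linear_combination h5
    · simp only [if_neg hj0] at h5 ⊢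
      linear_combination h5

theorem ev_add (P Q : Polynomial ℚ) : ev (P + Q) = ev P + ev Q := map_add _ _ _
theorem ev_sub (P Q : Polynomial ℚ) : ev (P - Q) = ev P - ev Q := map_sub _ _ _
theorem ev_mul (P Q : Polynomial ℚ) : ev (P * Q) = ev P * ev Q := map_mul _ _ _
theorem ev_pow (P : Polynomial ℚ) (n : ℕ) : ev (P ^ n) = ev P ^ n := map_pow _ _ _
theorem ev_X : ev Polynomial.X = w := Polynomial.aeval_X _
theorem ev_nat (n : ℕ) : ev (n : Polynomial ℚ) = n := map_natCast _ _
theorem ev_one : ev 1 = 1 := map_one _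
theorem ev_zero : ev 0 = 0 := map_zero _
theorem ev_64 : ev 64 = 64 := map_ofNat _ _
theorem ev_16 : ev 16 = 16 := map_ofNat _ _

theorem th_ev (P : Polynomial ℚ) :
    th (ev P) = ev (Polynomial.X * (1 + 64 * Polynomial.X ^ 2) * Polynomial.derivative P) := by
  have h1 : th (ev P) = ev (Polynomial.derivative P) * th w := by
    unfold ev
    rw [Derivation.map_aeval, smul_eq_mul]
  rw [h1, th_w', ev_mul, ev_mul, ev_X, ev_add, ev_mul, ev_pow, ev_X, ev_one, ev_64]
  ring

theorem th_pow (f : ℚ⟦X⟧) (n : ℕ) : th (f ^ n) = n * f ^ (n - 1) * th f := by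
  rw [Derivation.leibniz_pow, smul_eq_mul, nsmul_eq_mul, mul_assoc]

theorem th_mul (f g : ℚ⟦X⟧) : th (f * g) = f * th g + g * th f := by
  rw [Derivation.leibniz, smul_eq_mul, smul_eq_mul]

theorem ev_dvd {M : ℕ} {P : Polynomial ℚ} (hP : ∀ n ≤ M, P.coeff n = 0) :
    (X : ℚ⟦X⟧) ^ (M + 1) ∣ ev P := by
  obtain ⟨R, hR⟩ : Polynomial.X ^ (M + 1) ∣ P := by
    rw [Polynomial.X_pow_dvd_iff]
    intro n hn
    exact hP n (by omega)
  rw [hR, ev_mul, ev_pow, ev_X]
  have h1 : (X : ℚ⟦X⟧) ∣ w := X_dvd_iff.2 w_coeff_zero'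
  exact Dvd.dvd.mul_right (pow_dvd_pow_of_dvd h1 _) _

/-- The derivative of one term. -/
theorem th_term (h j : ℕ) (hj : j ≤ h) (P : Polynomial ℚ) :
    th (ev P * A ^ (h - j) * E ^ j) =
      ev (Polynomial.X * (1 + 64 * Polynomial.X ^ 2) * Polynomial.derivative P) * A ^ (h - j) * E ^ j +
      ((h : ℚ⟦X⟧) - j) * ev P * A ^ (h - (j + 1)) * E ^ (j + 1) +
      64 * j * w ^ 2 * ev P * A ^ (h - j) * E ^ j -
      16 * j * w ^ 2 * (1 + 64 * w ^ 2) * ev P * A ^ (h + 1 - j) * E ^ (j - 1) := by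
  have h1 : th A = E := rfl
  rw [th_mul, th_mul, th_pow, th_pow, th_ev, h1, th_E']
  have h2 : ((h - j : ℕ) : ℚ⟦X⟧) = (h : ℚ⟦X⟧) - j := by
    rw [Nat.cast_sub hj]
  have h3 : A ^ (h + 1 - j) = A ^ (h - j) * A := by
    rw [← pow_succ]
    congr 1
    omega
  rw [h2, h3, show h - j - 1 = h - (j + 1) by omega]
  rcases Nat.eq_zero_or_pos j with h0 | h0
  · subst h0
    simp only [Nat.cast_zero, pow_zero]
    ring
  · obtain ⟨i, rfl⟩ : ∃ i, j = i + 1 := ⟨j - 1, by omega⟩
    rw [Nat.add_sub_cancel]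
    ring

theorem th_sum (h : ℕ) (P : ℕ → Polynomial ℚ) (hP : P (h + 1) = 0) :
    th (∑ j ∈ Finset.range (h + 1), ev (P j) * A ^ (h - j) * E ^ j) =
      ∑ j ∈ Finset.range (h + 1), ev (
        Polynomial.X * (1 + 64 * Polynomial.X ^ 2) * Polynomial.derivative (P j) +
        64 * (j : Polynomial ℚ) * Polynomial.X ^ 2 * P j +
        (if j = 0 then 0 else ((h : Polynomial ℚ) + 1 - j) * P (j - 1)) -
        16 * ((j : Polynomial ℚ) + 1) * Polynomial.X ^ 2 * (1 + 64 * Polynomial.X ^ 2) *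
          P (j + 1)) * A ^ (h - j) * E ^ j := by
  rw [map_sum]
  have h1 : ∀ j ∈ Finset.range (h + 1), th (ev (P j) * A ^ (h - j) * E ^ j) = 
      (ev (Polynomial.X * (1 + 64 * Polynomial.X ^ 2) * Polynomial.derivative (P j)) * A ^ (h - j) *
        E ^ j + 64 * j * w ^ 2 * ev (P j) * A ^ (h - j) * E ^ j) +
      ((h : ℚ⟦X⟧) - j) * ev (P j) * A ^ (h - (j + 1)) * E ^ (j + 1) -
      16 * j * w ^ 2 * (1 + 64 * w ^ 2) * ev (P j) * A ^ (h + 1 - j) * E ^ (j - 1) := by
    intro j hj
    rw [th_term h j (by simpa [Nat.lt_succ_iff] using hj)]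
    ring
  rw [Finset.sum_congr rfl h1, Finset.sum_sub_distrib, Finset.sum_add_distrib]
  have h2 : ∑ j ∈ Finset.range (h + 1),
      ((h : ℚ⟦X⟧) - j) * ev (P j) * A ^ (h - (j + 1)) * E ^ (j + 1) =
      ∑ j ∈ Finset.range (h + 1), ev (if j = 0 then 0 else ((h : Polynomial ℚ) + 1 - j) * P (j - 1)) *
        A ^ (h - j) * E ^ j := by
    set g : ℕ → ℚ⟦X⟧ := fun j => ev (if j = 0 then 0 else ((h : Polynomial ℚ) + 1 - j) * P (j - 1)) *
        A ^ (h - j) * E ^ j with hg
    have e1 := Finset.sum_range_succ' g (h + 1)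
    have e2 := Finset.sum_range_succ g (h + 1)
    have e3 : g 0 = 0 := by
      simp [hg, ev_zero]
    have e4 : g (h + 1) = 0 := by
      simp only [hg]
      rw [if_neg (Nat.succ_ne_zero h)]
      have : ((h : Polynomial ℚ) + 1 - ((h + 1 : ℕ) : Polynomial ℚ)) = 0 := by
        push_cast
        ring
      rw [this, zero_mul, ev_zero]
      ring
    have e5 : ∀ j, ((h : ℚ⟦X⟧) - j) * ev (P j) * A ^ (h - (j + 1)) * E ^ (j + 1) = g (j + 1) := by
      intro j
      simp only [hg]
      rw [if_neg (Nat.succ_ne_zero j), Nat.add_sub_cancel, ev_mul, ev_sub, ev_add, ev_nat, ev_nat,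
        ev_one]
      push_cast
      ring
    rw [Finset.sum_congr rfl fun j _ => e5 j]
    rw [e2, e3, e4] at e1
    rw [add_zero, add_zero] at e1
    exact e1.symm
  have h3 : ∑ j ∈ Finset.range (h + 1),
      16 * (j : ℚ⟦X⟧) * w ^ 2 * (1 + 64 * w ^ 2) * ev (P j) * A ^ (h + 1 - j) * E ^ (j - 1) =
      ∑ j ∈ Finset.range (h + 1), ev (16 * ((j : Polynomial ℚ) + 1) * Polynomial.X ^ 2 *
        (1 + 64 * Polynomial.X ^ 2) * P (j + 1)) * A ^ (h - j) * E ^ j := by
    set g : ℕ → ℚ⟦X⟧ := fun j =>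
      16 * (j : ℚ⟦X⟧) * w ^ 2 * (1 + 64 * w ^ 2) * ev (P j) * A ^ (h + 1 - j) * E ^ (j - 1) with hg
    have e1 := Finset.sum_range_succ' g (h + 1)
    have e2 := Finset.sum_range_succ g (h + 1)
    have e3 : g 0 = 0 := by
      simp [hg]
    have e4 : g (h + 1) = 0 := by
      simp only [hg]
      rw [hP, ev_zero]
      ring
    have e5 : ∀ j : ℕ, ev (16 * ((j : Polynomial ℚ) + 1) * Polynomial.X ^ 2 *
        (1 + 64 * Polynomial.X ^ 2) * P (j + 1)) * A ^ (h - j) * E ^ j = g (j + 1) := by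
      intro j
      simp only [hg]
      rw [Nat.add_sub_cancel, show h + 1 - (j + 1) = h - j by omega]
      simp only [ev_mul, ev_add, ev_pow, ev_nat, ev_one, ev_16, ev_64, ev_X]
      push_cast
      ring
    rw [Finset.sum_congr rfl fun j _ => e5 j]
    rw [e2, e3, e4] at e1
    rw [add_zero, add_zero] at e1
    exact e1
  rw [h2, h3, ← Finset.sum_add_distrib, ← Finset.sum_sub_distrib]
  refine Finset.sum_congr rfl fun j _ => ?_
  rw [ev_sub, ev_add, ev_add]
  simp only [ev_mul, ev_add, ev_pow, ev_nat, ev_one, ev_64, ev_X]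
  ring

end G6

open G6

theorem two_approx' {h : ℕ} {a : ℕ → ℤ} {v : Polynomial ℚ} (hs : Sys h a v) (M : ℕ) :
    ∃ Ψ : ℕ → Polynomial ℚ,
      (∀ j, (Ψ j).coeff 0 = 0) ∧
      (∀ j n, padicNorm 2 ((Ψ j).coeff (n + 1)) ≤ (2 : ℚ) ^ (-(2 * (n : ℤ)))) ∧
      ∀ n ≤ M, coeff n (Fs a) =
        coeff n (∑ j ∈ Finset.range (h + 1), ev (Ψ j) * A ^ (h - j) * E ^ j) := by
  have hcoef0 : ∀ j, (Ps h v M j).coeff 0 = 0 := by
    intro j
    rw [Ps_coeff, if_pos (Nat.zero_le _), psi_zero (Or.inl Even.zero)]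
  refine ⟨Ps h v M, hcoef0, ?_, ?_⟩
  · intro j n
    rw [Ps_coeff]
    split_ifs
    · have := psi_bd (h := h) hs.val (n + 1) j
      unfold Bd at this
      convert this using 3
      push_cast
      ring
    · rw [padicNorm.zero]
      positivity
  · have hPh : Ps h v M (h + 1) = 0 := by
      ext n
      rw [Ps_coeff, psi_zero (Or.inr (Nat.lt_succ_self h))]
      simp
    set G := ∑ j ∈ Finset.range (h + 1), ev (Ps h v M j) * A ^ (h - j) * E ^ j with hG
    have h1 : (X : ℚ⟦X⟧) ^ (M + 1) ∣ th (Fs a - G) := by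
      rw [map_sub, hs.ode, hG, th_sum h _ hPh]
      have e1 : ev v * A ^ h = ∑ j ∈ Finset.range (h + 1),
          ev (if j = 0 then v else 0) * A ^ (h - j) * E ^ j := by
        rw [Finset.sum_eq_single 0]
        · simp
        · intro j _ hj
          rw [if_neg hj, ev_zero]
          ring
        · intro h0
          exact absurd (Finset.mem_range.2 (Nat.succ_pos h)) h0
      rw [e1, ← Finset.sum_sub_distrib]
      refine Finset.dvd_sum fun j hj => ?_
      have hj' : j ≤ h := by simpa [Nat.lt_succ_iff] using hj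
      rw [← sub_mul, ← sub_mul, ← ev_sub]
      refine Dvd.dvd.mul_right (Dvd.dvd.mul_right (ev_dvd fun n hn => ?_) _) _
      have h2 := Qp_coeff (h := h) (v := v) hs.even_zero M j n hj' hn
      unfold Qp at h2
      rw [Polynomial.coeff_sub, h2]
      split_ifs <;> simp
    have h2 : (X : ℚ⟦X⟧) ^ (M + 1) ∣ D (Fs a - G) := by
      rw [th_apply] at h1
      have hu : IsUnit (S * A⁻¹ ^ 2) := by
        rw [isUnit_iff_constantCoeff, map_mul, map_pow, constantCoeff_inv, A_const', S, map_mul,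
          map_pow, constantCoeff_inv, A_const']
        have hB : constantCoeff B = 1 := by
          rw [B, map_mul, map_add, map_pow, map_pow, G2.lin_phi.h0, G2.lin_phim.h0]
          norm_num
        rw [hB]
        norm_num
      rwa [hu.dvd_mul_left] at h1
    intro n hn
    have h3 := (X_pow_dvd_iff.1 h2) n (by omega)
    rw [coeff_D] at h3
    by_cases hn0 : n = 0
    · subst hn0
      have e1 : coeff 0 (Fs a) = 0 := by
        rw [Fs, coeff_mk, if_neg (by decide)]
      rw [e1, hG, map_sum]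
      symm
      refine Finset.sum_eq_zero fun j _ => ?_
      rw [coeff_zero_eq_constantCoeff, map_mul, map_mul]
      have h4 : constantCoeff (ev (Ps h v M j)) = 0 := by
        rw [← coeff_zero_eq_constantCoeff]
        refine (X_pow_dvd_iff.1 (ev_dvd (M := 0) (P := Ps h v M j) fun n hn => ?_)) 0 (by omega)
        rw [show n = 0 by omega]
        exact hcoef0 j
      rw [h4]
      ring
    · have h4 : (n : ℚ) ≠ 0 := by exact_mod_cast hn0
      have h5 := (mul_eq_zero.1 h3).resolve_left h4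
      rw [map_sub, sub_eq_zero] at h5
      exact h5

end

end Run7.h423
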