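import Pool.Agent.Run7.h423.Iface
import Pool.Agent.Run7.h257.TwoDetCore

/-!
Piece G7: the 2-adic lower bound for the determinant.
-/

set_option autoImplicit false

namespace Run7.h423.TwoDet

noncomputable section

open PowerSeries Run7.h257.TwoDetCore

/-! ### 2-adic bounds for polynomials -/

/-- the coefficient of `Y^n` is `O(4^(n - s))` -/
def Val (s : ℤ) (P : Polynomial ℚ) : Prop :=
  ∀ n : ℕ, padicNorm 2 (P.coeff n) ≤ (2 : ℚ) ^ (2 * (s - n))

theorem Val.zero (s : ℤ) : Val s 0 := fun n => by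
  rw [Polynomial.coeff_zero, padicNorm.zero]; positivity

theorem Val.sum {ι : Type} (I : Finset ι) (f : ι → Polynomial ℚ) (s : ℤ)
    (h : ∀ i ∈ I, Val s (f i)) : Val s (∑ i ∈ I, f i) := fun n => by
  rw [Polynomial.finsetSum_coeff]
  exact padicNorm.sum_le' (fun i hi => h i hi n) (by positivity)

theorem Val.mul {s s' : ℤ} {P Q : Polynomial ℚ} (hP : Val s P) (hQ : Val s' Q) :
    Val (s + s') (P * Q) := fun n => by
  rw [Polynomial.coeff_mul]
  refine padicNorm.sum_le' (fun x hx => ?_) (by positivity)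
  have hx' : x.1 + x.2 = n := Finset.HasAntidiagonal.mem_antidiagonal.1 hx
  rw [padicNorm.mul]
  refine (mul_le_mul (hP x.1) (hQ x.2) (padicNorm.nonneg _) (by positivity)).trans (le_of_eq ?_)
  rw [← zpow_add₀ (by norm_num : (2 : ℚ) ≠ 0), ← hx']
  congr 1
  push_cast
  ring

theorem Val.X_pow (i : ℕ) : Val i (Polynomial.X ^ i) := fun n => by
  rw [Polynomial.coeff_X_pow]
  split_ifs with h
  · rw [padicNorm.one, h, sub_self, mul_zero, zpow_zero]
  · rw [padicNorm.zero]; positivity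

theorem Val.one : Val 0 1 := by
  have := Val.X_pow 0
  simpa using this

/-- the same for all coefficients -/
def Val2 (s : ℤ) (R : Polynomial (Polynomial ℚ)) : Prop := ∀ β : ℕ, Val s (R.coeff β)

theorem Val2.mul {s s' : ℤ} {R R' : Polynomial (Polynomial ℚ)} (h : Val2 s R) (h' : Val2 s' R') :
    Val2 (s + s') (R * R') := fun β => by
  rw [Polynomial.coeff_mul]
  exact Val.sum _ _ _ fun x _ => (h x.1).mul (h' x.2)

theorem Val2.C {s : ℤ} {P : Polynomial ℚ} (h : Val s P) : Val2 s (Polynomial.C P) := fun β => by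
  rw [Polynomial.coeff_C]
  split_ifs
  · exact h
  · exact Val.zero s

theorem Val2.X_pow (b : ℕ) : Val2 0 (Polynomial.X ^ b) := fun β => by
  rw [Polynomial.coeff_X_pow]
  split_ifs
  · exact Val.one
  · exact Val.zero 0

theorem Val2.one : Val2 0 1 := by
  have := Val2.X_pow 0
  simpa using this

theorem Val2.sum {ι : Type} (I : Finset ι) (f : ι → Polynomial (Polynomial ℚ)) (s : ℤ)
    (h : ∀ i ∈ I, Val2 s (f i)) : Val2 s (∑ i ∈ I, f i) := fun β => by
  rw [Polynomial.finsetSum_coeff]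
  exact Val.sum _ _ _ fun i hi => h i hi β

theorem Val2.pow {s : ℤ} {R : Polynomial (Polynomial ℚ)} (h : Val2 s R) (n : ℕ) :
    Val2 (n * s) (R ^ n) := by
  induction n with
  | zero => simpa using Val2.one
  | succ n ih =>
    rw [pow_succ]
    have := ih.mul h
    have e : ((n + 1 : ℕ) : ℤ) * s = n * s + s := by push_cast; ring
    rw [e]
    exact this

/-! ### evaluation at `(w, E / A)` -/

def ev2 : Polynomial (Polynomial ℚ) →+* ℚ⟦X⟧ :=
  Polynomial.eval₂RingHom (Polynomial.aeval w).toRingHom (E * A⁻¹)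

theorem ev2_C (P : Polynomial ℚ) : ev2 (Polynomial.C P) = ev P := by
  unfold ev2 ev
  rw [Polynomial.coe_eval₂RingHom, Polynomial.eval₂_C]
  rfl

theorem ev2_X : ev2 Polynomial.X = E * A⁻¹ := by
  unfold ev2
  rw [Polynomial.coe_eval₂RingHom, Polynomial.eval₂_X]

/-- homogeneous form -/
theorem hom_form (W : ℕ) (R : Polynomial (Polynomial ℚ)) (hR : R.natDegree ≤ W) :
    A ^ W * ev2 R = ∑ β ∈ Finset.range (W + 1), ev (R.coeff β) * A ^ (W - β) * E ^ β := by
  have h1 : ev2 R = ∑ β ∈ Finset.range (W + 1), ev (R.coeff β) * (E * A⁻¹) ^ β := by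
    unfold ev2
    rw [Polynomial.coe_eval₂RingHom, Polynomial.eval₂_eq_sum_range' _ (Nat.lt_succ_of_le hR)]
    rfl
  rw [h1, Finset.mul_sum]
  refine Finset.sum_congr rfl fun β hβ => ?_
  have hβ' : β ≤ W := Nat.lt_succ_iff.1 (Finset.mem_range.1 hβ)
  obtain ⟨c, rfl⟩ := Nat.exists_eq_add_of_le hβ'
  rw [Nat.add_sub_cancel_left, mul_pow, pow_add]
  have h2 : A ^ β * A⁻¹ ^ β = 1 := by rw [← mul_pow, A_mul_inv, one_pow]
  calc A ^ β * A ^ c * (ev (R.coeff β) * (E ^ β * A⁻¹ ^ β))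
      = ev (R.coeff β) * A ^ c * E ^ β * (A ^ β * A⁻¹ ^ β) := by ring
    _ = _ := by rw [h2, mul_one]

/-! ### the expansion of the rows -/

/-- the polynomial of a row -/
def Rp (h : ℕ) (Ψ : ℕ → Polynomial ℚ) (i b c : ℕ) : Polynomial (Polynomial ℚ) :=
  Polynomial.C (Polynomial.X ^ i) * Polynomial.X ^ b *
    (∑ j ∈ Finset.range (h + 1), Polynomial.C (Ψ j) * Polynomial.X ^ j) ^ c

theorem Rp_val (h : ℕ) (Ψ : ℕ → Polynomial ℚ) (hΨ : ∀ j, Val 1 (Ψ j)) (i b c : ℕ) :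
    Val2 (i + c) (Rp h Ψ i b c) := by
  have h1 : Val2 ((i : ℤ) + 0 + c * 1) (Rp h Ψ i b c) := by
    refine ((Val2.C (Val.X_pow i)).mul (Val2.X_pow b)).mul (Val2.pow ?_ c)
    refine Val2.sum _ _ _ fun j _ => ?_
    have := (Val2.C (hΨ j)).mul (Val2.X_pow j)
    simpa using this
  simpa using h1

theorem Rp_deg (h : ℕ) (Ψ : ℕ → Polynomial ℚ) (i b c W : ℕ) (hW : b + h * c ≤ W) :
    (Rp h Ψ i b c).natDegree ≤ W := by
  have h1 : (∑ j ∈ Finset.range (h + 1),
      (Polynomial.C (Ψ j) * Polynomial.X ^ j : Polynomial (Polynomial ℚ))).natDegree ≤ h := by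
    refine Polynomial.natDegree_sum_le_of_forall_le _ _ fun j hj => ?_
    refine (Polynomial.natDegree_C_mul_X_pow_le _ _).trans ?_
    exact Nat.lt_succ_iff.1 (Finset.mem_range.1 hj)
  unfold Rp
  refine Polynomial.natDegree_mul_le.trans ?_
  have h2 : (Polynomial.C (Polynomial.X ^ i : Polynomial ℚ) * Polynomial.X ^ b :
      Polynomial (Polynomial ℚ)).natDegree ≤ b := Polynomial.natDegree_C_mul_X_pow_le _ _
  have h3 := Polynomial.natDegree_pow_le_of_le c h1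
  have h4 : c * h = h * c := mul_comm _ _
  omega

theorem row_form (h W L i b c : ℕ) (Ψ : ℕ → Polynomial ℚ) (hW : b + h * c ≤ W) (G : ℚ⟦X⟧)
    (hG : G = ∑ j ∈ Finset.range (h + 1), ev (Ψ j) * A ^ (h - j) * E ^ j) :
    w ^ i * mon h W G b c * A ^ L = ∑ β ∈ Finset.range (W + 1),
      ev ((Rp h Ψ i b c).coeff β) * (A ^ (W - β) * E ^ β * A ^ L) := by
  set Q : Polynomial (Polynomial ℚ) :=
    ∑ j ∈ Finset.range (h + 1), Polynomial.C (Ψ j) * Polynomial.X ^ j with hQ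
  have hQd : Q.natDegree ≤ h := by
    refine Polynomial.natDegree_sum_le_of_forall_le _ _ fun j hj => ?_
    refine (Polynomial.natDegree_C_mul_X_pow_le _ _).trans ?_
    exact Nat.lt_succ_iff.1 (Finset.mem_range.1 hj)
  have hG' : G = A ^ h * ev2 Q := by
    rw [hom_form h Q hQd, hG]
    refine Finset.sum_congr rfl fun j hj => ?_
    have : Q.coeff j = Ψ j := by
      rw [hQ, Polynomial.finsetSum_coeff]
      rw [Finset.sum_eq_single j]
      · rw [Polynomial.coeff_C_mul_X_pow, if_pos rfl]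
      · intro k _ hk
        rw [Polynomial.coeff_C_mul_X_pow, if_neg (Ne.symm hk)]
      · intro h'
        exact absurd hj h'
    rw [this]
  have key : w ^ i * mon h W G b c = A ^ W * ev2 (Rp h Ψ i b c) := by
    unfold Rp mon
    have e1 : ev (Polynomial.X ^ i) = w ^ i := by
      unfold ev
      rw [map_pow, Polynomial.aeval_X]
    have e0 : ev2 (Polynomial.X ^ b) = (E * A⁻¹) ^ b := by rw [map_pow, ev2_X]
    have e0' : ev2 (Q ^ c) = ev2 Q ^ c := map_pow _ _ _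
    rw [← hQ, map_mul, map_mul, ev2_C, e0, e0', e1, hG']
    obtain ⟨k, hk⟩ : ∃ k, W = k + (b + h * c) := ⟨W - (b + h * c), by omega⟩
    have e2 : W - h * c - b = k := by omega
    rw [e2, hk]
    have h2 : A ^ b * A⁻¹ ^ b = 1 := by rw [← mul_pow, A_mul_inv, one_pow]
    calc w ^ i * (A ^ k * E ^ b * (A ^ h * ev2 Q) ^ c)
        = w ^ i * (A ^ k * E ^ b * (A ^ h * ev2 Q) ^ c) * (A ^ b * A⁻¹ ^ b) := by
          rw [h2, mul_one]
      _ = A ^ (k + (b + h * c)) * (w ^ i * (E * A⁻¹) ^ b * ev2 Q ^ c) := by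
          rw [mul_pow, mul_pow, ← pow_mul, pow_add, pow_add]
          ring
  rw [key, hom_form W _ (Rp_deg h Ψ i b c W hW), Finset.sum_mul]
  refine Finset.sum_congr rfl fun β _ => ?_
  ring

theorem X_pow_dvd_w_pow (n : ℕ) : (X : ℚ⟦X⟧) ^ n ∣ w ^ n :=
  pow_dvd_pow_of_dvd (PowerSeries.X_dvd_iff.2 w_coeff_zero) n

theorem coeff_ev_mul (P : Polynomial ℚ) (Z : ℚ⟦X⟧) (t M : ℕ) (ht : t ≤ M) :
    coeff t (ev P * Z) = ∑ n ∈ Finset.range (M + 1), P.coeff n * coeff t (w ^ n * Z) := by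
  obtain ⟨K, hK⟩ : ∃ K, K = max (P.natDegree + 1) (M + 1) := ⟨_, rfl⟩
  have h1 : ev P = ∑ n ∈ Finset.range K, P.coeff n • w ^ n := by
    unfold ev
    exact Polynomial.aeval_eq_sum_range' (by omega) _
  have h2 : coeff t (ev P * Z) = ∑ n ∈ Finset.range K, P.coeff n * coeff t (w ^ n * Z) := by
    rw [h1, Finset.sum_mul, map_sum]
    refine Finset.sum_congr rfl fun n _ => ?_
    rw [smul_mul_assoc, PowerSeries.coeff_smul, smul_eq_mul]
  rw [h2]
  symm
  refine Finset.sum_subset (Finset.range_subset_range.2 (by omega)) fun n _ hn => ?_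
  have hn' : M + 1 ≤ n := by
    by_contra hcon
    exact hn (Finset.mem_range.2 (by omega))
  have h3 : (X : ℚ⟦X⟧) ^ n ∣ w ^ n * Z := (X_pow_dvd_w_pow n).mul_right _
  rw [PowerSeries.X_pow_dvd_iff.1 h3 t (by omega), mul_zero]

/-- the elementary rows -/
def Er (W L : ℕ) (β n t : ℕ) : ℚ := coeff t (w ^ n * (A ^ (W - β) * E ^ β * A ^ L))

theorem norm_Er (W L β n t : ℕ) : padicNorm 2 (Er W L β n t) ≤ 1 := by
  have h1 : IsInt (w ^ n * (A ^ (W - β) * E ^ β * A ^ L)) :=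
    (isInt_w.pow n).mul (((isInt_A.pow _).mul (isInt_E.pow _)).mul (isInt_A.pow _))
  obtain ⟨z, hz⟩ := h1 t
  unfold Er
  rw [hz]
  exact padicNorm.of_int z

theorem coeff_row (h W d M i b c t : ℕ) (a : ℕ → ℤ) (Ψ : ℕ → Polynomial ℚ)
    (hF : ∀ n ≤ M, coeff n (Fs a) =
        coeff n (∑ j ∈ Finset.range (h + 1), ev (Ψ j) * A ^ (h - j) * E ^ j))
    (hW : b + h * c ≤ W) (ht : t ≤ M) :
    coeff t (row h W d (Fs a) i b c) = ∑ κ : Fin (W + 1) × Fin (M + 1),
      ((Rp h Ψ i b c).coeff (κ.1 : ℕ)).coeff (κ.2 : ℕ) * Er W (2 * d + 4 * W) κ.1 κ.2 t := by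
  set G : ℚ⟦X⟧ := ∑ j ∈ Finset.range (h + 1), ev (Ψ j) * A ^ (h - j) * E ^ j with hG
  have h1 : (X : ℚ⟦X⟧) ^ (M + 1) ∣ Fs a - G := by
    rw [PowerSeries.X_pow_dvd_iff]
    intro n hn
    rw [map_sub, hF n (Nat.lt_succ_iff.1 hn), sub_self]
  have h2 : (X : ℚ⟦X⟧) ^ (M + 1) ∣ row h W d (Fs a) i b c - row h W d G i b c := by
    unfold row mon
    have e : w ^ i * (A ^ (W - h * c - b) * E ^ b * Fs a ^ c) * A ^ (2 * d + 4 * W) -
        w ^ i * (A ^ (W - h * c - b) * E ^ b * G ^ c) * A ^ (2 * d + 4 * W) =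
        w ^ i * A ^ (W - h * c - b) * E ^ b * A ^ (2 * d + 4 * W) * (Fs a ^ c - G ^ c) := by ring
    rw [e]
    exact (h1.trans (sub_dvd_pow_sub_pow _ _ c)).mul_left _
  have h3 : coeff t (row h W d (Fs a) i b c) = coeff t (row h W d G i b c) := by
    have := PowerSeries.X_pow_dvd_iff.1 h2 t (Nat.lt_succ_of_le ht)
    rw [map_sub] at this
    linarith
  rw [h3]
  unfold row
  rw [row_form h W (2 * d + 4 * W) i b c Ψ hW G hG, map_sum, Fintype.sum_prod_type,
    Finset.sum_range]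
  refine Finset.sum_congr rfl fun β _ => ?_
  rw [coeff_ev_mul _ _ t M ht, Finset.sum_range]
  rfl

/-! ### counting -/

theorem count_aux (K M : ℕ) :
    2 * ∑ n ∈ Finset.range M, (K - n) + (K - M) * (K - M + 1) = K * (K + 1) := by
  induction M with
  | zero => simp
  | succ M ih =>
    rw [Finset.sum_range_succ, ← ih]
    rcases Nat.lt_or_ge M K with h | h
    · obtain ⟨x, hx⟩ : ∃ x, K - M = x + 1 := ⟨K - M - 1, by omega⟩
      have hx' : K - (M + 1) = x := by omega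
      rw [hx, hx']
      ring
    · have h1 : K - M = 0 := by omega
      have h2 : K - (M + 1) = 0 := by omega
      rw [h1, h2]
      ring

theorem count {N W M : ℕ} (φ : Fin N → Fin (W + 1) × Fin (M + 1)) (hφ : Function.Injective φ)
    (K : ℕ) : 2 * N * K ≤ 2 * ∑ r, ((φ r).2 : ℕ) + (W + 1) * (K * (K + 1)) := by
  classical
  have h1 : N * K ≤ ∑ r, (K - ((φ r).2 : ℕ)) + ∑ r, ((φ r).2 : ℕ) := by
    rw [← Finset.sum_add_distrib]
    calc N * K = ∑ _r : Fin N, K := by simp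
      _ ≤ _ := Finset.sum_le_sum fun r _ => by omega
  have h2 : ∑ r, (K - ((φ r).2 : ℕ)) ≤ ∑ x : Fin (W + 1) × Fin (M + 1), (K - (x.2 : ℕ)) := by
    rw [← Finset.sum_image (s := Finset.univ) (g := φ) (f := fun x => K - (x.2 : ℕ))
      (fun a _ b _ h => hφ h)]
    exact Finset.sum_le_sum_of_subset (Finset.subset_univ _)
  have h3 : ∑ x : Fin (W + 1) × Fin (M + 1), (K - (x.2 : ℕ)) =
      (W + 1) * ∑ n ∈ Finset.range (M + 1), (K - n) := by
    rw [Fintype.sum_prod_type, Finset.sum_range]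
    simp
  have h4 := count_aux K (M + 1)
  have h5 : 2 * ∑ n ∈ Finset.range (M + 1), (K - n) ≤ K * (K + 1) := by
    rw [← h4]; exact Nat.le_add_right _ _
  have h6 : 2 * ((W + 1) * ∑ n ∈ Finset.range (M + 1), (K - n)) ≤ (W + 1) * (K * (K + 1)) := by
    calc 2 * ((W + 1) * ∑ n ∈ Finset.range (M + 1), (K - n))
        = (W + 1) * (2 * ∑ n ∈ Finset.range (M + 1), (K - n)) := by ring
      _ ≤ _ := Nat.mul_le_mul_left _ h5
  calc 2 * N * K = 2 * (N * K) := by ring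
    _ ≤ 2 * (∑ r, (K - ((φ r).2 : ℕ)) + ∑ r, ((φ r).2 : ℕ)) := Nat.mul_le_mul_left _ h1
    _ = 2 * ∑ r, (K - ((φ r).2 : ℕ)) + 2 * ∑ r, ((φ r).2 : ℕ) := by ring
    _ ≤ 2 * ((W + 1) * ∑ n ∈ Finset.range (M + 1), (K - n)) + 2 * ∑ r, ((φ r).2 : ℕ) := by
        rw [← h3]; exact Nat.add_le_add_right (Nat.mul_le_mul_left _ h2) _
    _ ≤ _ := by omega

/-- the sum of the exponents `i` -/
theorem sum_i {h W C d N : ℕ} (e : Fin N ≃ Fin d × Ty h W C) :
    2 * ∑ r, ((e r).1 : ℕ) ≤ N * d := by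
  have h1 : ∑ r, ((e r).1 : ℕ) = ∑ x : Fin d × Ty h W C, (x.1 : ℕ) :=
    Equiv.sum_comp e (fun x => (x.1 : ℕ))
  have h2 : ∑ x : Fin d × Ty h W C, (x.1 : ℕ) =
      Fintype.card (Ty h W C) * ∑ i ∈ Finset.range d, i := by
    rw [Fintype.sum_prod_type, Finset.sum_range, Finset.mul_sum]
    refine Finset.sum_congr rfl fun i _ => ?_
    simp
  have h3 := Finset.sum_range_id_mul_two d
  have h4 : N = d * Fintype.card (Ty h W C) := by
    have := Fintype.card_congr e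
    simpa using this
  rw [h1, h2]
  calc 2 * (Fintype.card (Ty h W C) * ∑ i ∈ Finset.range d, i)
      = Fintype.card (Ty h W C) * ((∑ i ∈ Finset.range d, i) * 2) := by ring
    _ = Fintype.card (Ty h W C) * (d * (d - 1)) := by rw [h3]
    _ ≤ Fintype.card (Ty h W C) * (d * d) :=
        Nat.mul_le_mul_left _ (Nat.mul_le_mul_left _ (Nat.sub_le _ _))
    _ = N * d := by rw [h4]; ring

/-- the real optimisation -/
theorem real_count (N W K : ℕ) (hK : K = N / (W + 1)) :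
    (N : ℝ) ^ 2 / (W + 1) - N ≤ 2 * N * K - (W + 1) * (K * (K + 1)) := by
  have hW : (0 : ℝ) < (W : ℝ) + 1 := by positivity
  have h1 := Nat.div_add_mod N (W + 1)
  have h2 : N % (W + 1) < W + 1 := Nat.mod_lt _ (Nat.succ_pos _)
  rw [← hK] at h1
  obtain ⟨s, hs⟩ : ∃ s, s = N % (W + 1) := ⟨_, rfl⟩
  rw [← hs] at h1 h2
  have h3 : (N : ℝ) = (W + 1) * K + s := by
    rw [← h1]; push_cast; ring
  have h4 : (s : ℝ) ≤ W + 1 := by exact_mod_cast h2.le
  have h5 : (0 : ℝ) ≤ s := Nat.cast_nonneg s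
  have h6 : (N : ℝ) ^ 2 / (W + 1) = (W + 1) * K ^ 2 + 2 * K * s + s ^ 2 / (W + 1) := by
    rw [h3]; field_simp; ring
  have h7 : (s : ℝ) ^ 2 / (W + 1) ≤ s := by
    rw [div_le_iff₀ hW]; nlinarith
  rw [h6, h3]
  nlinarith

end

end Run7.h423.TwoDet

namespace Run7.h423

noncomputable section

open PowerSeries Run7.h257.TwoDetCore TwoDet

theorem two_det' {h : ℕ} {a : ℕ → ℤ} {v : Polynomial ℚ} (hs : Sys h a v) (W C d : ℕ) {N : ℕ}
    (e : Fin N ≃ Fin d × Ty h W C) (t : Fin N → ℕ) (hdet : (mat h W C d a e t).det ≠ 0) :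
    (N : ℝ) ^ 2 / (W + 1) - N * d - (2 * C + 2) * N ≤ padicValRat 2 (mat h W C d a e t).det := by
  classical
  obtain ⟨M, hM⟩ : ∃ M : ℕ, ∀ j, t j ≤ M :=
    ⟨Finset.univ.sup t, fun j => Finset.le_sup (Finset.mem_univ j)⟩
  obtain ⟨Ψ, hΨ0, hΨ, hF⟩ := two_approx hs M
  have hΨ1 : ∀ j, Val 1 (Ψ j) := fun j n => by
    rcases n with _ | n
    · rw [hΨ0, padicNorm.zero]; positivity
    · refine (hΨ j n).trans (le_of_eq ?_)
      congr 1
      push_cast
      ring
  set K := N / (W + 1) with hK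
  set T : Fin N → Fin (W + 1) × Fin (M + 1) → ℚ := fun r κ =>
    ((Rp h Ψ (e r).1 (e r).2.1.1 (e r).2.1.2).coeff (κ.1 : ℕ)).coeff (κ.2 : ℕ) with hT
  set EE : Fin (W + 1) × Fin (M + 1) → Fin N → ℚ := fun κ j =>
    Er W (2 * d + 4 * W) κ.1 κ.2 (t j) with hE
  have hmat : mat h W C d a e t = Matrix.of fun r j => ∑ κ, T r κ * EE κ j := by
    ext r j
    exact coeff_row h W d M _ _ _ _ a Ψ hF (e r).2.2 (hM j)
  set Z : ℤ := 2 * N * K - (W + 1) * (K * (K + 1)) - N * d - 2 * C * N with hZ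
  have key : padicNorm 2 (mat h W C d a e t).det ≤ (2 : ℚ) ^ (-Z) := by
    rw [hmat, det_expand]
    refine padicNorm.sum_le' (fun φ _ => ?_) (by positivity)
    by_cases hinj : Function.Injective φ
    · have n1 : padicNorm 2 (∏ r, T r (φ r)) ≤
          (2 : ℚ) ^ (∑ r : Fin N, 2 * ((((e r).1 : ℕ) : ℤ) + (((e r).2.1.2 : ℕ) : ℤ) -
            (((φ r).2 : ℕ) : ℤ))) :=
        norm_prod_le _ _ _ fun r _ => Rp_val h Ψ hΨ1 _ _ _ _ _
      have n2 : padicNorm 2 (Matrix.of fun r => EE (φ r)).det ≤ (2 : ℚ) ^ (∑ _j : Fin N, (0 : ℤ)) :=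
        norm_det_le _ _ fun r j => by
          rw [zpow_zero]
          exact norm_Er _ _ _ _ _
      rw [padicNorm.mul]
      refine (mul_le_mul n1 n2 (padicNorm.nonneg _) (by positivity)).trans ?_
      rw [← zpow_add₀ (by norm_num : (2 : ℚ) ≠ 0)]
      apply zpow_le_zpow_right₀ (by norm_num)
      have p1 := count φ hinj K
      have p2 := sum_i e
      have p3 : ∑ r, ((e r).2.1.2 : ℕ) ≤ N * C := by
        calc ∑ r, ((e r).2.1.2 : ℕ) ≤ ∑ _r : Fin N, C :=
              Finset.sum_le_sum fun r _ => Nat.lt_succ_iff.1 (e r).2.1.2.2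
          _ = N * C := by simp
      have q1 : (2 * N * K : ℤ) ≤ 2 * ∑ r, (((φ r).2 : ℕ) : ℤ) + (W + 1) * (K * (K + 1)) := by
        exact_mod_cast p1
      have q2 : (2 * ∑ r, (((e r).1 : ℕ) : ℤ)) ≤ N * d := by exact_mod_cast p2
      have q3 : (∑ r, (((e r).2.1.2 : ℕ) : ℤ)) ≤ N * C := by exact_mod_cast p3
      have q4 : (∑ r : Fin N, 2 * ((((e r).1 : ℕ) : ℤ) + (((e r).2.1.2 : ℕ) : ℤ) -
            (((φ r).2 : ℕ) : ℤ))) = 2 * ∑ r, (((e r).1 : ℕ) : ℤ) +
            2 * ∑ r, (((e r).2.1.2 : ℕ) : ℤ) - 2 * ∑ r, (((φ r).2 : ℕ) : ℤ) := by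
        rw [← Finset.mul_sum, Finset.sum_sub_distrib, Finset.sum_add_distrib]
        ring
      rw [q4, Finset.sum_const_zero, hZ]
      linarith
    · have h0 : (Matrix.of fun r => EE (φ r)).det = 0 := by
        rw [Function.Injective] at hinj
        push Not at hinj
        obtain ⟨r, r', h1, h2⟩ := hinj
        exact Matrix.det_zero_of_row_eq h2 (by
          show EE (φ r) = EE (φ r')
          rw [h1])
      rw [h0, mul_zero, padicNorm.zero]
      positivity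
  rw [padicNorm.eq_zpow_of_nonzero hdet] at key
  have k1 := (zpow_le_zpow_iff_right₀ (by norm_num : (1 : ℚ) < 2)).1 (by exact_mod_cast key)
  have k2 : Z ≤ padicValRat 2 (mat h W C d a e t).det := by linarith
  have k3 : (Z : ℝ) ≤ padicValRat 2 (mat h W C d a e t).det := by exact_mod_cast k2
  have k4 := real_count N W K hK
  rw [hZ] at k3
  push_cast at k3
  have hN : (0 : ℝ) ≤ N := Nat.cast_nonneg N
  nlinarith

end

end Run7.h423
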