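import Pool.Agent.Run7.h423.Iface

/-! G11a: the polynomial ring in `Y, A, E, F`, its derivation and its two evaluations. -/

set_option autoImplicit false

namespace Run7.h423

noncomputable section

open MvPolynomial

/-- variables: `0 = Y`, `1 = A`, `2 = E`, `3 = F` -/
abbrev PP := MvPolynomial (Fin 4) ℚ

/-- the derivation -/
def dl (h : ℕ) (v : Polynomial ℚ) : Derivation ℚ PP PP :=
  MvPolynomial.mkDerivation ℚ ![X 0 * (1 + 64 * X 0 ^ 2), X 2,
    64 * X 0 ^ 2 * X 2 - 16 * X 0 ^ 2 * (1 + 64 * X 0 ^ 2) * X 1,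
    Polynomial.aeval (X 0 : PP) v * X 1 ^ h]

/-- the monomials -/
def mm (i a b c : ℕ) : PP := X 0 ^ i * X 1 ^ a * X 2 ^ b * X 3 ^ c

/-- span of the monomials with `i < d`, `a + b + h c = ω`, `c ≤ C` -/
def SS (h ω C d : ℕ) : Submodule ℚ PP :=
  Submodule.span ℚ {P | ∃ i a b c, i < d ∧ a + b + h * c = ω ∧ c ≤ C ∧ P = mm i a b c}

theorem mm_mem {h ω C d i a b c : ℕ} (hi : i < d) (hw : a + b + h * c = ω) (hc : c ≤ C) :
    mm i a b c ∈ SS h ω C d :=
  Submodule.subset_span ⟨i, a, b, c, hi, hw, hc, rfl⟩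

theorem dl_X0 (h : ℕ) (v : Polynomial ℚ) : dl h v (X 0) = X 0 * (1 + 64 * X 0 ^ 2) := by
  rw [dl, mkDerivation_X]; rfl

theorem dl_X1 (h : ℕ) (v : Polynomial ℚ) : dl h v (X 1) = X 2 := by
  rw [dl, mkDerivation_X]; rfl

theorem dl_X2 (h : ℕ) (v : Polynomial ℚ) :
    dl h v (X 2) = 64 * X 0 ^ 2 * X 2 - 16 * X 0 ^ 2 * (1 + 64 * X 0 ^ 2) * X 1 := by
  rw [dl, mkDerivation_X]; rfl

theorem dl_X3 (h : ℕ) (v : Polynomial ℚ) :
    dl h v (X 3) = Polynomial.aeval (X 0 : PP) v * X 1 ^ h := by
  rw [dl, mkDerivation_X]; rfl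

theorem dl_mm (h : ℕ) (v : Polynomial ℚ) (i a b c : ℕ) :
    dl h v (mm i a b c) =
      (i : ℚ) • (mm i a b c + (64 : ℚ) • mm (i + 2) a b c) +
      (a : ℚ) • mm i (a - 1) (b + 1) c +
      (b : ℚ) • ((64 : ℚ) • mm (i + 2) a b c - (16 : ℚ) • mm (i + 2) (a + 1) (b - 1) c
        - (1024 : ℚ) • mm (i + 4) (a + 1) (b - 1) c) +
      (c : ℚ) • (Polynomial.aeval (X 0 : PP) v * mm i (a + h) b (c - 1)) := by
  simp only [mm, Derivation.leibniz, Derivation.leibniz_pow, dl_X0, dl_X1, dl_X2, dl_X3, smul_eq_mul,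
    nsmul_eq_mul, MvPolynomial.smul_eq_C_mul, map_ofNat, map_natCast]
  rcases i with _ | i <;> rcases a with _ | a <;> rcases b with _ | b <;> rcases c with _ | c <;>
    simp <;> first | ring1 | (left; ring1)

theorem dl_mem {h : ℕ} {v : Polynomial ℚ} (h4 : 4 ≤ h) (hv : v.natDegree ≤ h) {ω C d : ℕ} {P : PP}
    (hP : P ∈ SS h ω C d) : dl h v P ∈ SS h ω C (d + h) := by
  induction hP using Submodule.span_induction with
  | mem x hx =>
    obtain ⟨i, a, b, c, hi, hw, hc, rfl⟩ := hx
    rw [dl_mm]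
    refine Submodule.add_mem _ (Submodule.add_mem _ (Submodule.add_mem _ ?_ ?_) ?_) ?_
    · exact Submodule.smul_mem _ _ (Submodule.add_mem _ (mm_mem (by omega) hw hc)
        (Submodule.smul_mem _ _ (mm_mem (by omega) hw hc)))
    · rcases a with _ | a
      · simp
      · exact Submodule.smul_mem _ _ (mm_mem (by omega) (by simp; omega) hc)
    · rcases b with _ | b
      · simp
      · exact Submodule.smul_mem _ _ (Submodule.sub_mem _ (Submodule.sub_mem _
          (Submodule.smul_mem _ _ (mm_mem (by omega) hw hc))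
          (Submodule.smul_mem _ _ (mm_mem (by omega) (by simp; omega) hc)))
          (Submodule.smul_mem _ _ (mm_mem (by omega) (by simp; omega) hc)))
    · rcases c with _ | c
      · simp
      · refine Submodule.smul_mem _ _ ?_
        rw [Polynomial.aeval_eq_sum_range, Finset.sum_mul]
        refine Submodule.sum_mem _ fun j hj => ?_
        rw [Finset.mem_range] at hj
        have e : (v.coeff j • (X 0 : PP) ^ j) * mm i (a + h) b (c + 1 - 1) =
            v.coeff j • mm (i + j) (a + h) b c := by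
          simp only [mm, MvPolynomial.smul_eq_C_mul, Nat.add_sub_cancel]
          ring
        rw [e]
        exact Submodule.smul_mem _ _ (mm_mem (by omega) (by rw [← hw]; ring) (by omega))
  | zero => simp
  | add x y _ _ hx hy => rw [map_add]; exact Submodule.add_mem _ hx hy
  | smul r x _ hx => rw [Derivation.map_smul]; exact Submodule.smul_mem _ _ hx

theorem dl_iter_mem {h : ℕ} {v : Polynomial ℚ} (h4 : 4 ≤ h) (hv : v.natDegree ≤ h) {ω C d : ℕ}
    {P : PP} (hP : P ∈ SS h ω C d) (j : ℕ) : (dl h v)^[j] P ∈ SS h ω C (d + h * j) := by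
  induction j with
  | zero => simpa using hP
  | succ j ih =>
    rw [Function.iterate_succ_apply']
    have := dl_mem h4 hv ih
    rwa [show d + h * j + h = d + h * (j + 1) by ring] at this

/-! ### the derivative in `F` -/

theorem pderiv_aeval (v : Polynomial ℚ) : pderiv 3 (Polynomial.aeval (X 0 : PP) v) = 0 := by
  induction v using Polynomial.induction_on' with
  | add p q hp hq => rw [map_add, map_add, hp, hq, add_zero]
  | monomial n a =>
    rw [Polynomial.aeval_monomial, Derivation.leibniz, Derivation.leibniz_pow, pderiv_X]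
    simp

theorem pderiv_64 : pderiv 3 (64 : PP) = 0 := by
  rw [show (64 : PP) = ((64 : ℕ) : PP) by norm_num]
  exact Derivation.map_natCast _ _

theorem pderiv_16 : pderiv 3 (16 : PP) = 0 := by
  rw [show (16 : PP) = ((16 : ℕ) : PP) by norm_num]
  exact Derivation.map_natCast _ _

theorem pderiv_dl (h : ℕ) (v : Polynomial ℚ) (P : PP) :
    pderiv 3 (dl h v P) = dl h v (pderiv 3 P) := by
  induction P using MvPolynomial.induction_on with
  | C a => simp
  | add p q hp hq => simp only [map_add, hp, hq]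
  | mul_X p i hp =>
    have key : pderiv 3 (dl h v (X i)) = dl h v (pderiv 3 (X i)) := by
      fin_cases i
      · show pderiv 3 (dl h v (X 0)) = dl h v (pderiv 3 (X 0))
        rw [dl_X0]; simp [pderiv_X, pderiv_64, pderiv_16]
      · show pderiv 3 (dl h v (X 1)) = dl h v (pderiv 3 (X 1))
        rw [dl_X1]; simp [pderiv_X]
      · show pderiv 3 (dl h v (X 2)) = dl h v (pderiv 3 (X 2))
        rw [dl_X2]; simp [pderiv_X, pderiv_64, pderiv_16]
      · show pderiv 3 (dl h v (X 3)) = dl h v (pderiv 3 (X 3))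
        rw [dl_X3, Derivation.leibniz, pderiv_aeval]; simp [pderiv_X]
    simp only [Derivation.leibniz, smul_eq_mul, map_add, hp, key]
    ring

theorem pderiv_dl_iter (h : ℕ) (v : Polynomial ℚ) (P : PP) (c j : ℕ) :
    (pderiv 3)^[c] ((dl h v)^[j] P) = (dl h v)^[j] ((pderiv 3)^[c] P) :=
  (Function.Commute.iterate_iterate (f := (pderiv 3 : PP → PP)) (g := (dl h v : PP → PP))
    (fun P => pderiv_dl h v P) c j) P

theorem pderiv_mm (i a b c : ℕ) : pderiv 3 (mm i a b c) = (c : ℚ) • mm i a b (c - 1) := by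
  simp only [mm, Derivation.leibniz, Derivation.leibniz_pow, pderiv_X, smul_eq_mul,
    nsmul_eq_mul, MvPolynomial.smul_eq_C_mul, map_natCast]
  rcases c with _ | c <;> simp
  ring

theorem pderiv_mem {h ω C d : ℕ} {P : PP} (hP : P ∈ SS h (ω + h) C d) :
    pderiv 3 P ∈ SS h ω C d := by
  induction hP using Submodule.span_induction with
  | mem x hx =>
    obtain ⟨i, a, b, c, hi, hw, hc, rfl⟩ := hx
    rw [pderiv_mm]
    rcases c with _ | c
    · simp
    · refine Submodule.smul_mem _ _ (mm_mem hi ?_ (by omega))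
      simp only [Nat.add_sub_cancel]
      have : h * (c + 1) = h * c + h := by ring
      omega
  | zero => simp
  | add x y _ _ hx hy => rw [map_add]; exact Submodule.add_mem _ hx hy
  | smul r x _ hx => rw [Derivation.map_smul]; exact Submodule.smul_mem _ _ hx

theorem pderiv_iter_mem {h W C d : ℕ} {P : PP} (hP : P ∈ SS h W C d) (c : ℕ) (hc : h * c ≤ W) :
    (pderiv 3)^[c] P ∈ SS h (W - h * c) C d := by
  induction c with
  | zero => simpa using hP
  | succ c ih =>
    rw [Function.iterate_succ_apply']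
    have h1 : h * (c + 1) = h * c + h := by ring
    apply pderiv_mem
    have := ih (by omega)
    rwa [show W - h * (c + 1) + h = W - h * c by omega]

/-! ### the evaluations -/

/-- evaluation at `(w, A, E, F)` -/
def ev0 (F : PowerSeries ℚ) : PP →ₐ[ℚ] PowerSeries ℚ := aeval ![w, A, E, F]

theorem ev0_X0 (F : PowerSeries ℚ) : ev0 F (X 0) = w := by rw [ev0, aeval_X]; rfl
theorem ev0_X1 (F : PowerSeries ℚ) : ev0 F (X 1) = A := by rw [ev0, aeval_X]; rfl
theorem ev0_X2 (F : PowerSeries ℚ) : ev0 F (X 2) = E := by rw [ev0, aeval_X]; rfl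
theorem ev0_X3 (F : PowerSeries ℚ) : ev0 F (X 3) = F := by rw [ev0, aeval_X]; rfl

theorem ev0_aeval (F : PowerSeries ℚ) (v : Polynomial ℚ) :
    ev0 F (Polynomial.aeval (X 0 : PP) v) = ev v := by
  rw [ev, ← Polynomial.aeval_algHom_apply, ev0_X0]

theorem ev0_mm (F : PowerSeries ℚ) (i a b c : ℕ) :
    ev0 F (mm i a b c) = w ^ i * A ^ a * E ^ b * F ^ c := by
  simp only [mm, map_mul, map_pow, ev0_X0, ev0_X1, ev0_X2, ev0_X3]

theorem th_ev0 {h : ℕ} {a : ℕ → ℤ} {v : Polynomial ℚ} (hs : Sys h a v) (P : PP) :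
    th (ev0 (Fs a) P) = ev0 (Fs a) (dl h v P) := by
  induction P using MvPolynomial.induction_on with
  | C x =>
    rw [MvPolynomial.algHom_C, Derivation.map_algebraMap]
    have : dl h v (C x) = 0 := Derivation.map_algebraMap (dl h v) x
    rw [this, map_zero]
  | add p q hp hq => simp only [map_add, hp, hq]
  | mul_X p i hp =>
    have key : th (ev0 (Fs a) (X i)) = ev0 (Fs a) (dl h v (X i)) := by
      fin_cases i
      · show th (ev0 (Fs a) (X 0)) = ev0 (Fs a) (dl h v (X 0))
        rw [dl_X0, ev0_X0, th_w]; simp only [map_mul, map_add, map_pow, map_one, map_ofNat, ev0_X0]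
      · show th (ev0 (Fs a) (X 1)) = ev0 (Fs a) (dl h v (X 1))
        rw [dl_X1, ev0_X1, th_A]; simp [ev0_X2]
      · show th (ev0 (Fs a) (X 2)) = ev0 (Fs a) (dl h v (X 2))
        rw [dl_X2, ev0_X2, th_E]
        simp only [map_mul, map_add, map_sub, map_pow, map_one, map_ofNat, ev0_X0, ev0_X1, ev0_X2]
      · show th (ev0 (Fs a) (X 3)) = ev0 (Fs a) (dl h v (X 3))
        rw [dl_X3, ev0_X3, hs.ode, map_mul, map_pow, ev0_aeval, ev0_X1]
    simp only [Derivation.leibniz, smul_eq_mul, map_add, map_mul, hp, key]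

theorem th_iter_ev0 {h : ℕ} {a : ℕ → ℤ} {v : Polynomial ℚ} (hs : Sys h a v) (P : PP) (j : ℕ) :
    th^[j] (ev0 (Fs a) P) = ev0 (Fs a) ((dl h v)^[j] P) := by
  induction j with
  | zero => rfl
  | succ j ih => rw [Function.iterate_succ_apply', Function.iterate_succ_apply', ih, th_ev0 hs]

/-- iterated primitives of the odd part -/
def Fj (a : ℕ → ℤ) (j : ℕ) : PowerSeries ℚ :=
  PowerSeries.mk fun n => if Odd n then (a n : ℚ) / (n : ℚ) ^ (j + 1) else 0

theorem Fj_zero (a : ℕ → ℤ) : Fj a 0 = Fs a := by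
  ext n
  rw [Fj, Fs, PowerSeries.coeff_mk, PowerSeries.coeff_mk, zero_add, pow_one]

theorem D_Fj (a : ℕ → ℤ) (j : ℕ) : D (Fj a (j + 1)) = Fj a j := by
  ext n
  rw [coeff_D, Fj, Fj, PowerSeries.coeff_mk, PowerSeries.coeff_mk]
  split_ifs with hn
  · have : (n : ℚ) ≠ 0 := by
      rcases hn with ⟨k, rfl⟩
      positivity
    field_simp
    ring
  · simp

/-- the primitive of `L ^ h D F` -/
def Finf (h : ℕ) (a : ℕ → ℤ) : Polynomial (PowerSeries ℚ) :=
  ∑ j ∈ Finset.range (h + 1), Polynomial.C (((-1) ^ j * (h.descFactorial j : ℚ)) • Fj a j) *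
    Polynomial.X ^ (h - j)

/-- evaluation at the second solution -/
def evL (h : ℕ) (a : ℕ → ℤ) : PP →ₐ[ℚ] Polynomial (PowerSeries ℚ) :=
  aeval ![Polynomial.C w, Polynomial.C A * Polynomial.X,
    Polynomial.C E * Polynomial.X + Polynomial.C (S * A⁻¹), Finf h a]

section

variable (h : ℕ) (a : ℕ → ℤ)

theorem evL_X0 : evL h a (X 0) = Polynomial.C w := by rw [evL, aeval_X]; rfl
theorem evL_X1 : evL h a (X 1) = Polynomial.C A * Polynomial.X := by rw [evL, aeval_X]; rfl
theorem evL_X2 : evL h a (X 2) = Polynomial.C E * Polynomial.X + Polynomial.C (S * A⁻¹) := by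
  rw [evL, aeval_X]; rfl
theorem evL_X3 : evL h a (X 3) = Finf h a := by rw [evL, aeval_X]; rfl

theorem evL_aeval (v : Polynomial ℚ) :
    evL h a (Polynomial.aeval (X 0 : PP) v) = Polynomial.C (ev v) := by
  rw [← Polynomial.aeval_algHom_apply, evL_X0, ev]
  exact (Polynomial.aeval_algHom_apply (Polynomial.CAlgHom (R := ℚ) (A := PowerSeries ℚ)) w v)

end

theorem thL_C (f : PowerSeries ℚ) : thL (Polynomial.C f) = Polynomial.C (th f) := by
  show Polynomial.C (S * A⁻¹ ^ 2) * DL (Polynomial.C f) = _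
  rw [DL_C, ← map_mul]
  rfl

theorem thL_X : thL (Polynomial.X : Polynomial (PowerSeries ℚ)) = Polynomial.C (S * A⁻¹ ^ 2) := by
  show Polynomial.C (S * A⁻¹ ^ 2) * DL Polynomial.X = _
  rw [DL_X, mul_one]

theorem S_ne_zero : S ≠ 0 := by
  intro h
  have h1 := congrArg PowerSeries.constantCoeff S_sq
  rw [h] at h1
  simp [w_coeff_zero] at h1

theorem th_S : th S = 64 * w ^ 2 * S := by
  have h1 := congrArg th S_sq
  have h64 : th (64 : PowerSeries ℚ) = 0 := by
    rw [show (64 : PowerSeries ℚ) = ((64 : ℕ) : PowerSeries ℚ) by norm_num]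
    exact Derivation.map_natCast _ _
  rw [Derivation.leibniz_pow, map_add, Derivation.leibniz, Derivation.leibniz_pow, h64, th_w,
    Derivation.map_one_eq_zero] at h1
  simp only [nsmul_eq_mul, smul_eq_mul, Nat.cast_ofNat] at h1
  apply mul_left_cancel₀ S_ne_zero
  have h2 : (2 : PowerSeries ℚ) * (S * th S) = 2 * (S * (64 * w ^ 2 * S)) := by
    have h3 := S_sq
    linear_combination h1 - (128 * w ^ 2) * h3
  have h22 : (2 : PowerSeries ℚ) ≠ 0 := by
    intro h0
    have := congrArg PowerSeries.constantCoeff h0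
    rw [map_ofNat, map_zero] at this
    norm_num at this
  exact mul_left_cancel₀ h22 h2

theorem th_Ainv : th A⁻¹ = - (A⁻¹ ^ 2 * E) := by
  have h1 := congrArg th A_mul_inv
  rw [Derivation.leibniz, Derivation.map_one_eq_zero, th_A, smul_eq_mul, smul_eq_mul] at h1
  have h2 := A_mul_inv
  linear_combination A⁻¹ * h1 - th A⁻¹ * h2

theorem DL_Finf (h : ℕ) (a : ℕ → ℤ) :
    DL (Finf h a) = Polynomial.C (D (Fs a)) * Polynomial.X ^ h := by
  have hterm : ∀ j ∈ Finset.range (h + 1),
      DL (Polynomial.C (((-1) ^ j * (h.descFactorial j : ℚ)) • Fj a j) * Polynomial.X ^ (h - j)) =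
      Polynomial.C (((-1) ^ j * (h.descFactorial j : ℚ)) • D (Fj a j)) * Polynomial.X ^ (h - j)
      - (if j = h then 0 else
        Polynomial.C (((-1) ^ (j + 1) * (h.descFactorial (j + 1) : ℚ)) • Fj a j) *
          Polynomial.X ^ (h - (j + 1))) := by
    intro j hj
    rw [Finset.mem_range] at hj
    rw [Derivation.leibniz, Derivation.leibniz_pow, DL_X, DL_C, Derivation.map_smul]
    simp only [smul_eq_mul, nsmul_eq_mul, mul_one]
    split_ifs with hjh
    · subst hjh
      simp
    · rw [Nat.descFactorial_succ, show h - j - 1 = h - (j + 1) by omega]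
      have e : (((-1) ^ (j + 1) * (((h - j) * h.descFactorial j : ℕ) : ℚ)) • Fj a j) =
          - (((h - j : ℕ) : PowerSeries ℚ) * (((-1) ^ j * (h.descFactorial j : ℚ)) • Fj a j)) := by
        rw [PowerSeries.smul_eq_C_mul, PowerSeries.smul_eq_C_mul]
        simp only [map_mul, map_pow, map_neg, map_one, map_natCast, Nat.cast_mul]
        ring
      rw [e, map_neg, map_mul, map_natCast]
      ring
  rw [Finf, map_sum, Finset.sum_congr rfl hterm, Finset.sum_sub_distrib, Finset.sum_range_succ' ]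
  rw [Finset.sum_range_succ (fun j => if j = h then (0 : Polynomial (PowerSeries ℚ)) else _)]
  rw [if_pos rfl, add_zero]
  have e2 : ∑ j ∈ Finset.range h, (if j = h then (0 : Polynomial (PowerSeries ℚ)) else
        Polynomial.C (((-1) ^ (j + 1) * (h.descFactorial (j + 1) : ℚ)) • Fj a j) *
          Polynomial.X ^ (h - (j + 1))) =
      ∑ j ∈ Finset.range h, Polynomial.C (((-1) ^ (j + 1) * (h.descFactorial (j + 1) : ℚ)) •
        D (Fj a (j + 1))) * Polynomial.X ^ (h - (j + 1)) := by
    refine Finset.sum_congr rfl fun j hj => ?_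
    rw [Finset.mem_range] at hj
    rw [if_neg (by omega), D_Fj]
  rw [e2, Fj_zero]
  simp

theorem thL_Finf {h : ℕ} {a : ℕ → ℤ} {v : Polynomial ℚ} (hs : Sys h a v) :
    thL (Finf h a) = Polynomial.C (ev v) * (Polynomial.C A * Polynomial.X) ^ h := by
  show Polynomial.C (S * A⁻¹ ^ 2) * DL (Finf h a) = _
  rw [DL_Finf, ← mul_assoc, ← map_mul]
  have : S * A⁻¹ ^ 2 * D (Fs a) = th (Fs a) := rfl
  rw [this, hs.ode, mul_pow, map_mul, map_pow]
  ring

theorem thL_evL {h : ℕ} {a : ℕ → ℤ} {v : Polynomial ℚ} (hs : Sys h a v) (P : PP) :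
    thL (evL h a P) = evL h a (dl h v P) := by
  induction P using MvPolynomial.induction_on with
  | C x =>
    rw [MvPolynomial.algHom_C, Derivation.map_algebraMap]
    have : dl h v (C x) = 0 := Derivation.map_algebraMap (dl h v) x
    rw [this, map_zero]
  | add p q hp hq => simp only [map_add, hp, hq]
  | mul_X p i hp =>
    have key : thL (evL h a (X i)) = evL h a (dl h v (X i)) := by
      fin_cases i
      · show thL (evL h a (X 0)) = evL h a (dl h v (X 0))
        rw [dl_X0, evL_X0, thL_C, th_w]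
        simp only [map_mul, map_add, map_pow, map_one, map_ofNat, evL_X0]
      · show thL (evL h a (X 1)) = evL h a (dl h v (X 1))
        rw [dl_X1, evL_X1, Derivation.leibniz, thL_C, thL_X, th_A, evL_X2, smul_eq_mul, smul_eq_mul,
          ← map_mul]
        have e : A * (S * A⁻¹ ^ 2) = S * A⁻¹ := by
          linear_combination (S * A⁻¹) * A_mul_inv
        rw [e]
        ring
      · show thL (evL h a (X 2)) = evL h a (dl h v (X 2))
        rw [dl_X2, evL_X2, map_add, Derivation.leibniz, thL_C, thL_X, thL_C, th_E,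
          Derivation.leibniz, th_Ainv, th_S]
        simp only [smul_eq_mul, map_sub, map_mul, map_pow, map_add, map_one, map_ofNat, evL_X0, evL_X1,
          evL_X2, map_neg]
        ring
      · show thL (evL h a (X 3)) = evL h a (dl h v (X 3))
        rw [dl_X3, evL_X3, thL_Finf hs, map_mul, map_pow, evL_aeval, evL_X1]
    simp only [Derivation.leibniz, smul_eq_mul, map_add, map_mul, hp, key]

theorem thL_iter_evL {h : ℕ} {a : ℕ → ℤ} {v : Polynomial ℚ} (hs : Sys h a v) (P : PP) (j : ℕ) :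
    thL^[j] (evL h a P) = evL h a ((dl h v)^[j] P) := by
  induction j with
  | zero => rfl
  | succ j ih => rw [Function.iterate_succ_apply', Function.iterate_succ_apply', ih, thL_evL hs]

theorem thL_derivative (P : Polynomial (PowerSeries ℚ)) :
    thL (Polynomial.derivative P) = Polynomial.derivative (thL P) := by
  show Polynomial.C (S * A⁻¹ ^ 2) * DL (Polynomial.derivative P) =
    Polynomial.derivative (Polynomial.C (S * A⁻¹ ^ 2) * DL P)
  rw [DL_derivative, Polynomial.derivative_mul, Polynomial.derivative_C]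
  ring

/-! ### degree in `L` and the leading coefficient -/

theorem Finf_deg (h : ℕ) (a : ℕ → ℤ) : (Finf h a).natDegree ≤ h := by
  refine Polynomial.natDegree_sum_le_of_forall_le _ _ fun j _ => ?_
  exact (Polynomial.natDegree_C_mul_X_pow_le _ _).trans (Nat.sub_le _ _)

theorem Finf_coeff (h : ℕ) (a : ℕ → ℤ) : (Finf h a).coeff h = Fs a := by
  rw [Finf, Polynomial.finsetSum_coeff, Finset.sum_eq_single 0]
  · rw [Polynomial.coeff_C_mul_X_pow, if_pos (by omega), Fj_zero]
    simp
  · intro j hj hj0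
    rw [Finset.mem_range] at hj
    rw [Polynomial.coeff_C_mul_X_pow, if_neg (by omega)]
  · intro h0
    simp at h0

theorem evL_mm_deg {h : ℕ} {a : ℕ → ℤ} (i x b c : ℕ) :
    (evL h a (mm i x b c)).natDegree ≤ x + b + h * c ∧
      (evL h a (mm i x b c)).coeff (x + b + h * c) = ev0 (Fs a) (mm i x b c) := by
  have h0 : ((Polynomial.C w : Polynomial (PowerSeries ℚ)) ^ i).natDegree ≤ 0 := by
    rw [← map_pow, Polynomial.natDegree_C]
  have h1 : (Polynomial.C A * Polynomial.X : Polynomial (PowerSeries ℚ)).natDegree ≤ 1 :=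
    by simpa using Polynomial.natDegree_C_mul_X_pow_le A 1
  have h2 : (Polynomial.C E * Polynomial.X + Polynomial.C (S * A⁻¹) :
      Polynomial (PowerSeries ℚ)).natDegree ≤ 1 := Polynomial.natDegree_linear_le
  have h1' := Polynomial.natDegree_pow_le_of_le x h1
  have h2' := Polynomial.natDegree_pow_le_of_le b h2
  have h3' := Polynomial.natDegree_pow_le_of_le c (Finf_deg h a)
  have c1 := Polynomial.coeff_pow_of_natDegree_le (m := x) h1
  have c2 := Polynomial.coeff_pow_of_natDegree_le (m := b) h2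
  have c3 := Polynomial.coeff_pow_of_natDegree_le (m := c) (Finf_deg h a)
  rw [mul_one] at h1' h2' c1 c2
  have g1 := Polynomial.natDegree_mul_le_of_le h0 h1'
  have g2 := Polynomial.natDegree_mul_le_of_le g1 h2'
  have g3 := Polynomial.natDegree_mul_le_of_le g2 h3'
  have e : evL h a (mm i x b c) = Polynomial.C w ^ i * (Polynomial.C A * Polynomial.X) ^ x *
      (Polynomial.C E * Polynomial.X + Polynomial.C (S * A⁻¹)) ^ b * Finf h a ^ c := by
    simp only [mm, map_mul, map_pow, evL_X0, evL_X1, evL_X2, evL_X3]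
  have e3 : x + b + h * c = 0 + x + b + c * h := by ring
  rw [e, e3]
  refine ⟨g3, ?_⟩
  rw [Polynomial.coeff_mul_add_eq_of_natDegree_le g2 h3',
    Polynomial.coeff_mul_add_eq_of_natDegree_le g1 h2',
    Polynomial.coeff_mul_add_eq_of_natDegree_le h0 h1', c1, c2, c3, Finf_coeff, ev0_mm, ← map_pow,
    Polynomial.coeff_C_zero]
  simp

theorem evL_deg {h : ℕ} {a : ℕ → ℤ} {ω C d : ℕ} {P : PP} (hP : P ∈ SS h ω C d) :
    (evL h a P).natDegree ≤ ω ∧ (evL h a P).coeff ω = ev0 (Fs a) P := by
  induction hP using Submodule.span_induction with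
  | mem x hx =>
    obtain ⟨i, x, b, c, hi, hw, hc, rfl⟩ := hx
    subst hw
    exact evL_mm_deg i x b c
  | zero => simp
  | add x y _ _ hx hy =>
    rw [map_add, map_add, Polynomial.coeff_add, hx.2, hy.2]
    exact ⟨Polynomial.natDegree_add_le_of_degree_le hx.1 hy.1, rfl⟩
  | smul r x _ hx =>
    rw [map_smul, map_smul, Polynomial.coeff_smul, hx.2]
    exact ⟨(Polynomial.natDegree_smul_le _ _).trans hx.1, rfl⟩

end

end Run7.h423
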