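import Pool.Agent.Run7.h423.ZeroA

/-! G11b: zero estimate. -/

set_option autoImplicit false

namespace Run7.h423

noncomputable section

open MvPolynomial

/-! ### bounded denominators -/

/-- bounded denominators at `p` -/
def BD (p : ℕ) (f : PowerSeries ℚ) : Prop :=
  ∃ k : ℕ, ∀ n, padicNorm p (PowerSeries.coeff n f) ≤ (p : ℚ) ^ k

theorem BD.add {p : ℕ} (hp : p.Prime) {f g : PowerSeries ℚ} (hf : BD p f) (hg : BD p g) :
    BD p (f + g) := by
  have := Fact.mk hp
  obtain ⟨k, hk⟩ := hf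
  obtain ⟨l, hl⟩ := hg
  have h1 : (1 : ℚ) ≤ p := by exact_mod_cast hp.one_lt.le
  refine ⟨max k l, fun n => ?_⟩
  rw [map_add]
  refine padicNorm.nonarchimedean.trans (max_le ((hk n).trans ?_) ((hl n).trans ?_))
  · exact pow_le_pow_right₀ h1 (le_max_left _ _)
  · exact pow_le_pow_right₀ h1 (le_max_right _ _)

theorem BD.mul {p : ℕ} (hp : p.Prime) {f g : PowerSeries ℚ} (hf : BD p f) (hg : BD p g) :
    BD p (f * g) := by
  have := Fact.mk hp
  obtain ⟨k, hk⟩ := hf
  obtain ⟨l, hl⟩ := hg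
  refine ⟨k + l, fun n => ?_⟩
  rw [PowerSeries.coeff_mul]
  refine padicNorm.sum_le' (fun i _ => ?_) (by positivity)
  rw [padicNorm.mul, pow_add]
  exact mul_le_mul (hk _) (hl _) (padicNorm.nonneg _) (by positivity)

theorem BD.of_isInt {p : ℕ} (hp : p.Prime) {f : PowerSeries ℚ} (hf : IsInt f) : BD p f := by
  have := Fact.mk hp
  refine ⟨0, fun n => ?_⟩
  obtain ⟨z, hz⟩ := hf n
  rw [hz, pow_zero]
  exact padicNorm.of_int z

theorem BD.C {p : ℕ} (hp : p.Prime) (x : ℚ) : BD p (PowerSeries.C x) := by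
  have := Fact.mk hp
  have h1 : (1 : ℚ) < p := by exact_mod_cast hp.one_lt
  obtain ⟨k, hk⟩ := pow_unbounded_of_one_lt (padicNorm p x) h1
  refine ⟨k, fun n => ?_⟩
  rw [PowerSeries.coeff_C]
  split_ifs
  · exact hk.le
  · rw [padicNorm.zero]; positivity

theorem BD.sum {p : ℕ} (hp : p.Prime) {ι : Type} (s : Finset ι) (f : ι → PowerSeries ℚ)
    (h : ∀ i ∈ s, BD p (f i)) : BD p (∑ i ∈ s, f i) := by
  classical
  induction s using Finset.induction_on with
  | empty => exact ⟨0, fun n => by simp⟩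
  | insert i s hi ih =>
    rw [Finset.sum_insert hi]
    exact (h i (Finset.mem_insert_self _ _)).add hp
      (ih fun j hj => h j (Finset.mem_insert_of_mem hj))

theorem BD.smul {p : ℕ} (hp : p.Prime) {f : PowerSeries ℚ} (hf : BD p f) (x : ℚ) :
    BD p (x • f) := by
  rw [PowerSeries.smul_eq_C_mul]
  exact (BD.C hp x).mul hp hf

theorem BD.ev {p : ℕ} (hp : p.Prime) (P : Polynomial ℚ) : BD p (ev P) := by
  rw [Run7.h423.ev, Polynomial.aeval_eq_sum_range]
  exact BD.sum hp _ _ fun i _ => (BD.of_isInt hp (isInt_w.pow i)).smul hp _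

/-! ### values of polynomials at `w` -/

/-- `w = X * u` with `u(0) = 1` -/
theorem w_eq : ∃ u : PowerSeries ℚ, w = PowerSeries.X * u ∧ PowerSeries.constantCoeff u = 1 := by
  obtain ⟨u, hu⟩ := PowerSeries.X_dvd_iff.2 w_coeff_zero
  refine ⟨u, hu, ?_⟩
  have := w_coeff_one
  rw [hu, show (1 : ℕ) = 0 + 1 from rfl, PowerSeries.coeff_succ_X_mul] at this
  simpa using this

theorem dvd_of_ev (P : Polynomial ℚ) (M : ℕ) (h : (PowerSeries.X : PowerSeries ℚ) ^ M ∣ ev P) :
    (Polynomial.X : Polynomial ℚ) ^ M ∣ P := by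
  obtain ⟨u, hu, hu1⟩ := w_eq
  have hu0 : IsUnit u := by
    rw [PowerSeries.isUnit_iff_constantCoeff, hu1]; exact isUnit_one
  induction M generalizing P with
  | zero => simp
  | succ M ih =>
    have h0 : P.coeff 0 = 0 := by
      have h1 : PowerSeries.constantCoeff (ev P) = P.coeff 0 := by
        rw [ev, Polynomial.aeval_eq_sum_range, map_sum, Finset.sum_eq_single 0]
        · simp
        · intro i _ hi
          rw [PowerSeries.smul_eq_C_mul, map_mul, map_pow, w_coeff_zero, zero_pow hi, mul_zero]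
        · intro h; simp at h
      rw [← h1]
      obtain ⟨g, hg⟩ := h
      rw [hg, pow_succ]
      simp
    obtain ⟨Q, hQ⟩ := Polynomial.X_dvd_iff.2 h0
    have h2 : ev P = PowerSeries.X * (u * ev Q) := by
      rw [hQ, ev, map_mul, Polynomial.aeval_X]
      rw [ev, ← mul_assoc, ← hu]
    have h3 : (PowerSeries.X : PowerSeries ℚ) ^ M ∣ ev Q := by
      rw [h2, pow_succ, mul_comm (PowerSeries.X ^ M)] at h
      have h4 := (mul_dvd_mul_iff_left PowerSeries.X_ne_zero).1 h
      exact (hu0.dvd_mul_left).1 h4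
    rw [hQ, pow_succ, mul_comm]
    exact mul_dvd_mul_left _ (ih Q h3)

theorem ev_ne_zero {P : Polynomial ℚ} (hP : P ≠ 0) : ev P ≠ 0 := by
  intro h
  have h1 := dvd_of_ev P (P.natDegree + 1) (by rw [h]; exact dvd_zero _)
  have h2 := Polynomial.natDegree_le_of_dvd h1 hP
  rw [Polynomial.natDegree_X_pow] at h2
  omega

theorem ord_ev {P : Polynomial ℚ} (hP : P ≠ 0) {M : ℕ}
    (h : (PowerSeries.X : PowerSeries ℚ) ^ (M + 1) ∣ ev P) : M + 1 ≤ P.natDegree := by
  have h2 := Polynomial.natDegree_le_of_dvd (dvd_of_ev P (M + 1) h) hP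
  rwa [Polynomial.natDegree_X_pow] at h2

/-! ### coefficient vectors -/

/-- coefficient of `A^x E^b F^c` -/
def cf (x b c : ℕ) : PP →ₗ[ℚ] Polynomial ℚ :=
  (MvPolynomial.basisMonomials (Fin 4) ℚ).constr ℚ fun s =>
    if s 1 = x ∧ s 2 = b ∧ s 3 = c then Polynomial.X ^ (s 0) else 0

theorem cf_mm (x b c i x' b' c' : ℕ) :
    cf x b c (mm i x' b' c') = if x' = x ∧ b' = b ∧ c' = c then Polynomial.X ^ i else 0 := by
  have h : mm i x' b' c' = MvPolynomial.basisMonomials (Fin 4) ℚ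
      (Finsupp.single 0 i + Finsupp.single 1 x' + Finsupp.single 2 b' + Finsupp.single 3 c') := by
    rw [MvPolynomial.coe_basisMonomials, mm, X_pow_eq_monomial, X_pow_eq_monomial,
      X_pow_eq_monomial, X_pow_eq_monomial, monomial_mul, monomial_mul, monomial_mul]
    simp
  rw [h, cf, Module.Basis.constr_basis]
  simp

variable {h W C : ℕ}

/-- the exponent of `A` of a type -/
def ea (κ : Ty h W C) : ℕ := W - h * (κ.1.2 : ℕ) - (κ.1.1 : ℕ)

theorem ea_add (κ : Ty h W C) : ea κ + (κ.1.1 : ℕ) + h * (κ.1.2 : ℕ) = W := by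
  have := κ.2
  unfold ea
  omega

/-- the polynomial of a vector -/
def toPP (P : Ty h W C → Polynomial ℚ) : PP :=
  ∑ κ, Polynomial.aeval (X 0 : PP) (P κ) * mm 0 (ea κ) (κ.1.1 : ℕ) (κ.1.2 : ℕ)

/-- the vector of a polynomial -/
def cfT (h W C : ℕ) (P : PP) (κ : Ty h W C) : Polynomial ℚ := cf (ea κ) (κ.1.1 : ℕ) (κ.1.2 : ℕ) P

theorem aeval_mul_mm (p : Polynomial ℚ) (x b c : ℕ) :
    Polynomial.aeval (X 0 : PP) p * mm 0 x b c =
      ∑ j ∈ Finset.range (p.natDegree + 1), p.coeff j • mm j x b c := by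
  rw [Polynomial.aeval_eq_sum_range, Finset.sum_mul]
  refine Finset.sum_congr rfl fun j _ => ?_
  simp only [mm, MvPolynomial.smul_eq_C_mul]
  ring

theorem toPP_mem {d : ℕ} {P : Ty h W C → Polynomial ℚ} (C' : ℕ)
    (hP : ∀ κ, P κ = 0 ∨ ((P κ).natDegree < d ∧ (κ.1.2 : ℕ) ≤ C')) : toPP P ∈ SS h W C' d := by
  refine Submodule.sum_mem _ fun κ _ => ?_
  rcases hP κ with h0 | ⟨h1, h2⟩
  · rw [h0, map_zero, zero_mul]; exact Submodule.zero_mem _
  · rw [aeval_mul_mm]
    refine Submodule.sum_mem _ fun j hj => Submodule.smul_mem _ _ ?_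
    rw [Finset.mem_range] at hj
    exact mm_mem (by omega) (ea_add κ) h2

theorem toPP_add (P Q : Ty h W C → Polynomial ℚ) : toPP (P + Q) = toPP P + toPP Q := by
  simp only [toPP, Pi.add_apply, map_add, add_mul, Finset.sum_add_distrib]

theorem toPP_smul (r : ℚ) (P : Ty h W C → Polynomial ℚ) : toPP (r • P) = r • toPP P := by
  simp only [toPP, Pi.smul_apply, map_smul, smul_mul_assoc, Finset.smul_sum]

theorem toPP_cfT {d : ℕ} {P : PP} (hP : P ∈ SS h W C d) : toPP (cfT h W C P) = P := by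
  classical
  induction hP using Submodule.span_induction with
  | mem x hx =>
    obtain ⟨i, x, b, c, hi, hw, hc, rfl⟩ := hx
    have hb : b < W + 1 := by omega
    have hle : b + h * c ≤ W := by omega
    set κ : Ty h W C := ⟨(⟨b, hb⟩, ⟨c, by omega⟩), hle⟩ with hκ
    have hx' : x = ea κ := by
      have := ea_add κ
      simp only [hκ] at this ⊢
      omega
    unfold toPP
    rw [Finset.sum_eq_single κ]
    · rw [cfT, cf_mm, if_pos ⟨hx', rfl, rfl⟩]
      simp only [map_pow, Polynomial.aeval_X, mm, hκ]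
      rw [← hx']
      ring
    · intro κ' _ hne
      rw [cfT, cf_mm, if_neg, map_zero, zero_mul]
      rintro ⟨_, h2, h3⟩
      apply hne
      apply Subtype.ext
      apply Prod.ext
      · exact Fin.ext h2.symm
      · exact Fin.ext h3.symm
    · intro h; exact absurd (Finset.mem_univ _) h
  | zero =>
    unfold toPP cfT
    simp
  | add x y _ _ hx hy =>
    have : cfT h W C (x + y) = cfT h W C x + cfT h W C y := by
      funext κ; simp [cfT]
    rw [this, toPP_add, hx, hy]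
  | smul r x _ hx =>
    have : cfT h W C (r • x) = r • cfT h W C x := by
      funext κ; simp [cfT]
    rw [this, toPP_smul, hx]

theorem cfT_deg {d : ℕ} {P : PP} (hP : P ∈ SS h W C d) (κ : Ty h W C) :
    cfT h W C P κ ∈ Polynomial.degreeLT ℚ d := by
  induction hP using Submodule.span_induction with
  | mem x hx =>
    obtain ⟨i, x, b, c, hi, hw, hc, rfl⟩ := hx
    rw [cfT, cf_mm]
    split_ifs
    · rw [Polynomial.mem_degreeLT, Polynomial.degree_X_pow]
      exact_mod_cast hi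
    · exact Submodule.zero_mem _
  | zero => simp [cfT]
  | add x y _ _ hx hy =>
    have : cfT h W C (x + y) κ = cfT h W C x κ + cfT h W C y κ := by simp [cfT]
    rw [this]; exact Submodule.add_mem _ hx hy
  | smul r x _ hx =>
    have : cfT h W C (r • x) κ = r • cfT h W C x κ := by simp [cfT]
    rw [this]; exact Submodule.smul_mem _ _ hx

theorem ev0_toPP (F : PowerSeries ℚ) (P : Ty h W C → Polynomial ℚ) :
    ev0 F (toPP P) = ∑ κ, ev (P κ) * mon h W F (κ.1.1 : ℕ) (κ.1.2 : ℕ) := by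
  unfold toPP
  rw [map_sum]
  refine Finset.sum_congr rfl fun κ _ => ?_
  rw [map_mul, ev0_aeval, ev0_mm, mon, ea]
  ring

/-! ### the iterated `F`-derivative -/

theorem pderiv_mul_aeval (p : Polynomial ℚ) (Q : PP) :
    pderiv 3 (Polynomial.aeval (X 0 : PP) p * Q) = Polynomial.aeval (X 0 : PP) p * pderiv 3 Q := by
  rw [Derivation.leibniz, pderiv_aeval]
  simp

theorem pderiv_iter_mm (p : Polynomial ℚ) (x b c k : ℕ) :
    (pderiv 3)^[k] (Polynomial.aeval (X 0 : PP) p * mm 0 x b c) =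
      ((c.descFactorial k : ℕ) : ℚ) • (Polynomial.aeval (X 0 : PP) p * mm 0 x b (c - k)) := by
  induction k with
  | zero => simp
  | succ k ih =>
    rw [Function.iterate_succ_apply', ih, Derivation.map_smul, pderiv_mul_aeval, pderiv_mm,
      Nat.descFactorial_succ, mul_smul_comm, smul_smul, Nat.sub_sub]
    congr 1
    push_cast
    ring

theorem pderiv_iter_sum {ι : Type} (s : Finset ι) (f : ι → PP) (k : ℕ) :
    (pderiv 3)^[k] (∑ i ∈ s, f i) = ∑ i ∈ s, (pderiv 3)^[k] (f i) := by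
  induction k generalizing f with
  | zero => rfl
  | succ k ih => rw [Function.iterate_succ_apply, map_sum, ih]; rfl

/-! ### sums over types -/

theorem sum_Ty {M : Type} [AddCommMonoid M] (h W C : ℕ) (f : ℕ → ℕ → M) (hW : h * C ≤ W) :
    ∑ κ : Ty h W C, f (κ.1.1 : ℕ) (κ.1.2 : ℕ) =
      ∑ c ∈ Finset.range (C + 1), ∑ k ∈ Finset.range (W - h * c + 1), f k c := by
  classical
  have h1 : ∑ κ : Ty h W C, f (κ.1.1 : ℕ) (κ.1.2 : ℕ) =
      ∑ x : Fin (W + 1) × Fin (C + 1), if (x.1 : ℕ) + h * (x.2 : ℕ) ≤ W then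
        f (x.1 : ℕ) (x.2 : ℕ) else 0 := by
    rw [← Finset.sum_filter]
    exact (Finset.sum_subtype (Finset.univ.filter
      fun x : Fin (W + 1) × Fin (C + 1) => (x.1 : ℕ) + h * (x.2 : ℕ) ≤ W)
      (by simp) (fun x => f (x.1 : ℕ) (x.2 : ℕ))).symm
  rw [h1, Fintype.sum_prod_type_right]
  rw [Finset.sum_range (fun c => ∑ k ∈ Finset.range (W - h * c + 1), f k c)]
  refine Finset.sum_congr rfl fun c _ => ?_
  have h2 : h * (c : ℕ) ≤ W := (Nat.mul_le_mul_left h (Nat.lt_succ_iff.1 c.2)).trans hW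
  have h3 := (Finset.sum_range (n := W + 1)
    (fun k => if k + h * (c : ℕ) ≤ W then f k c else 0)).symm
  refine Eq.trans h3 ?_
  rw [← Finset.sum_filter]
  refine Finset.sum_congr ?_ fun _ _ => rfl
  ext k
  simp only [Finset.mem_filter, Finset.mem_range]
  omega

/-- extension by zero of a function on the types -/
def ext0 {M : Type} [Zero M] (x : Ty h W C → M) (k c : ℕ) : M :=
  if H : k + h * c ≤ W ∧ c ≤ C then
    x ⟨(⟨k, by omega⟩, ⟨c, by omega⟩), H.1⟩ else 0

theorem ext0_eq {M : Type} [Zero M] (x : Ty h W C → M) (κ : Ty h W C) :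
    ext0 x (κ.1.1 : ℕ) (κ.1.2 : ℕ) = x κ := by
  have h1 := κ.2
  have h2 : (κ.1.2 : ℕ) ≤ C := Nat.lt_succ_iff.1 κ.1.2.2
  rw [ext0, dif_pos ⟨h1, h2⟩]

theorem ext0_ne {M : Type} [Zero M] {x : Ty h W C → M} {k c : ℕ} (hx : ext0 x k c ≠ 0) :
    k + h * c ≤ W ∧ c ≤ C ∧ ∃ κ : Ty h W C, (κ.1.1 : ℕ) = k ∧ (κ.1.2 : ℕ) = c ∧ x κ ≠ 0 := by
  unfold ext0 at hx
  split_ifs at hx with H
  · exact ⟨H.1, H.2, _, rfl, rfl, hx⟩
  · exact absurd rfl hx

/-! ### independence of the `ev0` -/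

theorem ev0_pderiv (F : PowerSeries ℚ) (P : Ty h W C → Polynomial ℚ) (k : ℕ) (hW : h * C ≤ W) :
    ev0 F ((pderiv 3)^[k] (toPP P)) =
      ∑ c ∈ Finset.range (C + 1), ∑ b ∈ Finset.range (W - h * c + 1),
        ((c.descFactorial k : ℕ) : ℚ) • (ev (ext0 P b c) * A ^ (W - h * c - b) * E ^ b *
          F ^ (c - k)) := by
  rw [← sum_Ty h W C (fun b c => ((c.descFactorial k : ℕ) : ℚ) • (ev (ext0 P b c) *
    A ^ (W - h * c - b) * E ^ b * F ^ (c - k))) hW]
  unfold toPP
  rw [pderiv_iter_sum, map_sum]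
  refine Finset.sum_congr rfl fun κ _ => ?_
  rw [pderiv_iter_mm, map_smul, map_mul, ev0_aeval, ev0_mm, ext0_eq, ea]
  congr 1
  ring

theorem indep_F {h : ℕ} {a : ℕ → ℤ} {v : Polynomial ℚ} (hs : Sys h a v) {p : ℕ} (hp : p.Prime)
    (hp2 : p ≠ 2) (hord : ¬ (p : ℤ) ∣ a p) {W C : ℕ} (hC : C < p) (hW : h * C ≤ W)
    (P : Ty h W C → Polynomial ℚ) (C' : ℕ) (hC' : ∀ κ : Ty h W C, C' < (κ.1.2 : ℕ) → P κ = 0)
    (κ0 : Ty h W C) (hκ0 : P κ0 ≠ 0) (hc0 : (κ0.1.2 : ℕ) = C') (x : ℕ → ℚ)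
    (hx : ∑ c ∈ Finset.range (C' + 1), x c • ev0 (Fs a) ((pderiv 3)^[c] (toPP P)) = 0) :
    ∀ c ≤ C', x c = 0 := by
  classical
  by_contra hcon
  push Not at hcon
  have hex : ∃ c, c ≤ C' ∧ x c ≠ 0 := hcon
  set c0 := Nat.find hex with hc0def
  obtain ⟨hc0le, hxc0⟩ := Nat.find_spec hex
  have hmin : ∀ c < c0, x c = 0 := by
    intro c hc
    by_contra hne
    exact Nat.find_min hex hc ⟨by omega, hne⟩
  have hCC : C' ≤ C := by
    rw [← hc0]; exact Nat.lt_succ_iff.1 κ0.1.2.2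
  have hP0 : ∀ b c, C' < c → ext0 P b c = 0 := by
    intro b c hc
    by_contra hne
    obtain ⟨_, _, κ, _, h2, h3⟩ := ext0_ne hne
    exact h3 (hC' κ (by omega))
  -- the series `T b c`
  set T : ℕ → ℕ → PowerSeries ℚ := fun b c => ev (ext0 P b c) * A ^ (W - h * c - b) * E ^ b with hT
  set U : ℕ → PowerSeries ℚ := fun c => ∑ b ∈ Finset.range (W - h * c + 1), T b c with hU
  have hU0 : ∀ c, C' < c → U c = 0 := by
    intro c hc
    simp only [hU]
    refine Finset.sum_eq_zero fun b _ => ?_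
    simp only [hT, hP0 b c hc, ev, map_zero, zero_mul]
  set g : ℕ → PowerSeries ℚ := fun e => ∑ k ∈ Finset.range (C' + 1),
    (x k * ((e + k).descFactorial k : ℕ)) • U (e + k) with hg
  have hev : ∀ k, ev0 (Fs a) ((pderiv 3)^[k] (toPP P)) =
      ∑ c ∈ Finset.range (C + 1), ((c.descFactorial k : ℕ) : ℚ) • (U c * Fs a ^ (c - k)) := by
    intro k
    rw [ev0_pderiv (Fs a) P k hW]
    refine Finset.sum_congr rfl fun c _ => ?_
    rw [← Finset.smul_sum, hU, Finset.sum_mul]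
  -- rearrangement
  have hmain : ∑ e ∈ Finset.range (C + 1), g e * Fs a ^ e = 0 := by
    rw [← hx]
    have h1 : ∀ k ∈ Finset.range (C' + 1), x k • ev0 (Fs a) ((pderiv 3)^[k] (toPP P)) =
        ∑ e ∈ Finset.range (C + 1), (x k * ((e + k).descFactorial k : ℕ)) •
          (U (e + k) * Fs a ^ e) := by
      intro k hk
      rw [Finset.mem_range] at hk
      rw [hev, Finset.smul_sum]
      -- left: sum over c of x k • desc • U c F^(c-k); right: over e
      have hl : ∑ c ∈ Finset.range (C + 1), x k • (((c.descFactorial k : ℕ) : ℚ) •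
          (U c * Fs a ^ (c - k))) = ∑ c ∈ Finset.range (C + 1 + k),
            x k • (((c.descFactorial k : ℕ) : ℚ) • (U c * Fs a ^ (c - k))) := by
        refine Finset.sum_subset (Finset.range_subset_range.2 (by omega)) fun c _ hc => ?_
        rw [Finset.mem_range] at hc
        rw [hU0 c (by omega)]
        simp
      rw [hl, add_comm (C + 1) k, Finset.sum_range_add]
      have h0 : ∑ c ∈ Finset.range k, x k • (((c.descFactorial k : ℕ) : ℚ) •
          (U c * Fs a ^ (c - k))) = 0 := by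
        refine Finset.sum_eq_zero fun c hc => ?_
        rw [Finset.mem_range] at hc
        rw [Nat.descFactorial_of_lt hc]
        simp
      rw [h0, zero_add]
      refine Finset.sum_congr rfl fun e _ => ?_
      rw [smul_smul, add_comm k e, Nat.add_sub_cancel]
    rw [Finset.sum_congr rfl h1, Finset.sum_comm]
    refine Finset.sum_congr rfl fun e _ => ?_
    rw [hg, Finset.sum_mul]
    exact Finset.sum_congr rfl fun k _ => by rw [smul_mul_assoc]
  have hBD : ∀ e, ∃ k : ℕ, ∀ n, padicNorm p (PowerSeries.coeff n (g e)) ≤ (p : ℚ) ^ k := by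
    intro e
    show BD p (g e)
    refine BD.sum hp _ _ fun k _ => BD.smul hp ?_ _
    refine BD.sum hp _ _ fun b _ => ?_
    exact ((BD.ev hp _).mul hp (BD.of_isInt hp (isInt_A.pow _))).mul hp
      (BD.of_isInt hp (isInt_E.pow _))
  have hg0 := t_one hs hp hp2 hord hC g hBD hmain (C' - c0) (by omega)
  have hUC : U C' = 0 := by
    have h1 : g (C' - c0) = (x c0 * ((C' - c0 + c0).descFactorial c0 : ℕ)) • U C' := by
      simp only [hg]
      rw [Finset.sum_eq_single c0]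
      · rw [Nat.sub_add_cancel hc0le]
      · intro k hk hne
        rcases lt_or_gt_of_ne hne with hlt | hgt
        · rw [hmin k hlt]; simp
        · rw [hU0 _ (by omega)]; simp
      · intro hn
        exact absurd (Finset.mem_range.2 (by omega)) hn
    rw [hg0] at h1
    have h2 : (x c0 * ((C' - c0 + c0).descFactorial c0 : ℕ)) ≠ 0 := by
      refine mul_ne_zero hxc0 ?_
      rw [Nat.cast_ne_zero, Ne, Nat.descFactorial_eq_zero_iff_lt]
      omega
    exact (smul_eq_zero.1 h1.symm).resolve_left h2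
  have h3 := t_two (W - h * C') (fun b => ext0 P b C') (by
    rw [← hUC])
  have h4 := h3 (κ0.1.1 : ℕ) (by have := κ0.2; rw [hc0] at this; omega)
  rw [← hc0] at h4
  simp only [ext0_eq] at h4
  exact hκ0 h4

/-! ### independence over `ℚ⟦X⟧[L]` -/

theorem ea_lt_iff {κ : Ty h W C} (l : ℕ) : (κ.1.1 : ℕ) + h * (κ.1.2 : ℕ) + l ≤ W ↔ l ≤ ea κ := by
  have := κ.2
  unfold ea
  omega

theorem indep_y {h W C' d : ℕ} {a : ℕ → ℤ} (hW : h * C' ≤ W) (Q : PP) (hQ : Q ∈ SS h W C' d)
    (H : ∀ x : ℕ → ℚ, ∑ c ∈ Finset.range (C' + 1), x c • ev0 (Fs a) ((pderiv 3)^[c] Q) = 0 →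
      ∀ c ≤ C', x c = 0)
    (x : Ty h W C' → ℚ)
    (hx : ∑ κ, x κ • (Polynomial.derivative^[(κ.1.1 : ℕ)]
      (evL h a ((pderiv 3)^[(κ.1.2 : ℕ)] Q))) = 0) : x = 0 := by
  classical
  by_contra hne
  have hex : ∃ κ, x κ ≠ 0 := by
    by_contra hcon
    push Not at hcon
    exact hne (funext hcon)
  obtain ⟨κ1, hκ1, hmax⟩ := Finset.exists_max_image (Finset.univ.filter fun κ => x κ ≠ 0)
    (fun κ => ea κ) (by
      obtain ⟨κ, hκ⟩ := hex
      exact ⟨κ, by simp [hκ]⟩)
  rw [Finset.mem_filter] at hκ1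
  set l := ea κ1 with hl
  have hmax' : ∀ k c, ext0 x k c ≠ 0 → W - h * c - k ≤ l := by
    intro k c hkc
    obtain ⟨_, _, κ, h1, h2, h3⟩ := ext0_ne hkc
    have := hmax κ (by simp [h3])
    rw [← h1, ← h2]
    exact this
  -- the coefficient of `L ^ l`
  have hcoef := congrArg (fun P : Polynomial (PowerSeries ℚ) => P.coeff l) hx
  simp only [Polynomial.finsetSum_coeff, Polynomial.coeff_zero] at hcoef
  have h1 : ∀ κ : Ty h W C', (x κ • (Polynomial.derivative^[(κ.1.1 : ℕ)]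
      (evL h a ((pderiv 3)^[(κ.1.2 : ℕ)] Q)))).coeff l =
      (fun k c => ext0 x k c • ((((l + k).descFactorial k : ℕ) : ℚ) •
        (evL h a ((pderiv 3)^[c] Q)).coeff (l + k))) (κ.1.1 : ℕ) (κ.1.2 : ℕ) := by
    intro κ
    simp only [ext0_eq]
    rw [Polynomial.coeff_smul, Polynomial.coeff_iterate_derivative, Nat.cast_smul_eq_nsmul]
  rw [Finset.sum_congr rfl fun κ _ => h1 κ, sum_Ty h W C'
    (fun k c => ext0 x k c • ((((l + k).descFactorial k : ℕ) : ℚ) •
        (evL h a ((pderiv 3)^[c] Q)).coeff (l + k))) hW] at hcoef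
  -- the inner sums
  set x' : ℕ → ℚ := fun c => if h * c + l ≤ W then
    ext0 x (W - h * c - l) c * ((l + (W - h * c - l)).descFactorial (W - h * c - l) : ℕ) else 0
    with hx'
  have h2 : ∀ c ∈ Finset.range (C' + 1), (∑ k ∈ Finset.range (W - h * c + 1),
      ext0 x k c • ((((l + k).descFactorial k : ℕ) : ℚ) •
        (evL h a ((pderiv 3)^[c] Q)).coeff (l + k))) =
      x' c • ev0 (Fs a) ((pderiv 3)^[c] Q) := by
    intro c hc
    rw [Finset.mem_range] at hc
    have hcW : h * c ≤ W := (Nat.mul_le_mul_left h (by omega)).trans hW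
    have hdeg := evL_deg (a := a) (pderiv_iter_mem hQ c hcW)
    simp only [hx']
    split_ifs with hcl
    · rw [Finset.sum_eq_single (W - h * c - l)]
      · rw [smul_smul, show l + (W - h * c - l) = W - h * c by omega, hdeg.2]
      · intro k hk hkne
        rw [Finset.mem_range] at hk
        rcases lt_or_gt_of_ne hkne with hlt | hgt
        · have : ext0 x k c = 0 := by
            by_contra hne2
            have := hmax' k c hne2
            omega
          rw [this, zero_smul]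
        · rw [Polynomial.coeff_eq_zero_of_natDegree_lt (by omega), smul_zero, smul_zero]
      · intro hn
        exact absurd (Finset.mem_range.2 (by omega)) hn
    · rw [zero_smul]
      refine Finset.sum_eq_zero fun k hk => ?_
      rw [Polynomial.coeff_eq_zero_of_natDegree_lt (by omega), smul_zero, smul_zero]
  rw [Finset.sum_congr rfl h2] at hcoef
  have h3 := H x' hcoef (κ1.1.2 : ℕ) (Nat.lt_succ_iff.1 κ1.1.2.2)
  have h4 := ea_add κ1
  have h5 : h * (κ1.1.2 : ℕ) + l ≤ W := by omega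
  simp only [hx'] at h3
  rw [if_pos h5, show W - h * (κ1.1.2 : ℕ) - l = (κ1.1.1 : ℕ) by omega, ext0_eq] at h3
  refine hκ1.2 ((mul_eq_zero.1 h3).resolve_right ?_)
  rw [Nat.cast_ne_zero, Ne, Nat.descFactorial_eq_zero_iff_lt]
  omega

theorem iter_deriv_C_mul (f : PowerSeries ℚ) (P : Polynomial (PowerSeries ℚ)) (k : ℕ) :
    Polynomial.derivative^[k] (Polynomial.C f * P) =
      Polynomial.C f * Polynomial.derivative^[k] P := by
  induction k with
  | zero => rfl
  | succ k ih =>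
    rw [Function.iterate_succ_apply', Function.iterate_succ_apply', ih, Polynomial.derivative_C_mul]

theorem pderiv_iter_mul_aeval (p : Polynomial ℚ) (Q : PP) (k : ℕ) :
    (pderiv 3)^[k] (Polynomial.aeval (X 0 : PP) p * Q) =
      Polynomial.aeval (X 0 : PP) p * (pderiv 3)^[k] Q := by
  induction k with
  | zero => rfl
  | succ k ih => rw [Function.iterate_succ_apply', Function.iterate_succ_apply', ih, pderiv_mul_aeval]

theorem det_ne {h : ℕ} {a : ℕ → ℤ} {v : Polynomial ℚ} (hs : Sys h a v) {W C' d : ℕ}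
    (hW : h * C' ≤ W) (Q : PP) (hQ : Q ∈ SS h W C' d)
    (H : ∀ x : ℕ → ℚ, ∑ c ∈ Finset.range (C' + 1), x c • ev0 (Fs a) ((pderiv 3)^[c] Q) = 0 →
      ∀ c ≤ C', x c = 0) {r : ℕ} (e : Fin r ≃ Ty h W C') :
    (Matrix.of fun j κ : Fin r => cfT h W C' ((dl h v)^[(j : ℕ)] Q) (e κ)).det ≠ 0 := by
  intro hdet
  obtain ⟨lam, hlam, hM⟩ := Matrix.exists_vecMul_eq_zero_iff.2 hdet
  have hM' : ∀ κ : Ty h W C', ∑ j : Fin r, lam j * cfT h W C' ((dl h v)^[(j : ℕ)] Q) κ = 0 := by
    intro κ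
    have := congrFun hM (e.symm κ)
    simpa [Matrix.vecMul, dotProduct] using this
  have hQj : ∀ j : ℕ, (dl h v)^[j] Q ∈ SS h W C' (d + h * j) := fun j =>
    dl_iter_mem hs.h4 hs.deg hQ j
  have hrel : ∑ j : Fin r, Polynomial.aeval (X 0 : PP) (lam j) * (dl h v)^[(j : ℕ)] Q = 0 := by
    have h1 : ∀ j : Fin r, Polynomial.aeval (X 0 : PP) (lam j) * (dl h v)^[(j : ℕ)] Q =
        ∑ κ : Ty h W C', Polynomial.aeval (X 0 : PP)
          (lam j * cfT h W C' ((dl h v)^[(j : ℕ)] Q) κ) * mm 0 (ea κ) (κ.1.1 : ℕ) (κ.1.2 : ℕ) := by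
      intro j
      conv_lhs => rw [← toPP_cfT (hQj j)]
      rw [toPP, Finset.mul_sum]
      refine Finset.sum_congr rfl fun κ _ => ?_
      rw [map_mul, mul_assoc]
    rw [Finset.sum_congr rfl fun j _ => h1 j, Finset.sum_comm]
    refine Finset.sum_eq_zero fun κ _ => ?_
    rw [← Finset.sum_mul, ← map_sum, hM', map_zero, zero_mul]
  set y : Ty h W C' → Polynomial (PowerSeries ℚ) := fun κ =>
    Polynomial.derivative^[(κ.1.1 : ℕ)] (evL h a ((pderiv 3)^[(κ.1.2 : ℕ)] Q)) with hy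
  have hcomm : ∀ (k : ℕ) (P : Polynomial (PowerSeries ℚ)) (j : ℕ),
      thL^[j] (Polynomial.derivative^[k] P) = Polynomial.derivative^[k] (thL^[j] P) := by
    intro k P j
    exact (Function.Commute.iterate_iterate
      (f := (thL : Polynomial (PowerSeries ℚ) → Polynomial (PowerSeries ℚ)))
      (g := (Polynomial.derivative : Polynomial (PowerSeries ℚ) → Polynomial (PowerSeries ℚ)))
      (fun P => thL_derivative P) j k) P
  have hyj : ∀ (κ : Ty h W C') (j : ℕ), thL^[j] (y κ) =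
      Polynomial.derivative^[(κ.1.1 : ℕ)] (evL h a ((pderiv 3)^[(κ.1.2 : ℕ)] ((dl h v)^[j] Q))) := by
    intro κ j
    rw [hy]
    simp only
    rw [hcomm, thL_iter_evL hs, pderiv_dl_iter]
  have hyrel : ∀ κ : Ty h W C', ∑ j : Fin r, Polynomial.C (ev (lam j)) * thL^[(j : ℕ)] (y κ) = 0 := by
    intro κ
    have h1 := congrArg (fun P => Polynomial.derivative^[(κ.1.1 : ℕ)]
      (evL h a ((pderiv 3)^[(κ.1.2 : ℕ)] P))) hrel
    simp only [pderiv_iter_sum, map_sum, Polynomial.iterate_derivative_sum,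
      pderiv_iter_mul_aeval, map_mul, evL_aeval, iter_deriv_C_mul] at h1
    simp only [hyj]
    rw [h1]
    have h0 : (⇑(pderiv 3 : Derivation ℚ PP PP))^[(κ.1.2 : ℕ)] 0 = 0 :=
      Function.iterate_fixed (map_zero _) _
    rw [h0, map_zero]
    exact Function.iterate_fixed (map_zero _) _
  have hdet2 : (Matrix.of fun b l : Fin r => (thL^[(l : ℕ)]) (y (e b))).det = 0 := by
    refine Matrix.exists_mulVec_eq_zero_iff.1 ⟨fun j => Polynomial.C (ev (lam j)), ?_, ?_⟩
    · intro h0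
      apply hlam
      funext j
      have := congrFun h0 j
      simp only [Pi.zero_apply, Polynomial.C_eq_zero] at this
      by_contra hne
      exact ev_ne_zero hne this
    · funext b
      simp only [Matrix.mulVec, dotProduct, Matrix.of_apply, Pi.zero_apply]
      rw [← hyrel (e b)]
      exact Finset.sum_congr rfl fun j _ => mul_comm _ _
  obtain ⟨c, hc, hsum⟩ := wronL (fun b => y (e b)) hdet2
  have h0 := indep_y (a := a) hW Q hQ H (fun κ => c (e.symm κ)) (by
    rw [← hsum, ← Equiv.sum_comp e]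
    simp only [Equiv.symm_apply_apply]
    rfl)
  apply hc
  funext b
  have := congrFun h0 (e b)
  simpa using this

/-! ### the zero estimate -/

theorem X_pow_dvd_D {M : ℕ} {f : PowerSeries ℚ} (hf : (PowerSeries.X : PowerSeries ℚ) ^ M ∣ f) :
    (PowerSeries.X : PowerSeries ℚ) ^ M ∣ D f := by
  rw [PowerSeries.X_pow_dvd_iff] at hf ⊢
  intro n hn
  rw [coeff_D, hf n hn, mul_zero]

theorem X_pow_dvd_th {M : ℕ} {f : PowerSeries ℚ} (hf : (PowerSeries.X : PowerSeries ℚ) ^ M ∣ f) :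
    (PowerSeries.X : PowerSeries ℚ) ^ M ∣ th f :=
  Dvd.dvd.mul_left (X_pow_dvd_D hf) _

theorem X_pow_dvd_th_iter {M : ℕ} {f : PowerSeries ℚ}
    (hf : (PowerSeries.X : PowerSeries ℚ) ^ M ∣ f) (j : ℕ) :
    (PowerSeries.X : PowerSeries ℚ) ^ M ∣ th^[j] f := by
  induction j with
  | zero => exact hf
  | succ j ih => rw [Function.iterate_succ_apply']; exact X_pow_dvd_th ih

theorem zero_est' {h : ℕ} {a : ℕ → ℤ} {v : Polynomial ℚ} (hs : Sys h a v) {p : ℕ} (hp : p.Prime)
    (hp2 : p ≠ 2) (hord : ¬ (p : ℤ) ∣ a p) {W C : ℕ} (hC : C < p) (hW : h * C ≤ W) (d : ℕ)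
    (P : Ty h W C → Polynomial ℚ) (hdeg : ∀ κ, (P κ).natDegree < d) (hne : P ≠ 0) :
    ∃ n ≤ Fintype.card (Ty h W C) * (d + h * Fintype.card (Ty h W C)),
      PowerSeries.coeff n (∑ κ, ev (P κ) * mon h W (Fs a) (κ.1.1 : ℕ) (κ.1.2 : ℕ)) ≠ 0 := by
  classical
  by_contra hcon
  push Not at hcon
  set m := Fintype.card (Ty h W C) with hm
  -- the largest degree in `F`
  have hex : ∃ κ, P κ ≠ 0 := by
    by_contra h0
    push Not at h0
    exact hne (funext h0)
  obtain ⟨κ0, hκ0, hmax⟩ := Finset.exists_max_image (Finset.univ.filter fun κ => P κ ≠ 0)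
    (fun κ => (κ.1.2 : ℕ)) (by
      obtain ⟨κ, hκ⟩ := hex
      exact ⟨κ, by simp [hκ]⟩)
  rw [Finset.mem_filter] at hκ0
  set C' := (κ0.1.2 : ℕ) with hC'
  have hC'C : C' ≤ C := Nat.lt_succ_iff.1 κ0.1.2.2
  have hP0 : ∀ κ : Ty h W C, C' < (κ.1.2 : ℕ) → P κ = 0 := by
    intro κ hκ
    by_contra h0
    have := hmax κ (by simp [h0])
    omega
  have hW' : h * C' ≤ W := (Nat.mul_le_mul_left h hC'C).trans hW
  set Q := toPP P with hQ
  have hQmem : Q ∈ SS h W C' d := by
    refine toPP_mem C' fun κ => ?_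
    by_cases h0 : P κ = 0
    · exact Or.inl h0
    · refine Or.inr ⟨hdeg κ, ?_⟩
      by_contra h1
      exact h0 (hP0 κ (by omega))
  have hind := indep_F hs hp hp2 hord hC hW P C' hP0 κ0 hκ0.2 rfl
  set r := Fintype.card (Ty h W C') with hr
  have e : Fin r ≃ Ty h W C' := (Fintype.equivFin _).symm
  have hrm : r ≤ m := by
    refine Fintype.card_le_of_injective
      (fun κ : Ty h W C' => (⟨(κ.1.1, ⟨(κ.1.2 : ℕ), by have := κ.1.2.2; omega⟩), κ.2⟩ : Ty h W C)) ?_
    intro κ κ' hk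
    have h1 := congrArg (fun κ : Ty h W C => (κ.1.1 : ℕ)) hk
    have h2 := congrArg (fun κ : Ty h W C => (κ.1.2 : ℕ)) hk
    simp only at h1 h2
    exact Subtype.ext (Prod.ext (Fin.ext h1) (Fin.ext h2))
  have hdet := det_ne hs hW' Q hQmem hind e
  set V : Matrix (Fin r) (Fin r) (Polynomial ℚ) :=
    Matrix.of fun j κ : Fin r => cfT h W C' ((dl h v)^[(j : ℕ)] Q) (e κ) with hV
  -- degree of the determinant
  have hVdeg : ∀ j κ, (V j κ).natDegree ≤ d + h * r := by
    intro j κ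
    have h1 := cfT_deg (dl_iter_mem hs.h4 hs.deg hQmem (j : ℕ)) (e κ)
    rw [Polynomial.mem_degreeLT] at h1
    have h2 : (V j κ).degree < ((d + h * (j : ℕ) : ℕ) : WithBot ℕ) := h1
    have h3 := Polynomial.natDegree_le_of_degree_le h2.le
    refine h3.trans ?_
    have := Nat.mul_le_mul_left h j.2.le
    omega
  have hdetdeg : V.det.natDegree ≤ m * (d + h * m) := by
    rw [Matrix.det_apply]
    refine (Polynomial.natDegree_sum_le_of_forall_le (n := m * (d + h * m)) _ _ fun σ _ => ?_)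
    have h1 : (Equiv.Perm.sign σ • ∏ i, V (σ i) i).natDegree ≤ (∏ i, V (σ i) i).natDegree := by
      rcases Int.units_eq_one_or (Equiv.Perm.sign σ) with h2 | h2
      · rw [h2, one_smul]
      · rw [h2]; simp
    refine h1.trans ((Polynomial.natDegree_prod_le _ _).trans ?_)
    refine (Finset.sum_le_card_nsmul _ _ (d + h * r) fun i _ => hVdeg _ _).trans ?_
    rw [Finset.card_univ, Fintype.card_fin, smul_eq_mul]
    have : h * r ≤ h * m := Nat.mul_le_mul_left _ hrm
    exact Nat.mul_le_mul hrm (by omega)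
  -- divisibility
  set M := m * (d + h * m) with hM
  have hdvd : (PowerSeries.X : PowerSeries ℚ) ^ (M + 1) ∣ ev0 (Fs a) Q := by
    rw [PowerSeries.X_pow_dvd_iff]
    intro n hn
    rw [hQ, ev0_toPP]
    exact hcon n (by omega)
  have hb : (0 : ℕ) + h * 0 ≤ W := by omega
  set κz : Ty h W C' := ⟨(⟨0, by omega⟩, ⟨0, by omega⟩), by simp⟩ with hκz
  have hkey : ev V.det * A ^ W = ∑ j : Fin r, ev (V.adjugate (e.symm κz) j) *
      th^[(j : ℕ)] (ev0 (Fs a) Q) := by
    have h1 : ∀ j : Fin r, th^[(j : ℕ)] (ev0 (Fs a) Q) =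
        ∑ κ : Fin r, ev (V j κ) * mon h W (Fs a) ((e κ).1.1 : ℕ) ((e κ).1.2 : ℕ) := by
      intro j
      rw [th_iter_ev0 hs, ← toPP_cfT (dl_iter_mem hs.h4 hs.deg hQmem (j : ℕ)), ev0_toPP,
        ← Equiv.sum_comp e]
      rfl
    simp only [h1, Finset.mul_sum]
    rw [Finset.sum_comm]
    have h2 : ∀ κ : Fin r, ∑ j : Fin r, ev (V.adjugate (e.symm κz) j) *
        (ev (V j κ) * mon h W (Fs a) ((e κ).1.1 : ℕ) ((e κ).1.2 : ℕ)) =
        ev ((V.adjugate * V) (e.symm κz) κ) *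
          mon h W (Fs a) ((e κ).1.1 : ℕ) ((e κ).1.2 : ℕ) := by
      intro κ
      rw [Matrix.mul_apply, ev, map_sum, Finset.sum_mul]
      refine Finset.sum_congr rfl fun j _ => ?_
      rw [map_mul, mul_assoc]
      rfl
    rw [Finset.sum_congr rfl fun κ _ => h2 κ, Matrix.adjugate_mul, Finset.sum_eq_single (e.symm κz)]
    · rw [Matrix.smul_apply, Matrix.one_apply_eq, smul_eq_mul, mul_one, Equiv.apply_symm_apply]
      simp [mon, hκz]
    · intro κ _ hne2
      rw [Matrix.smul_apply, Matrix.one_apply_ne (Ne.symm hne2), smul_zero]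
      simp [ev]
    · intro hn; exact absurd (Finset.mem_univ _) hn
  have hdvd2 : (PowerSeries.X : PowerSeries ℚ) ^ (M + 1) ∣ ev V.det * A ^ W := by
    rw [hkey]
    exact Finset.dvd_sum fun j _ => Dvd.dvd.mul_left (X_pow_dvd_th_iter hdvd _) _
  have hA : IsUnit (A ^ W) := by
    refine IsUnit.pow _ ?_
    rw [PowerSeries.isUnit_iff_constantCoeff, A_const]
    exact isUnit_one
  have hdvd3 := (hA.dvd_mul_right).1 hdvd2
  have := ord_ev hdet hdvd3
  omega

end

end Run7.h423
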